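import Pool.Agent.Helper78.KD.Glue

/-!
# Discrepancy, means and Weyl sums
-/

set_option autoImplicit false

namespace Pool.Agent.Helper78.KD

open MeasureTheory Set Filter Topology

theorem freq_finset {ι : Type*} (F : Finset ι) (P : ι → ℕ → Prop) (h : ∃ᶠ N : ℕ in atTop, ∃ w ∈ F, P w N) :
    ∃ w ∈ F, ∃ᶠ N : ℕ in atTop, P w N := by
  by_contra hcon
  push Not at hcon
  have h1 : ∀ᶠ N : ℕ in atTop, ∀ w ∈ F, ¬ P w N := by
    rw [Filter.eventually_all_finset]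
    intro w hw
    have := hcon w hw
    rwa [Filter.eventually_iff] at this ⊢
  exact h (h1.mono fun N hN ⟨w, hw, hP⟩ => hN w hw hP)

theorem dimH_finset {ι : Type*} (F : Finset ι) (A : ι → Set ℝ) (E : Set ℝ) (d : ENNReal) (hE : ∀ x ∈ E, ∃ w ∈ F, x ∈ A w)
    (hA : ∀ w ∈ F, dimH (A w) ≤ d) : dimH E ≤ d := by
  have h1 : E ⊆ ⋃ w ∈ (F : Set ι), A w := fun x hx => by
    obtain ⟨w, hw, hxw⟩ := hE x hx
    exact mem_biUnion hw hxw
  refine (dimH_mono h1).trans ?_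
  rw [dimH_bUnion F.countable_toSet]
  exact iSup₂_le hA

/-- upper bound for the discrepancy -/
theorem disc_upper {x₀ : ℝ} (hx₀ : 1 < x₀) (hirr : ∀ d : ℕ, 1 ≤ d → Irrational (x₀ ^ d)) {ε : ℝ} (hε : 0 < ε) (hε1 : ε ≤ 1) :
    ∃ (D : ℕ) (τ β₁ β₂ δ₀ : ℝ), 0 < τ ∧ 1 < β₁ ∧ β₁ < x₀ ∧ x₀ < β₂ ∧ 0 < δ₀ ∧ ∀ δ : ℝ, 0 < δ → δ ≤ δ₀ →
      ∀ (U : ℕ → ℝ → ℝ) (G : Set ℝ), LocFam U G (fun d => x₀ ^ d) D τ β₁ β₂ →
      dimH {x | x ∈ G ∧ δ ≤ limsup (fun N => disc (fun n => U n x) N) atTop} ≤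
        ENNReal.ofReal (1 - (2 - ε) / Real.log x₀ * δ ^ 2) := by
  set e := ε / 32 with he
  have he0 : 0 < e := by positivity
  have he1 : e ≤ 1 / 32 := by rw [he]; linarith
  have hlx := Real.log_pos hx₀
  obtain ⟨β₁, β₂, hb1, hb2, hb3, hb4, hb5⟩ := choose_bases hx₀ he0 (by linarith)
  obtain ⟨D, τ, δ₁, hτ, hδ₁, hδ₁1, hmain⟩ := loc_upper hirr (β := β₁) (V := 1) (K₀ := 2 / e) (s := 1 / 4) (ε := e) hb1
    zero_le_one (by rw [le_div_iff₀ he0]; linarith) (by norm_num) (by norm_num) he0 (by linarith)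
  refine ⟨D, τ, β₁, β₂, δ₁, hτ, hb1, hb2, hb3, hδ₁, fun δ hδ hδδ U G hloc => ?_⟩
  have hδ1 : δ ≤ 1 := hδδ.trans hδ₁1
  set η := e * δ with hη
  have hη0 : 0 < η := by positivity
  have hη1 : η ≤ 1 := by rw [hη]; nlinarith
  obtain ⟨F, hF⟩ := disc_grid hη0 hη1
  set m := (1 - 6 * e) * δ with hm
  have h16 : 0 < 1 - 6 * e := by linarith
  have hm0 : 0 < m := by positivity
  have hmδ : m ≤ δ := by rw [hm]; nlinarith
  set Φ : (ℝ × ℝ) × Bool → ℝ → ℝ := fun w t => if w.2 then tr η w.1.1 w.1.2 t else - tr η w.1.1 w.1.2 t with hΦ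
  have hcls : ∀ w, Cls (Φ w) 1 (2 / e / m) := by
    intro w
    have h1 : 2 / η ≤ 2 / e / m := by
      rw [div_div, hη]
      apply div_le_div_of_nonneg_left (by norm_num) (by positivity)
      gcongr
    rcases w with ⟨z, b⟩
    cases b
    · have := ((tr_cls hη0 hη1 z.1 z.2).mono h1).neg
      simpa [hΦ] using this
    · have := (tr_cls hη0 hη1 z.1 z.2).mono h1
      simpa [hΦ] using this
  have hvar : ∀ w, (∫ t in (0 : ℝ)..1, Φ w t ^ 2) ≤ 1 / 4 := by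
    intro w
    have h1 := tr_var_le hη0 hη1 w.1.1 w.1.2
    have h2 : (∫ t in (0 : ℝ)..1, Φ w t ^ 2) = ∫ t in (0 : ℝ)..1, tr η w.1.1 w.1.2 t ^ 2 := by
      refine intervalIntegral.integral_congr fun t _ => ?_
      simp only [hΦ]
      split_ifs <;> ring
    rw [h2]
    exact h1
  refine dimH_finset (F ×ˢ Finset.univ) (fun w => {x | x ∈ G ∧ ∃ᶠ N : ℕ in atTop, ((1 - 5 * e) * δ) * N ≤ S (Φ w) U N x})
    _ _ ?_ ?_
  · rintro x ⟨hxG, hx⟩
    have h1 := freq_of_limsup (δ' := (1 - e) * δ) (fun N => disc_bdd (fun n => U n x) N) hx (by nlinarith)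
    have h2 : ∃ᶠ N : ℕ in atTop, ∃ w ∈ F ×ˢ (Finset.univ : Finset Bool), ((1 - 5 * e) * δ) * N ≤ S (Φ w) U N x := by
      refine (h1.and_eventually (eventually_ge_atTop 1)).mono ?_
      rintro N ⟨hN, hN1⟩
      obtain ⟨z, hz, hzz⟩ := hF (fun n => U n x) N ((1 - e) * δ) hN1 hN
      have h3 : (1 - e) * δ - 4 * η = (1 - 5 * e) * δ := by rw [hη]; ring
      rw [h3] at hzz
      rcases hzz with hzz | hzz
      · exact ⟨(z, true), by simp [hz], by simpa [hΦ, S] using hzz⟩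
      · exact ⟨(z, false), by simp [hz], by simpa [hΦ, S] using hzz⟩
    obtain ⟨w, hw, hfr⟩ := freq_finset _ _ h2
    exact ⟨w, hw, hxG, hfr⟩
  · intro w _
    refine (hmain m hm0 (hmδ.trans hδδ) U G β₁ β₂ le_rfl hloc (Φ w) (hcls w) (hvar w) ((1 - 5 * e) * δ)
      (by rw [hm]; nlinarith)).trans (ENNReal.ofReal_le_ofReal ?_)
    have hlb : 0 < Real.log β₂ := Real.log_pos (by linarith)
    have h1 : (1 - e) * m ^ 2 / (2 * (1 / 4) * Real.log β₂) ≥ (2 - ε) / Real.log x₀ * δ ^ 2 := by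
      have h2 : (1 - e) * m ^ 2 / (2 * (1 / 4) * Real.log β₂) = 2 * (1 - e) * (1 - 6 * e) ^ 2 / Real.log β₂ * δ ^ 2 := by
        rw [hm]; field_simp; ring
      rw [h2]
      apply mul_le_mul_of_nonneg_right _ (sq_nonneg δ)
      rw [div_le_div_iff₀ hlx hlb]
      have h3 : ε = 32 * e := by rw [he]; ring
      have h4 : (2 - ε) * Real.log β₂ ≤ (2 - ε) * ((1 + e) * Real.log x₀) := by
        apply mul_le_mul_of_nonneg_left hb5; linarith
      have h5 : (2 - ε) * (1 + e) ≤ 2 * (1 - e) * (1 - 6 * e) ^ 2 := by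
        rw [h3]
        have : (1 - 6 * e) ^ 2 ≥ 1 - 12 * e := by nlinarith
        have h6 : 2 * (1 - e) * (1 - 12 * e) ≤ 2 * (1 - e) * (1 - 6 * e) ^ 2 := by
          apply mul_le_mul_of_nonneg_left this; linarith
        nlinarith
      calc (2 - ε) * Real.log β₂ ≤ ((2 - ε) * (1 + e)) * Real.log x₀ := by linarith
        _ ≤ _ := by gcongr
    linarith

/-- lower bound for the discrepancy -/
theorem disc_lower {x₀ : ℝ} (hx₀ : 1 < x₀) (hirr : ∀ d : ℕ, 1 ≤ d → Irrational (x₀ ^ d)) {ε : ℝ} (hε : 0 < ε) (hε1 : ε ≤ 1) :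
    ∃ (D : ℕ) (τ β₁ β₂ δ₀ : ℝ), 0 < τ ∧ 1 < β₁ ∧ β₁ < x₀ ∧ x₀ < β₂ ∧ 0 < δ₀ ∧ ∀ δ : ℝ, 0 < δ → δ ≤ δ₀ →
      ∀ (U : ℕ → ℝ → ℝ) (G : Set ℝ), LocFam U G (fun d => x₀ ^ d) D τ β₁ β₂ → ∀ O : Set ℝ, IsOpen O → O.Nonempty → O ⊆ G →
      ENNReal.ofReal (1 - (2 + ε) / Real.log x₀ * δ ^ 2) ≤
      dimH {x | x ∈ O ∧ δ ≤ liminf (fun N => disc (fun n => U n x) N) atTop} := by
  set e := ε / 64 with he
  have he0 : 0 < e := by positivity
  have he1 : e ≤ 1 / 64 := by rw [he]; linarith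
  have hlx := Real.log_pos hx₀
  obtain ⟨β₁, β₂, hb1, hb2, hb3, hb4, hb5⟩ := choose_bases hx₀ he0 (by linarith)
  obtain ⟨D, τ, δ₁, hτ, hδ₁, hδ₁1, hmain⟩ := loc_lower hirr (β := β₁) (V := 1) (K₀ := 4 / e) (s := (1 - 4 * e) / 4) (ε := e) hb1
    zero_le_one (by rw [le_div_iff₀ he0]; linarith) (by linarith) (by linarith) he0 (by linarith)
  refine ⟨D, τ, β₁, β₂, δ₁ / 2, hτ, hb1, hb2, hb3, by positivity, fun δ hδ hδδ U G hloc O hO hne hOG => ?_⟩
  have hδ1 : δ ≤ 1 := by linarith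
  set η := e * δ with hη
  have hη0 : 0 < η := by positivity
  have hη1 : η ≤ 1 / 4 := by rw [hη]; nlinarith
  have hηe : η ≤ e := by rw [hη]; nlinarith
  set m := (1 + 3 * e) * δ with hm
  have hm0 : 0 < m := by positivity
  have hm2 : m ≤ 2 * δ := by rw [hm]; nlinarith
  have hcls : Cls (tr η (1 / 2) (-(1 / 2))) 1 (4 / e / m) := by
    refine (tr_cls hη0 (by linarith) _ _).mono ?_
    rw [div_div, hη, div_le_div_iff₀ (by positivity) (by positivity)]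
    nlinarith
  refine (hmain m hm0 (by linarith) U G β₁ β₂ le_rfl hloc _ hcls ?_ ((1 + 2 * e) * δ) (by rw [hm]; nlinarith) O hO hne
    hOG).trans' (ENNReal.ofReal_le_ofReal ?_) |>.trans (dimH_mono ?_)
  · have := tr_var_ge hη0 (by linarith) (-(1 / 2))
    linarith
  · have hlb : 0 < Real.log β₁ := Real.log_pos hb1
    have h14 : 0 < 1 - 4 * e := by linarith
    have h1 : (1 + e) * m ^ 2 / (2 * ((1 - 4 * e) / 4) * Real.log β₁) ≤ (2 + ε) / Real.log x₀ * δ ^ 2 := by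
      have h2 : (1 + e) * m ^ 2 / (2 * ((1 - 4 * e) / 4) * Real.log β₁) =
          2 * (1 + e) * (1 + 3 * e) ^ 2 / ((1 - 4 * e) * Real.log β₁) * δ ^ 2 := by
        rw [hm]; field_simp; ring
      rw [h2]
      apply mul_le_mul_of_nonneg_right _ (sq_nonneg δ)
      rw [div_le_div_iff₀ (by positivity) hlx]
      have h3 : ε = 64 * e := by rw [he]; ring
      have h4 : (2 + ε) * ((1 - 4 * e) * ((1 - e) * Real.log x₀)) ≤ (2 + ε) * ((1 - 4 * e) * Real.log β₁) := by gcongr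
      have h5 : 2 * (1 + e) * (1 + 3 * e) ^ 2 ≤ (2 + ε) * ((1 - 4 * e) * (1 - e)) := by
        rw [h3]
        nlinarith [mul_pos he0 he0, mul_pos (mul_pos he0 he0) he0]
      calc 2 * (1 + e) * (1 + 3 * e) ^ 2 * Real.log x₀ ≤ (2 + ε) * ((1 - 4 * e) * (1 - e)) * Real.log x₀ := by gcongr
        _ = (2 + ε) * ((1 - 4 * e) * ((1 - e) * Real.log x₀)) := by ring
        _ ≤ _ := h4
    linarith
  · rintro x ⟨hxO, hx⟩
    refine ⟨hxO, liminf_of_event (fun N => disc_bdd (fun n => U n x) N) ?_⟩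
    filter_upwards [hx, eventually_ge_atTop 1] with N hN hN1
    have h1 := disc_ge hη0 hη1 (fun n => U n x) N hN1
    have hNpos : (0 : ℝ) < N := by exact_mod_cast hN1
    have h2 : (1 + 2 * e) * δ ≤ (∑ n ∈ Finset.range N, tr η (1 / 2) (-(1 / 2)) (U n x)) / N := by
      rw [le_div_iff₀ hNpos]
      exact hN
    have h3 : δ ≤ (1 + 2 * e) * δ - η := by rw [hη]; nlinarith
    linarith

/-- normalisation of a Lipschitz function -/
theorem norm_cls {φ : ℝ → ℝ} {K : ℝ} (hper : ∀ t, φ (t + 1) = φ t) (hlip : ∀ s t, |φ s - φ t| ≤ K * |s - t|)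
    (hmean : ∫ t in (0 : ℝ)..1, φ t = 0) : ∃ B : ℝ, 0 < B ∧ (∀ t, |φ t| ≤ B) ∧ Cls (fun t => φ t / B) 1 1 := by
  have hK : 0 ≤ K := by
    have h1 := hlip 1 0
    have h2 : |φ 1 - φ 0| = 0 := by
      have := hper 0
      rw [zero_add] at this
      rw [this, sub_self, abs_zero]
    rw [h2] at h1
    simpa using h1
  set B := |φ 0| + K + 1 with hB
  have hB0 : 0 < B := by positivity
  have hbd : ∀ t, |φ t| ≤ B := by
    intro t
    have hp : Function.Periodic φ 1 := hper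
    have h1 : φ t = φ (Int.fract t) := by
      have := hp.sub_int_mul_eq (x := t) ⌊t⌋
      rw [mul_one] at this
      rw [← this, Int.self_sub_floor]
    have h2 := hlip (Int.fract t) 0
    rw [sub_zero, abs_of_nonneg (Int.fract_nonneg t)] at h2
    have h3 : K * Int.fract t ≤ K * 1 := by gcongr; exact (Int.fract_lt_one t).le
    have h4 : |φ (Int.fract t)| ≤ |φ (Int.fract t) - φ 0| + |φ 0| := by
      have := abs_add_le (φ (Int.fract t) - φ 0) (φ 0)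
      simpa using this
    rw [h1]
    linarith
  refine ⟨B, hB0, hbd, lip_cls le_rfl (fun t => by rw [hper t]) (fun t => ?_) (fun s t => ?_) ?_⟩
  · rw [abs_div, abs_of_pos hB0, div_le_one hB0]
    exact hbd t
  · rw [← sub_div, abs_div, abs_of_pos hB0, div_le_iff₀ hB0]
    refine (hlip s t).trans ?_
    have h1 : K ≤ B := by
      have := abs_nonneg (φ 0)
      linarith
    calc K * |s - t| ≤ B * |s - t| := by gcongr
      _ = _ := by ring
  · rw [intervalIntegral.integral_div, hmean, zero_div]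

theorem sq_norm {φ : ℝ → ℝ} {B : ℝ} : (∫ t in (0 : ℝ)..1, (φ t / B) ^ 2) = (∫ t in (0 : ℝ)..1, φ t ^ 2) / B ^ 2 := by
  rw [← intervalIntegral.integral_div]
  refine intervalIntegral.integral_congr fun t _ => ?_
  simp only [div_pow]

theorem S_div (φ : ℝ → ℝ) (B : ℝ) (U : ℕ → ℝ → ℝ) (N : ℕ) (x : ℝ) : S (fun t => φ t / B) U N x = S φ U N x / B := by
  unfold S
  rw [Finset.sum_div]

/-- upper bound for the means of a Lipschitz function -/
theorem mean_upper {x₀ : ℝ} (hx₀ : 1 < x₀) (hirr : ∀ d : ℕ, 1 ≤ d → Irrational (x₀ ^ d)) {φ : ℝ → ℝ} {K : ℝ}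
    (hper : ∀ t, φ (t + 1) = φ t) (hlip : ∀ s t, |φ s - φ t| ≤ K * |s - t|) (hmean : ∫ t in (0 : ℝ)..1, φ t = 0)
    {σ : ℝ} (hσ : ∫ t in (0 : ℝ)..1, φ t ^ 2 = σ) (hσ0 : 0 < σ) {ε : ℝ} (hε : 0 < ε) (hε1 : ε ≤ 1) :
    ∃ (D : ℕ) (τ β₁ β₂ δ₀ : ℝ), 0 < τ ∧ 1 < β₁ ∧ β₁ < x₀ ∧ x₀ < β₂ ∧ 0 < δ₀ ∧ ∀ δ : ℝ, 0 < δ → δ ≤ δ₀ →
      ∀ (U : ℕ → ℝ → ℝ) (G : Set ℝ), LocFam U G (fun d => x₀ ^ d) D τ β₁ β₂ →
      dimH {x | x ∈ G ∧ δ ≤ limsup (fun N : ℕ => (∑ n ∈ Finset.range N, φ (U n x)) / N) atTop} ≤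
        ENNReal.ofReal (1 - (1 - ε) / (2 * σ * Real.log x₀) * δ ^ 2) := by
  set e := ε / 8 with he
  have he0 : 0 < e := by positivity
  have he1 : e ≤ 1 / 8 := by rw [he]; linarith
  have hlx := Real.log_pos hx₀
  obtain ⟨B, hB, hbd, hcls⟩ := norm_cls hper hlip hmean
  obtain ⟨β₁, β₂, hb1, hb2, hb3, hb4, hb5⟩ := choose_bases hx₀ he0 (by linarith)
  have hs1 : σ / B ^ 2 ≤ 1 := by
    have := sq_int_le hcls
    rwa [sq_norm, hσ] at this
  obtain ⟨D, τ, δ₁, hτ, hδ₁, hδ₁1, hmain⟩ := loc_upper hirr (β := β₁) (V := 1) (K₀ := 1) (s := σ / B ^ 2) (ε := e) hb1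
    zero_le_one le_rfl (by positivity) hs1 he0 (by linarith)
  refine ⟨D, τ, β₁, β₂, δ₁ * B, hτ, hb1, hb2, hb3, by positivity, fun δ hδ hδδ U G hloc => ?_⟩
  set m := (1 - 2 * e) * (δ / B) with hm
  have h12 : 0 < 1 - 2 * e := by linarith
  have hm0 : 0 < m := by positivity
  have hδB : δ / B ≤ δ₁ := by rw [div_le_iff₀ hB]; exact hδδ
  have hδB0 : 0 < δ / B := by positivity
  have hmδ : m ≤ δ₁ := by rw [hm]; nlinarith
  have hcls' : Cls (fun t => φ t / B) 1 (1 / m) := hcls.mono (by rw [le_div_iff₀ hm0]; linarith)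
  have hfin := hmain m hm0 hmδ U G β₁ β₂ le_rfl hloc _ hcls' (by rw [sq_norm, hσ]) ((1 - e) * (δ / B))
    (by rw [hm]; nlinarith)
  refine (dimH_mono ?_).trans (hfin.trans (ENNReal.ofReal_le_ofReal ?_))
  · rintro x ⟨hxG, hx⟩
    refine ⟨hxG, ?_⟩
    have hbdd : ∀ N : ℕ, |(∑ n ∈ Finset.range N, φ (U n x)) / N| ≤ B := by
      intro N
      rcases Nat.eq_zero_or_pos N with h | h
      · subst h; simp [hB.le]
      · rw [abs_div, Nat.abs_cast, div_le_iff₀ (by exact_mod_cast h)]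
        refine (Finset.abs_sum_le_sum_abs _ _).trans ((Finset.sum_le_sum fun n _ => hbd _).trans ?_)
        rw [Finset.sum_const, Finset.card_range, nsmul_eq_mul, mul_comm]
    have h1 := freq_of_limsup (δ' := (1 - e) * δ) hbdd hx (by nlinarith)
    refine (h1.and_eventually (eventually_ge_atTop 1)).mono ?_
    rintro N ⟨hN, hN1⟩
    have hNpos : (0 : ℝ) < N := by exact_mod_cast hN1
    rw [S_div, le_div_iff₀ hB]
    rw [lt_div_iff₀ hNpos] at hN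
    have h2 : (1 - e) * (δ / B) * N * B = (1 - e) * δ * N := by field_simp
    rw [h2]
    exact hN.le
  · have hlb : 0 < Real.log β₂ := Real.log_pos (by linarith)
    have h1 : (1 - e) * m ^ 2 / (2 * (σ / B ^ 2) * Real.log β₂) = (1 - e) * (1 - 2 * e) ^ 2 / (2 * σ * Real.log β₂) * δ ^ 2 := by
      rw [hm]; field_simp
    have h2 : (1 - ε) / (2 * σ * Real.log x₀) * δ ^ 2 ≤ (1 - e) * (1 - 2 * e) ^ 2 / (2 * σ * Real.log β₂) * δ ^ 2 := by
      apply mul_le_mul_of_nonneg_right _ (sq_nonneg δ)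
      rw [div_le_div_iff₀ (by positivity) (by positivity)]
      have h3 : ε = 8 * e := by rw [he]; ring
      have h4 : (1 - ε) * (2 * σ * Real.log β₂) ≤ (1 - ε) * (2 * σ * ((1 + e) * Real.log x₀)) := by
        apply mul_le_mul_of_nonneg_left _ (by linarith)
        gcongr
      have h5 : (1 - ε) * (1 + e) ≤ (1 - e) * (1 - 2 * e) ^ 2 := by
        rw [h3]
        nlinarith [mul_pos he0 he0, mul_pos (mul_pos he0 he0) he0]
      calc (1 - ε) * (2 * σ * Real.log β₂) ≤ ((1 - ε) * (1 + e)) * (2 * σ * Real.log x₀) := by linarith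
        _ ≤ _ := by gcongr
    rw [h1]
    linarith

/-- lower bound for the means of a Lipschitz function -/
theorem mean_lower {x₀ : ℝ} (hx₀ : 1 < x₀) (hirr : ∀ d : ℕ, 1 ≤ d → Irrational (x₀ ^ d)) {φ : ℝ → ℝ} {K : ℝ}
    (hper : ∀ t, φ (t + 1) = φ t) (hlip : ∀ s t, |φ s - φ t| ≤ K * |s - t|) (hmean : ∫ t in (0 : ℝ)..1, φ t = 0)
    {σ : ℝ} (hσ : ∫ t in (0 : ℝ)..1, φ t ^ 2 = σ) (hσ0 : 0 < σ) {ε : ℝ} (hε : 0 < ε) (hε1 : ε ≤ 1) :
    ∃ (D : ℕ) (τ β₁ β₂ δ₀ : ℝ), 0 < τ ∧ 1 < β₁ ∧ β₁ < x₀ ∧ x₀ < β₂ ∧ 0 < δ₀ ∧ ∀ δ : ℝ, 0 < δ → δ ≤ δ₀ →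
      ∀ (U : ℕ → ℝ → ℝ) (G : Set ℝ), LocFam U G (fun d => x₀ ^ d) D τ β₁ β₂ → ∀ O : Set ℝ, IsOpen O → O.Nonempty → O ⊆ G →
      ENNReal.ofReal (1 - (1 + ε) / (2 * σ * Real.log x₀) * δ ^ 2) ≤
      dimH {x | x ∈ O ∧ δ ≤ liminf (fun N : ℕ => (∑ n ∈ Finset.range N, φ (U n x)) / N) atTop} := by
  set e := ε / 8 with he
  have he0 : 0 < e := by positivity
  have he1 : e ≤ 1 / 8 := by rw [he]; linarith
  have hlx := Real.log_pos hx₀
  obtain ⟨B, hB, hbd, hcls⟩ := norm_cls hper hlip hmean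
  obtain ⟨β₁, β₂, hb1, hb2, hb3, hb4, hb5⟩ := choose_bases hx₀ he0 (by linarith)
  have hs1 : σ / B ^ 2 ≤ 1 := by
    have := sq_int_le hcls
    rwa [sq_norm, hσ] at this
  obtain ⟨D, τ, δ₁, hτ, hδ₁, hδ₁1, hmain⟩ := loc_lower hirr (β := β₁) (V := 1) (K₀ := 1) (s := σ / B ^ 2) (ε := e) hb1
    zero_le_one le_rfl (by positivity) hs1 he0 (by linarith)
  refine ⟨D, τ, β₁, β₂, δ₁ * B / 2, hτ, hb1, hb2, hb3, by positivity, fun δ hδ hδδ U G hloc O hO hne hOG => ?_⟩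
  set m := (1 + e) * (δ / B) with hm
  have hm0 : 0 < m := by positivity
  have hδB : δ / B ≤ δ₁ / 2 := by rw [div_le_iff₀ hB]; linarith
  have hδB0 : 0 < δ / B := by positivity
  have hmδ : m ≤ δ₁ := by rw [hm]; nlinarith
  have hcls' : Cls (fun t => φ t / B) 1 (1 / m) := hcls.mono (by rw [le_div_iff₀ hm0]; linarith)
  have hfin := hmain m hm0 hmδ U G β₁ β₂ le_rfl hloc _ hcls' (by rw [sq_norm, hσ]) (δ / B)
    (by rw [hm]; nlinarith) O hO hne hOG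
  refine (ENNReal.ofReal_le_ofReal ?_).trans (hfin.trans (dimH_mono ?_))
  · have hlb : 0 < Real.log β₁ := Real.log_pos hb1
    have h1 : (1 + e) * m ^ 2 / (2 * (σ / B ^ 2) * Real.log β₁) = (1 + e) * (1 + e) ^ 2 / (2 * σ * Real.log β₁) * δ ^ 2 := by
      rw [hm]; field_simp
    have h2 : (1 + e) * (1 + e) ^ 2 / (2 * σ * Real.log β₁) * δ ^ 2 ≤ (1 + ε) / (2 * σ * Real.log x₀) * δ ^ 2 := by
      apply mul_le_mul_of_nonneg_right _ (sq_nonneg δ)
      rw [div_le_div_iff₀ (by positivity) (by positivity)]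
      have h3 : ε = 8 * e := by rw [he]; ring
      have h4 : (1 + ε) * (2 * σ * ((1 - e) * Real.log x₀)) ≤ (1 + ε) * (2 * σ * Real.log β₁) := by gcongr
      have h5 : (1 + e) * (1 + e) ^ 2 ≤ (1 + ε) * (1 - e) := by
        rw [h3]
        nlinarith [mul_pos he0 he0, mul_pos (mul_pos he0 he0) he0]
      calc (1 + e) * (1 + e) ^ 2 * (2 * σ * Real.log x₀) ≤ ((1 + ε) * (1 - e)) * (2 * σ * Real.log x₀) := by gcongr
        _ ≤ _ := by linarith
    rw [h1]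
    linarith
  · rintro x ⟨hxO, hx⟩
    have hbdd : ∀ N : ℕ, |(∑ n ∈ Finset.range N, φ (U n x)) / N| ≤ B := by
      intro N
      rcases Nat.eq_zero_or_pos N with h | h
      · subst h; simp [hB.le]
      · rw [abs_div, Nat.abs_cast, div_le_iff₀ (by exact_mod_cast h)]
        refine (Finset.abs_sum_le_sum_abs _ _).trans ((Finset.sum_le_sum fun n _ => hbd _).trans ?_)
        rw [Finset.sum_const, Finset.card_range, nsmul_eq_mul, mul_comm]
    refine ⟨hxO, liminf_of_event hbdd ?_⟩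
    filter_upwards [hx, eventually_ge_atTop 1] with N hN hN1
    have hNpos : (0 : ℝ) < N := by exact_mod_cast hN1
    rw [S_div, le_div_iff₀ hB] at hN
    rw [le_div_iff₀ hNpos]
    have h2 : (δ / B) * N * B = δ * N := by field_simp
    rw [h2] at hN
    exact hN

end Pool.Agent.Helper78.KD
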