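import Pool.Agent.Helper78.KD.Dev

/-!
# Dimension of the deviation sets of a family
-/

set_option autoImplicit false

namespace Pool.Agent.Helper78.KD

open MeasureTheory Set Filter Topology
open Pool.Agent.Helper41.KD (Mv_add Mv_osc)
open Pool.Agent.Helper18.KD (lower_tree)
open Pool.Agent.Helper53.KD (exists_tree size)

theorem log_sq_le {y : ℝ} (hy : 1 ≤ y) : (1 + Real.log y) ^ 2 ≤ 16 * Real.sqrt y := by
  set w := Real.sqrt (Real.sqrt y) with hw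
  have hy0 : 0 ≤ y := by linarith
  have h1 : w ^ 2 = Real.sqrt y := Real.sq_sqrt (Real.sqrt_nonneg y)
  have h2 : Real.sqrt y ^ 2 = y := Real.sq_sqrt hy0
  have hw1 : 1 ≤ w := by
    rw [hw, Real.one_le_sqrt, Real.one_le_sqrt]
    exact hy
  have h3 : y = w ^ 4 := by rw [← h2, ← h1]; ring
  have h4 : Real.log y = 4 * Real.log w := by
    rw [h3, Real.log_pow]
    norm_num
  have h5 := Real.log_le_sub_one_of_pos (lt_of_lt_of_le one_pos hw1)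
  have h6 := Real.log_nonneg hw1
  rw [← h1, h4]
  nlinarith

theorem choose_L {c D K₀ : ℝ} (hc : 0 < c) (hD : 0 < D) (hK₀ : 1 ≤ K₀) (L₀ : ℕ) : ∃ δ₀ : ℝ, 0 < δ₀ ∧ δ₀ ≤ 1 ∧
    ∀ m : ℝ, 0 < m → m ≤ δ₀ → ∃ L : ℕ, L₀ ≤ L ∧ 1 ≤ L ∧ L * m ≤ c ∧ D * (1 + Real.log (K₀ / m)) ^ 2 ≤ L := by
  have hK0 : 0 < K₀ := by linarith
  refine ⟨min (min 1 (c / 4)) (min (c / (2 * (L₀ + 1))) (c ^ 2 / (64 ^ 2 * D ^ 2 * K₀))), ?_, ?_, ?_⟩
  · have h1 : (0 : ℝ) < L₀ + 1 := by positivity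
    positivity
  · exact (min_le_left _ _).trans (min_le_left _ _)
  intro m hm hmδ
  have h1 : m ≤ 1 := hmδ.trans ((min_le_left _ _).trans (min_le_left _ _))
  have h2 : m ≤ c / 4 := hmδ.trans ((min_le_left _ _).trans (min_le_right _ _))
  have h3 : m ≤ c / (2 * (L₀ + 1)) := hmδ.trans ((min_le_right _ _).trans (min_le_left _ _))
  have h4 : m ≤ c ^ 2 / (64 ^ 2 * D ^ 2 * K₀) := hmδ.trans ((min_le_right _ _).trans (min_le_right _ _))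
  set L := ⌊c / m⌋₊ with hL
  have hL1 : (L : ℝ) ≤ c / m := Nat.floor_le (by positivity)
  have hL2 : c / m - 1 ≤ L := by
    have := Nat.lt_floor_add_one (c / m)
    rw [← hL] at this
    linarith
  have hcm4 : 4 ≤ c / m := by rw [le_div_iff₀ hm]; linarith
  have hL3 : c / m / 2 ≤ L := by linarith
  refine ⟨L, ?_, ?_, ?_, ?_⟩
  · have h5 : (L₀ : ℝ) + 1 ≤ c / m / 2 := by
      rw [le_div_iff₀ (by positivity)] at h3
      rw [le_div_iff₀ two_pos, le_div_iff₀ hm]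
      linarith
    have h6 : (L₀ : ℝ) ≤ L := by linarith
    exact_mod_cast h6
  · have h6 : (1 : ℝ) ≤ L := by linarith
    exact_mod_cast h6
  · calc (L : ℝ) * m ≤ c / m * m := by gcongr
      _ = c := by field_simp
  · have hy : 1 ≤ K₀ / m := by rw [le_div_iff₀ hm]; linarith
    have h5 := log_sq_le hy
    have h6 : 16 * D * Real.sqrt (K₀ / m) ≤ c / m / 2 := by
      have h7 : Real.sqrt (K₀ / m) ≤ c / (m * (32 * D)) := by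
        rw [Real.sqrt_le_left (by positivity), div_pow, div_le_div_iff₀ hm (by positivity)]
        rw [le_div_iff₀ (by positivity)] at h4
        have h8 : m * (64 ^ 2 * D ^ 2 * K₀) = 4 * (m * (32 * D) ^ 2 * K₀) := by ring
        rw [h8] at h4
        have h9 : 0 ≤ m * (32 * D) ^ 2 * K₀ := by positivity
        nlinarith
      calc 16 * D * Real.sqrt (K₀ / m) ≤ 16 * D * (c / (m * (32 * D))) := by gcongr
        _ = c / m / 2 := by field_simp; ring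
    calc D * (1 + Real.log (K₀ / m)) ^ 2 ≤ D * (16 * Real.sqrt (K₀ / m)) := by gcongr
      _ = 16 * D * Real.sqrt (K₀ / m) := by ring
      _ ≤ L := h6.trans hL3

theorem S_diff {X : ℕ → ℝ → ℝ} {M N : ℕ} (h : M ≤ N) {x : ℝ} (hX : ∀ n, |X n x| ≤ 1) :
    |SX X N x - SX X M x| ≤ N - M := by
  have h1 : SX X N x - SX X M x = ∑ n ∈ Finset.Ico M N, X n x := by
    rw [SX, SX, Finset.sum_Ico_eq_sub _ h]
  rw [h1]
  refine (Finset.abs_sum_le_sum_abs _ _).trans ((Finset.sum_le_sum fun n _ => hX n).trans ?_)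
  rw [Finset.sum_const, Nat.card_Ico, nsmul_eq_mul, mul_one, Nat.cast_sub h]

/-- comparison of the sums with the averages -/
theorem S_MM {u : ℕ → ℝ → ℝ} {a b : ℝ} {T : Tr} {L : ℕ} {X : ℕ → ℝ → ℝ} {M : ℝ → ℝ → ℝ} {O : ℝ}
    (hT : FT T u a b L) (hX : Obs u a b X M O) (hOL : O ≤ L) {k i : ℕ} (hi : i < T.N k) {x : ℝ} (hx : x ∈ T.cell k i)
    {N : ℕ} (hkN : k * L ≤ N) (hNk : N ≤ (k + 1) * L) : |SX X N x - MM M T k i| ≤ 2 * L := by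
  have h1 := hX.osc (k * L) _ _ (hT.mem k i hi.le).1 (T.lt k i hi) (hT.mem k (i + 1) hi).2 (hT.inc k i hi).1
    (hT.inc k i hi).2 x hx
  have hxab : x ∈ Icc a b := ⟨(hT.mem k i hi.le).1.trans hx.1, hx.2.trans (hT.mem k (i + 1) hi).2⟩
  have h2 := S_diff hkN fun n => hX.bd n x hxab
  have h3 : (N : ℝ) - (k * L : ℕ) ≤ L := by
    have : (N : ℝ) ≤ ((k + 1) * L : ℕ) := by exact_mod_cast hNk
    push_cast at this ⊢
    linarith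
  have h4 : SX X N x - MM M T k i = (SX X N x - SX X (k * L) x) +
      (SX X (k * L) x - M (T.t k i) (T.t k (i + 1))) := by unfold MM; ring
  rw [h4]
  refine (abs_add_le _ _).trans ?_
  linarith

/-! elementary inequalities, kept apart for speed -/

theorem ax_sq {z : ℝ} (h0 : 0 ≤ z) (h1 : z ≤ 1) : z ^ 2 ≤ 1 := pow_le_one₀ h0 h1

theorem ax_O {C l : ℝ} (hC : 1 ≤ C) (hl : 0 ≤ l) : 1 ≤ C * (1 + l) := by nlinarith

theorem ax_OL {O E L : ℝ} (hO : 1 ≤ O) (hE : E ≤ 1) (hL : 1 ≤ L) (h : 384 * O ^ 2 ≤ E * L) : O ≤ L := by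
  have h1 : E * L ≤ 1 * L := mul_le_mul_of_nonneg_right hE (by linarith)
  nlinarith

theorem ax_one {ε m : ℝ} (h0 : 0 ≤ ε) (hm : 0 < m) (hm1 : m ≤ 1) : (1 - ε) * m ^ 2 ≤ 1 * m := by
  have h1 : m ^ 2 ≤ m := by nlinarith
  have h2 : 0 ≤ m ^ 2 := sq_nonneg m
  nlinarith

theorem ax_four {ε : ℝ} (h0 : 0 < ε) (h1 : ε ≤ 1) : 1 - ε < (1 - ε / 8) ^ 2 * (1 - ε / 4) := by
  have h7 : 1 - ε / 4 ≤ (1 - ε / 8) ^ 2 := by nlinarith [sq_nonneg ε]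
  have h8 : 0 ≤ 1 - ε / 4 := by linarith
  have h9 : (1 - ε / 4) * (1 - ε / 4) ≤ (1 - ε / 8) ^ 2 * (1 - ε / 4) := mul_le_mul_of_nonneg_right h7 h8
  nlinarith [sq_nonneg ε]

theorem ax_32 {η m : ℝ} (h1 : η ≤ 1 / 16) (hm : 0 < m) : (1 + η) * m ≤ 3 / 2 * (1 - η) * m := by
  have h2 : 1 + η ≤ 3 / 2 * (1 - η) := by linarith
  exact mul_le_mul_of_nonneg_right h2 hm.le

theorem ax_cube {η : ℝ} (h0 : 0 < η) (h1 : η ≤ 1 / 16) : (1 + 3 * η) * (1 + η) ^ 2 ≤ (1 + 16 * η) * (1 - η) ^ 2 := by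
  nlinarith [mul_pos h0 h0, mul_pos (mul_pos h0 h0) h0]

theorem ax_up {η m k L N S M : ℝ} (hL : 0 ≤ L) (h2 : m * (k * L) ≤ m * N) (h3 : 2 ≤ k * (η * m)) (hS : m * N ≤ S)
    (h5 : S - M ≤ 2 * L) : (1 - η) * m * L * k ≤ M := by
  have h7 : 2 * L ≤ k * (η * m) * L := mul_le_mul_of_nonneg_right h3 hL
  nlinarith

theorem ax_lo {η m k L N S M M0 A : ℝ} (hL : 0 ≤ L) (hm : 0 ≤ m) (hm1 : m ≤ 1) (h3 : 3 * L + A ≤ k * (η * m * L))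
    (hMi : M0 + (1 + η) * m * L * k ≤ M) (h5 : -(2 * L) ≤ S - M) (h7 : N ≤ (k + 1) * L) (h8 : -A ≤ M0) : m * N ≤ S := by
  have h9 : m * N ≤ m * ((k + 1) * L) := mul_le_mul_of_nonneg_left h7 hm
  have h10 : m * L ≤ 1 * L := mul_le_mul_of_nonneg_right hm1 hL
  nlinarith

theorem ax_neg {s Q η z : ℝ} (hs : 0 < s) (hη : 0 < η) (hsQ : s ≤ Q) (h2 : z ≤ 3) : s * η ^ 2 / 8 * z - Q * η ^ 2 < 0 := by
  have h3 : s * η ^ 2 ≤ Q * η ^ 2 := mul_le_mul_of_nonneg_right hsQ (sq_nonneg η)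
  have h4 : 0 < s * η ^ 2 := by positivity
  have h5 : s * η ^ 2 / 8 * z ≤ s * η ^ 2 / 8 * 3 := mul_le_mul_of_nonneg_left h2 (by positivity)
  linarith

theorem ax_q {s Q η : ℝ} (hs : 0 < s) (hη : 0 < η) (hη1 : η ≤ 1 / 16) (hsQ : s ≤ Q) : s * η ^ 2 / 8 ≤ Q * η := by
  have h1 : s * η ≤ Q * η := mul_le_mul_of_nonneg_right hsQ hη.le
  have h2 : η ^ 2 ≤ η := by nlinarith
  have h3 : s * η ^ 2 ≤ s * η := mul_le_mul_of_nonneg_left h2 hs.le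
  nlinarith

theorem ax_eps {s ε : ℝ} (hs1 : s ≤ 1) (hε : 0 < ε) (hε1 : ε ≤ 1) : s * ε / 16 ≤ 1 / 16 := by nlinarith

theorem ax_eps2 {s z : ℝ} (hs1 : s ≤ 1) (hz0 : 0 ≤ z) (hz : z ≤ 1) : s * z / 32 ≤ 1 / 32 := by nlinarith

theorem ax_th {η θ : ℝ} (hη : 0 < η) (hη1 : η ≤ 1 / 16) (hθ : 0 < θ) : θ + η * θ ≤ 2 * θ ∧ 0 < θ - η * θ ∧ θ - η * θ ≤ 2 * θ := by
  refine ⟨by nlinarith, by nlinarith, by nlinarith⟩

theorem ax_plus {η : ℝ} (hη : 0 < η) (hη1 : η ≤ 1 / 16) : (1 + η) ^ 2 + 1 ≤ 3 ∧ (1 - η) ^ 2 + 1 ≤ 3 := by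
  refine ⟨by nlinarith, by nlinarith⟩

theorem ax_hlt {a b z : ℝ} (h5 : 0 < z) (h6 : a < b) : -(b * z) + a * z < 0 := by nlinarith

theorem exp_size {β : ℝ} {k L : ℕ} : Real.exp (-((k * L : ℕ) * Real.log β)) = Real.exp (-(k * (L * Real.log β))) := by
  push_cast
  congr 1
  ring

theorem dev_upper_gen {β K₀ s ε C : ℝ} (hC1 : 1 ≤ C) (hβ : 1 < β) (hK₀ : 1 ≤ K₀) (hs : 0 < s) (hs1 : s ≤ 1) (hε : 0 < ε) (hε1 : ε ≤ 1) :
    ∃ ε' : ℝ, 0 < ε' ∧ ∀ L₀ : ℕ, ∃ δ₀ : ℝ, 0 < δ₀ ∧ δ₀ ≤ 1 ∧ ∀ m : ℝ, 0 < m → m ≤ δ₀ → ∃ L : ℕ, L₀ ≤ L ∧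
      ∀ (u v : ℕ → ℝ → ℝ) (a b β₁ β₂ : ℝ), β ≤ β₁ → Fam u v a b β₁ β₂ → ∀ (X : ℕ → ℝ → ℝ)
      (M : ℝ → ℝ → ℝ) (Q : ℝ), Obs u a b X M (C * (1 + Real.log (K₀ / m))) →
      0 ≤ Q → Q ≤ s → BlockVarG X u a b Q ε' L →
      dimH {x | x ∈ Icc a b ∧ ∃ᶠ N : ℕ in atTop, m * N ≤ SX X N x} ≤
        ENNReal.ofReal (1 - (1 - ε) * m ^ 2 / (2 * s * Real.log β₂)) := by
  have hlβ : 0 < Real.log β := Real.log_pos hβ
  refine ⟨s * ε / 16, by positivity, fun L₀ => ?_⟩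
  set ε' := s * ε / 16 with hε'
  have hε'0 : 0 < ε' := by positivity
  have hε'1 : ε' ≤ 1 / 16 := ax_eps hs1 hε hε1
  obtain ⟨δ₁, hδ₁, hδ₁1, hch⟩ := choose_L (c := ε' * s / 12) (D := 384 * C ^ 2 / ε' ^ 2) (by positivity)
    (by positivity) hK₀ L₀
  refine ⟨min δ₁ (2 * s * Real.log β), by positivity, (min_le_left _ _).trans hδ₁1, fun m hm hmδ => ?_⟩
  obtain ⟨L, hL0, hL1, hLm, hLD⟩ := hch m hm (hmδ.trans (min_le_left _ _))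
  have hm1 : m ≤ 1 := hmδ.trans ((min_le_left _ _).trans hδ₁1)
  refine ⟨L, hL0, fun u v a b β₁ β₂ hββ hF X M Q hX hQ0 hQs hvar => ?_⟩
  have hLr : (1 : ℝ) ≤ L := by exact_mod_cast hL1
  have hlβ₁ : 0 < Real.log β₁ := Real.log_pos hF.hβ
  have hβ₂ : 1 < β₂ := hF.hβ.trans_le hF.hβ'
  have hlβ₂ : 0 < Real.log β₂ := Real.log_pos hβ₂
  have hll : Real.log β ≤ Real.log β₂ := Real.log_le_log (by linarith) (hββ.trans hF.hβ')
  obtain ⟨T, hT0, hT1, hTm, hTc, hTi⟩ := exists_tree hF L hL1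
  have hT : FT T u a b L := ⟨hT0, hT1, hTm, hTc, hTi⟩
  obtain ⟨c₀, C₀, hc₀, hC₀, hsize⟩ := size hF
  set O := C * (1 + Real.log (K₀ / m)) with hO
  have hKm : 1 ≤ K₀ / m := by rw [le_div_iff₀ hm]; linarith
  have hO1 : 1 ≤ O := ax_O hC1 (Real.log_nonneg hKm)
  have hOL : 384 * O ^ 2 ≤ ε' ^ 2 * L := by
    have h1 : 384 * C ^ 2 / ε' ^ 2 * (1 + Real.log (K₀ / m)) ^ 2 * ε' ^ 2 = 384 * O ^ 2 := by
      rw [hO]; field_simp
    rw [← h1, mul_comm (ε' ^ 2)]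
    gcongr
  have hOL' : O ≤ L := ax_OL hO1 (ax_sq hε'0.le (by linarith)) hLr hOL
  set η := ε / 8 with hη
  set θ := (1 - η) * m / s with hθ
  have hη1 : 0 < 1 - η := by rw [hη]; linarith
  have hθ0 : 0 < θ := by positivity
  have hθL : |θ| * (12 * L) ≤ ε' := by
    rw [abs_of_pos hθ0]
    have h1 : θ ≤ m / s := by
      rw [hθ]
      apply div_le_div_of_nonneg_right _ hs.le
      exact mul_le_of_le_one_left hm.le (by linarith)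
    calc θ * (12 * L) ≤ m / s * (12 * L) := by gcongr
      _ = 12 * (L * m) / s := by ring
      _ ≤ 12 * (ε' * s / 12) / s := by gcongr
      _ = ε' := by field_simp
  have hmgf := (MM_mgf hT hX hε'0 (by linarith) hQ0 (hQs.trans hs1) hO1 hOL hvar hθL).2
  set sd := 1 - (1 - ε) * m ^ 2 / (2 * s * Real.log β₂) with hsd
  have hfr0 : 0 ≤ (1 - ε) * m ^ 2 / (2 * s * Real.log β₂) := by
    have : 0 ≤ 1 - ε := by linarith
    positivity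
  have hfr1 : (1 - ε) * m ^ 2 / (2 * s * Real.log β₂) ≤ 1 := by
    rw [div_le_one (by positivity)]
    have h1 : m ≤ 2 * s * Real.log β := hmδ.trans (min_le_right _ _)
    have h2 : (1 - ε) * m ^ 2 ≤ 1 * m := ax_one hε.le hm hm1
    have h3 : 2 * s * Real.log β ≤ 2 * s * Real.log β₂ := by gcongr
    linarith
  have hup := upper_tree T (MM M T) (θ := θ) (Λ := (Q + 4 * ε') * θ ^ 2 * L / 2) (h := (1 - η) * m * L) (s := sd)
    (ℓ₁ := L * Real.log β₁) (ℓ₂ := L * Real.log β₂) (c := c₀) (C := C₀) hθ0 (by rw [hsd]; linarith)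
    (by rw [hsd]; linarith) (by positivity) hc₀ hC₀ (fun k i hi => by
      have h1 := (hsize (k * L) _ (hT.mem k i hi.le) _ (hT.mem k (i + 1) hi) (T.lt k i hi) (hT.inc k i hi).1
        (hT.inc k i hi).2).1
      rw [exp_size] at h1
      exact h1) (fun k i hi => by
      have h1 := (hsize (k * L) _ (hT.mem k i hi.le) _ (hT.mem k (i + 1) hi) (T.lt k i hi) (hT.inc k i hi).1
        (hT.inc k i hi).2).2
      rw [exp_size] at h1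
      exact h1) hmgf ?_
  · refine le_trans (dimH_mono ?_) hup
    rintro x ⟨hx, hfr⟩
    rw [mem_ofPred_eq, frequently_atTop]
    intro k₀
    obtain ⟨k₁, hk₁⟩ := exists_nat_gt (2 / (η * m))
    have hη0 : 0 < η := by positivity
    obtain ⟨N, hN, hSN⟩ := (frequently_atTop.1 hfr) ((max k₀ k₁) * L)
    have hkN : (N / L) * L ≤ N := Nat.div_mul_le_self N L
    have hNk : N ≤ (N / L + 1) * L := by
      have := Nat.lt_div_mul_add (a := N) (b := L) (by omega)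
      rw [Nat.add_mul]
      omega
    have hk : max k₀ k₁ ≤ N / L := (Nat.le_div_iff_mul_le (by omega)).2 hN
    obtain ⟨i, hi, hxi⟩ := hTc x hx (N / L)
    refine ⟨N / L, (le_max_left _ _).trans hk, i, hi, hxi, ?_⟩
    have h1 := S_MM hT hX hOL' hi hxi hkN hNk
    have h2 : m * ((N / L : ℕ) * L) ≤ m * N := by
      have : (((N / L : ℕ) * L : ℕ) : ℝ) ≤ N := by exact_mod_cast hkN
      push_cast at this ⊢
      gcongr
    have h3 : 2 / (η * m) ≤ (N / L : ℕ) := by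
      have h4 : (k₁ : ℝ) ≤ (N / L : ℕ) := by exact_mod_cast (le_max_right _ _).trans hk
      linarith
    rw [div_le_iff₀ (by positivity)] at h3
    exact ax_up (by linarith) h2 h3 hSN (abs_le.1 h1).2
  · have h1 : (1 - sd) * (L * Real.log β₂) = (1 - ε) * m ^ 2 * L / (2 * s) := by
      rw [hsd]; field_simp; ring
    rw [h1]
    have h2 : (Q + 4 * ε') * θ ^ 2 * L / 2 ≤ (s + 4 * ε') * θ ^ 2 * L / 2 := by gcongr
    have h3 : (s + 4 * ε') * θ ^ 2 * L / 2 - θ * ((1 - η) * m * L) =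
        -((1 - η) ^ 2 * (1 - ε / 4) * (m ^ 2 * L / (2 * s))) := by
      rw [hθ, hε']; field_simp; ring
    have h4 : (1 - ε) * m ^ 2 * L / (2 * s) = (1 - ε) * (m ^ 2 * L / (2 * s)) := by ring
    have h5 : 0 < m ^ 2 * L / (2 * s) := by positivity
    have h6 : 1 - ε < (1 - η) ^ 2 * (1 - ε / 4) := ax_four hε hε1
    rw [h4]
    have h7 := ax_hlt h5 h6
    linarith

theorem dev_lower_gen {K₀ s ε C : ℝ} (hC1 : 1 ≤ C) (hK₀ : 1 ≤ K₀) (hs : 0 < s) (hs1 : s ≤ 1) (hε : 0 < ε) (hε1 : ε ≤ 1) :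
    ∃ ε' : ℝ, 0 < ε' ∧ ∀ L₀ : ℕ, ∃ δ₀ : ℝ, 0 < δ₀ ∧ δ₀ ≤ 1 ∧ ∀ m : ℝ, 0 < m → m ≤ δ₀ → ∃ L : ℕ, L₀ ≤ L ∧
      ∀ (u v : ℕ → ℝ → ℝ) (a b β₁ β₂ : ℝ), Fam u v a b β₁ β₂ → ∀ (X : ℕ → ℝ → ℝ)
      (M : ℝ → ℝ → ℝ) (Q : ℝ), Obs u a b X M (C * (1 + Real.log (K₀ / m))) →
      s ≤ Q → Q ≤ 1 → BlockVarG X u a b Q ε' L →
      ENNReal.ofReal (1 - (1 + ε) * m ^ 2 / (2 * s * Real.log β₁)) ≤
        dimH {x | x ∈ Icc a b ∧ ∀ᶠ N : ℕ in atTop, m * N ≤ SX X N x} := by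
  set η := ε / 16 with hη
  have hη0 : 0 < η := by positivity
  have hη1 : η ≤ 1 / 16 := by rw [hη]; linarith
  refine ⟨s * η ^ 2 / 32, by positivity, fun L₀ => ?_⟩
  set ε' := s * η ^ 2 / 32 with hε'
  have hε'0 : 0 < ε' := by positivity
  have hη2 : η ^ 2 ≤ 1 := ax_sq hη0.le (by linarith)
  have hε'1 : ε' ≤ 1 / 32 := ax_eps2 hs1 (sq_nonneg η) hη2
  obtain ⟨δ₁, hδ₁, hδ₁1, hch⟩ := choose_L (c := ε' * s / 36) (D := 384 * C ^ 2 / ε' ^ 2) (by positivity)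
    (by positivity) hK₀ L₀
  refine ⟨δ₁, hδ₁, hδ₁1, fun m hm hmδ => ?_⟩
  obtain ⟨L, hL0, hL1, hLm, hLD⟩ := hch m hm hmδ
  have hm1 : m ≤ 1 := hmδ.trans hδ₁1
  refine ⟨L, hL0, fun u v a b β₁ β₂ hF X M Q hX hsQ hQ1 hvar => ?_⟩
  have hQ0 : 0 < Q := hs.trans_le hsQ
  have hLr : (1 : ℝ) ≤ L := by exact_mod_cast hL1
  have hlβ₁ : 0 < Real.log β₁ := Real.log_pos hF.hβ
  obtain ⟨T, hT0, hT1, hTm, hTc, hTi⟩ := exists_tree hF L hL1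
  have hT : FT T u a b L := ⟨hT0, hT1, hTm, hTc, hTi⟩
  obtain ⟨c₀, C₀, hc₀, hC₀, hsize⟩ := size hF
  set O := C * (1 + Real.log (K₀ / m)) with hO
  have hKm : 1 ≤ K₀ / m := by rw [le_div_iff₀ hm]; linarith
  have hO1 : 1 ≤ O := ax_O hC1 (Real.log_nonneg hKm)
  have hOL : 384 * O ^ 2 ≤ ε' ^ 2 * L := by
    have h1 : 384 * C ^ 2 / ε' ^ 2 * (1 + Real.log (K₀ / m)) ^ 2 * ε' ^ 2 = 384 * O ^ 2 := by
      rw [hO]; field_simp
    rw [← h1, mul_comm (ε' ^ 2)]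
    gcongr
  have hOL' : O ≤ L := ax_OL hO1 (ax_sq hε'0.le (by linarith)) hLr hOL
  set θ := (1 + η) * m / ((1 - η) * Q) with hθ
  have h1η : 0 < 1 - η := by linarith
  have hθ0 : 0 < θ := by positivity
  have hθm : θ ≤ 3 / 2 * (m / s) := by
    rw [hθ, div_le_iff₀ (by positivity)]
    have h1 : m = m / s * s := by field_simp
    have h2 : 0 < m / s := by positivity
    have h3 : (1 + η) * m ≤ 3 / 2 * (1 - η) * m := ax_32 hη1 hm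
    have h4 : m / s * s ≤ m / s * Q := by gcongr
    calc (1 + η) * m ≤ 3 / 2 * (1 - η) * m := h3
      _ ≤ 3 / 2 * (1 - η) * (m / s * Q) := by rw [← h1] at h4; gcongr
      _ = _ := by ring
  have hbd : ∀ z : ℝ, |z| ≤ 2 * θ → |z| * (12 * L) ≤ ε' := by
    intro z hz
    calc |z| * (12 * L) ≤ (2 * (3 / 2 * (m / s))) * (12 * L) := by gcongr; linarith
      _ = 36 * (L * m) / s := by ring
      _ ≤ 36 * (ε' * s / 36) / s := by gcongr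
      _ = ε' := by field_simp
  have hM0 := (MM_mgf hT hX hε'0 (by linarith) hQ0.le hQ1 hO1 hOL hvar (θ := θ)
    (hbd _ (by rw [abs_of_pos hθ0]; linarith))).1
  have hM1 := (MM_mgf hT hX hε'0 (by linarith) hQ0.le hQ1 hO1 hOL hvar (θ := θ + η * θ)
    (hbd _ (by rw [abs_of_pos (by positivity)]; exact (ax_th hη0 hη1 hθ0).1))).2
  have hM2 := (MM_mgf hT hX hε'0 (by linarith) hQ0.le hQ1 hO1 hOL hvar (θ := θ - η * θ)
    (hbd _ (by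
      rw [abs_of_pos (ax_th hη0 hη1 hθ0).2.1]; exact (ax_th hη0 hη1 hθ0).2.2))).2
  have hθL : 0 < θ ^ 2 * L := by positivity
  have h4ε : 4 * ε' = s * η ^ 2 / 8 := by rw [hε']; ring
  have hlow := lower_tree T (MM M T) (θ := θ) (θ₁ := η * θ) (θ₂ := η * θ) (Λ := (Q - 4 * ε') * θ ^ 2 * L / 2)
    (Λ₁ := (Q + 4 * ε') * (θ + η * θ) ^ 2 * L / 2) (Λ₂ := (Q + 4 * ε') * (θ - η * θ) ^ 2 * L / 2)
    (h₁ := (1 - η) * θ * Q * L) (h₂ := (1 + η) * θ * Q * L) (ℓ₁ := L * Real.log β₁) (C := C₀) hθ0 (by positivity)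
    (by positivity) (by positivity) hC₀ (fun k i hi => by
      have h1 := (hsize (k * L) _ (hT.mem k i hi.le) _ (hT.mem k (i + 1) hi) (T.lt k i hi) (hT.inc k i hi).1
        (hT.inc k i hi).2).2
      rw [exp_size] at h1
      exact h1) hM0 hM1 hM2 ?_ ?_ ?_
  · refine le_trans (ENNReal.ofReal_le_ofReal ?_) (hlow.trans (dimH_mono ?_))
    · have h1 : (θ * ((1 + η) * θ * Q * L) - (Q - 4 * ε') * θ ^ 2 * L / 2) / (L * Real.log β₁) =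
          θ ^ 2 * ((1 + 2 * η) * Q + 4 * ε') / (2 * Real.log β₁) := by
        field_simp
        ring
      rw [h1]
      have h2 : (1 + 2 * η) * Q + 4 * ε' ≤ (1 + 3 * η) * Q := by
        rw [h4ε]
        have : s * η ^ 2 / 8 ≤ Q * η := ax_q hs hη0 hη1 hsQ
        linarith
      have h3 : θ ^ 2 * ((1 + 2 * η) * Q + 4 * ε') / (2 * Real.log β₁) ≤
          θ ^ 2 * ((1 + 3 * η) * Q) / (2 * Real.log β₁) := by gcongr
      have h4 : θ ^ 2 * ((1 + 3 * η) * Q) / (2 * Real.log β₁) =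
          ((1 + 3 * η) * (1 + η) ^ 2 / (1 - η) ^ 2) * (m ^ 2 / (2 * Q * Real.log β₁)) := by
        rw [hθ]; field_simp
      have h5 : (1 + 3 * η) * (1 + η) ^ 2 / (1 - η) ^ 2 ≤ 1 + ε := by
        rw [div_le_iff₀ (by positivity)]
        have : ε = 16 * η := by rw [hη]; ring
        rw [this]
        exact ax_cube hη0 hη1
      have h6 : m ^ 2 / (2 * Q * Real.log β₁) ≤ m ^ 2 / (2 * s * Real.log β₁) := by gcongr
      have h7 : 0 < m ^ 2 / (2 * Q * Real.log β₁) := by positivity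
      have h8 : ((1 + 3 * η) * (1 + η) ^ 2 / (1 - η) ^ 2) * (m ^ 2 / (2 * Q * Real.log β₁)) ≤
          (1 + ε) * (m ^ 2 / (2 * s * Real.log β₁)) := by gcongr
      have h9 : (1 + ε) * m ^ 2 / (2 * s * Real.log β₁) = (1 + ε) * (m ^ 2 / (2 * s * Real.log β₁)) := by ring
      rw [h9]
      linarith
    · rintro x ⟨k₁, hk₁⟩
      have hθh : (1 - η) * θ * Q * L = (1 + η) * m * L := by rw [hθ]; field_simp
      refine ⟨?_, ?_⟩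
      · obtain ⟨i, hi, hx, _⟩ := hk₁ k₁ le_rfl
        exact ⟨(hT.mem _ _ hi.le).1.trans hx.1, hx.2.trans (hT.mem _ _ hi).2⟩
      · obtain ⟨k₂, hk₂⟩ := exists_nat_gt ((3 * L + |MM M T 0 0|) / (η * m * L))
        rw [eventually_atTop]
        refine ⟨(max k₁ k₂) * L, fun N hN => ?_⟩
        have hkN : (N / L) * L ≤ N := Nat.div_mul_le_self N L
        have hNk : N ≤ (N / L + 1) * L := by
          have := Nat.lt_div_mul_add (a := N) (b := L) (by omega)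
          rw [Nat.add_mul]
          omega
        have hk : max k₁ k₂ ≤ N / L := (Nat.le_div_iff_mul_le (by omega)).2 hN
        obtain ⟨i, hi, hxi, hMi⟩ := hk₁ (N / L) ((le_max_left _ _).trans hk)
        have h1 := S_MM hT hX hOL' hi hxi hkN hNk
        rw [hθh] at hMi
        have h3 : (3 * L + |MM M T 0 0|) / (η * m * L) ≤ (N / L : ℕ) := by
          have h4 : (k₂ : ℝ) ≤ (N / L : ℕ) := by exact_mod_cast (le_max_right _ _).trans hk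
          linarith
        rw [div_le_iff₀ (by positivity)] at h3
        have h7 : (N : ℝ) ≤ ((N / L : ℕ) + 1) * L := by exact_mod_cast hNk
        exact ax_lo (by linarith) hm.le hm1 h3 hMi (abs_le.1 h1).1 h7 (neg_abs_le (MM M T 0 0))
  · have h1 : (Q + 4 * ε') * (θ + η * θ) ^ 2 * L / 2 - (Q - 4 * ε') * θ ^ 2 * L / 2 -
        η * θ * ((1 + η) * θ * Q * L) = (θ ^ 2 * L / 2) * (4 * ε' * ((1 + η) ^ 2 + 1) - Q * η ^ 2) := by ring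
    rw [h1, h4ε]
    apply mul_neg_of_pos_of_neg (by positivity)
    exact ax_neg hs hη0 hsQ (ax_plus hη0 hη1).1
  · have h1 : (Q + 4 * ε') * (θ - η * θ) ^ 2 * L / 2 - (Q - 4 * ε') * θ ^ 2 * L / 2 +
        η * θ * ((1 - η) * θ * Q * L) = (θ ^ 2 * L / 2) * (4 * ε' * ((1 - η) ^ 2 + 1) - Q * η ^ 2) := by ring
    rw [h1, h4ε]
    apply mul_neg_of_pos_of_neg (by positivity)
    exact ax_neg hs hη0 hsQ (ax_plus hη0 hη1).2
  · have h1 : θ * ((1 + η) * θ * Q * L) - (Q - 4 * ε') * θ ^ 2 * L / 2 =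
        (θ ^ 2 * L / 2) * ((1 + 2 * η) * Q + 4 * ε') := by ring
    rw [h1]
    positivity

/-- a test function along a family -/
theorem obs_of_cls {β : ℝ} (hβ : 1 < β) : ∃ C : ℝ, 1 ≤ C ∧ ∀ (u v : ℕ → ℝ → ℝ) (a b β₁ β₂ : ℝ), β ≤ β₁ →
    Fam u v a b β₁ β₂ → ∀ (φ : ℝ → ℝ) (V K : ℝ), Cls φ V K →
    Obs u a b (fun n x => φ (u n x)) (Mv φ u) (C * (1 + Real.log K)) := by
  obtain ⟨C, hC1, hosc⟩ := Mv_osc hβ
  refine ⟨C, hC1, fun u v a b β₁ β₂ hββ hF φ V K hφ => ⟨fun n x _ => hφ.bd _, fun n => ?_, fun t m ht h0 hm hm1 => ?_, ?_⟩⟩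
  · exact hφ.cont.comp_continuousOn (hF.cont_u n)
  · exact Mv_add hF hφ t m ht h0 hm hm1
  · exact hosc u v a b β₁ β₂ hββ hF φ V K hφ

theorem dev_upper {β K₀ s ε : ℝ} (hβ : 1 < β) (hK₀ : 1 ≤ K₀) (hs : 0 < s) (hs1 : s ≤ 1) (hε : 0 < ε) (hε1 : ε ≤ 1) :
    ∃ ε' : ℝ, 0 < ε' ∧ ∀ L₀ : ℕ, ∃ δ₀ : ℝ, 0 < δ₀ ∧ δ₀ ≤ 1 ∧ ∀ m : ℝ, 0 < m → m ≤ δ₀ → ∃ L : ℕ, L₀ ≤ L ∧
      ∀ (u v : ℕ → ℝ → ℝ) (a b β₁ β₂ : ℝ), β ≤ β₁ → Fam u v a b β₁ β₂ → ∀ (φ : ℝ → ℝ) (V Q : ℝ), Cls φ V (K₀ / m) →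
      0 ≤ Q → Q ≤ s → BlockVar φ u a b Q ε' L →
      dimH {x | x ∈ Icc a b ∧ ∃ᶠ N : ℕ in atTop, m * N ≤ S φ u N x} ≤
        ENNReal.ofReal (1 - (1 - ε) * m ^ 2 / (2 * s * Real.log β₂)) := by
  obtain ⟨C, hC1, hobs⟩ := obs_of_cls hβ
  obtain ⟨ε', hε', h⟩ := dev_upper_gen hC1 hβ hK₀ hs hs1 hε hε1
  refine ⟨ε', hε', fun L₀ => ?_⟩
  obtain ⟨δ₀, h0, h1, h2⟩ := h L₀
  refine ⟨δ₀, h0, h1, fun m hm hmδ => ?_⟩
  obtain ⟨L, hL, h3⟩ := h2 m hm hmδ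
  exact ⟨L, hL, fun u v a b β₁ β₂ hββ hF φ V Q hφ hQ0 hQs hvar =>
    h3 u v a b β₁ β₂ hββ hF _ _ Q (hobs u v a b β₁ β₂ hββ hF φ V _ hφ) hQ0 hQs hvar⟩

theorem dev_lower {β K₀ s ε : ℝ} (hβ : 1 < β) (hK₀ : 1 ≤ K₀) (hs : 0 < s) (hs1 : s ≤ 1) (hε : 0 < ε) (hε1 : ε ≤ 1) :
    ∃ ε' : ℝ, 0 < ε' ∧ ∀ L₀ : ℕ, ∃ δ₀ : ℝ, 0 < δ₀ ∧ δ₀ ≤ 1 ∧ ∀ m : ℝ, 0 < m → m ≤ δ₀ → ∃ L : ℕ, L₀ ≤ L ∧
      ∀ (u v : ℕ → ℝ → ℝ) (a b β₁ β₂ : ℝ), β ≤ β₁ → Fam u v a b β₁ β₂ → ∀ (φ : ℝ → ℝ) (V Q : ℝ), Cls φ V (K₀ / m) →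
      s ≤ Q → Q ≤ 1 → BlockVar φ u a b Q ε' L →
      ENNReal.ofReal (1 - (1 + ε) * m ^ 2 / (2 * s * Real.log β₁)) ≤
        dimH {x | x ∈ Icc a b ∧ ∀ᶠ N : ℕ in atTop, m * N ≤ S φ u N x} := by
  obtain ⟨C, hC1, hobs⟩ := obs_of_cls hβ
  obtain ⟨ε', hε', h⟩ := dev_lower_gen hC1 hK₀ hs hs1 hε hε1
  refine ⟨ε', hε', fun L₀ => ?_⟩
  obtain ⟨δ₀, h0, h1, h2⟩ := h L₀
  refine ⟨δ₀, h0, h1, fun m hm hmδ => ?_⟩
  obtain ⟨L, hL, h3⟩ := h2 m hm hmδ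
  exact ⟨L, hL, fun u v a b β₁ β₂ hββ hF φ V Q hφ hsQ hQ1 hvar =>
    h3 u v a b β₁ β₂ hF _ _ Q (hobs u v a b β₁ β₂ hββ hF φ V _ hφ) hsQ hQ1 hvar⟩

end Pool.Agent.Helper78.KD
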