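import Pool.Agent.Helper78.KD.DevU
import Pool.Agent.Helper69.CD.Dim

/-!
# From families to sequences of functions on open sets
-/

set_option autoImplicit false

namespace Pool.Agent.Helper78.KD

open MeasureTheory Set Filter Topology
open Pool.Agent.Helper44.KD (block_var)

theorem Cls.mono {φ : ℝ → ℝ} {V K K' : ℝ} (h : Cls φ V K) (hK : K ≤ K') : Cls φ V K' :=
  ⟨h.hV, h.hK.trans hK, h.lift, h.bd, fun s t => (h.lip s t).trans (mul_le_mul_of_nonneg_right hK (abs_nonneg _)), h.mean⟩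

theorem Cls.neg {φ : ℝ → ℝ} {V K : ℝ} (h : Cls φ V K) : Cls (fun t => -φ t) V K := by
  refine ⟨h.hV, h.hK, ?_, fun t => by rw [abs_neg]; exact h.bd t, fun s t => ?_, ?_⟩
  · obtain ⟨s₁, s₂, h₁, h₂, c, hc⟩ := h.lift
    exact ⟨s₂, s₁, h₂, h₁, -c, fun t => by rw [hc t]; ring⟩
  · rw [show -φ s - -φ t = -(φ s - φ t) by ring, abs_neg]
    exact h.lip s t
  · rw [intervalIntegral.integral_neg, h.mean, neg_zero]

theorem S_shift (φ : ℝ → ℝ) (U : ℕ → ℝ → ℝ) (n₀ N : ℕ) (x : ℝ) :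
    S φ U (n₀ + N) x = S φ U n₀ x + S φ (fun n => U (n + n₀)) N x := by
  unfold S
  rw [Finset.sum_range_add]
  congr 1
  exact Finset.sum_congr rfl fun n _ => by rw [add_comm]

theorem S_bd {φ : ℝ → ℝ} (hφ : ∀ t, |φ t| ≤ 1) (U : ℕ → ℝ → ℝ) (N : ℕ) (x : ℝ) : |S φ U N x| ≤ N := by
  unfold S
  refine (Finset.abs_sum_le_sum_abs _ _).trans ((Finset.sum_le_sum fun n _ => hφ _).trans ?_)
  simp

theorem sq_int_le {φ : ℝ → ℝ} {V K : ℝ} (h : Cls φ V K) : (∫ t in (0 : ℝ)..1, φ t ^ 2) ≤ 1 := by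
  have h1 : ∫ t in (0 : ℝ)..1, φ t ^ 2 ≤ ∫ _ in (0 : ℝ)..1, (1 : ℝ) := by
    refine intervalIntegral.integral_mono_on zero_le_one ?_ ?_ fun t _ => ?_
    · exact (h.cont.pow 2).intervalIntegrable _ _
    · exact intervalIntegrable_const
    · have := h.bd t
      rw [← sq_abs]
      exact pow_le_one₀ (abs_nonneg _) this
  simpa using h1

theorem sq_int_nonneg (φ : ℝ → ℝ) : 0 ≤ ∫ t in (0 : ℝ)..1, φ t ^ 2 :=
  intervalIntegral.integral_nonneg zero_le_one fun t _ => sq_nonneg _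

/-- upper bound for sequences of functions which are locally families -/
theorem loc_upper {γ : ℕ → ℝ} (hγ : ∀ d, 1 ≤ d → Irrational (γ d)) {β V K₀ s ε : ℝ} (hβ : 1 < β) (hV : 0 ≤ V)
    (hK₀ : 1 ≤ K₀) (hs : 0 < s) (hs1 : s ≤ 1) (hε : 0 < ε) (hε1 : ε ≤ 1) :
    ∃ (D : ℕ) (τ δ₀ : ℝ), 0 < τ ∧ 0 < δ₀ ∧ δ₀ ≤ 1 ∧ ∀ m : ℝ, 0 < m → m ≤ δ₀ → ∀ (U : ℕ → ℝ → ℝ) (G : Set ℝ)
      (β₁ β₂ : ℝ), β ≤ β₁ → LocFam U G γ D τ β₁ β₂ → ∀ φ : ℝ → ℝ, Cls φ V (K₀ / m) →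
      (∫ t in (0 : ℝ)..1, φ t ^ 2) ≤ s → ∀ m' : ℝ, m < m' →
      dimH {x | x ∈ G ∧ ∃ᶠ N : ℕ in atTop, m' * N ≤ S φ U N x} ≤
        ENNReal.ofReal (1 - (1 - ε) * m ^ 2 / (2 * s * Real.log β₂)) := by
  obtain ⟨ε', hε', hdev⟩ := dev_upper hβ hK₀ hs hs1 hε hε1
  obtain ⟨D, τ, κ, L₀, hτ, hκ, hbv⟩ := block_var hγ hβ hV hε'
  obtain ⟨δ₀, hδ₀, hδ₀1, hdev'⟩ := hdev L₀
  refine ⟨D, τ, δ₀, hτ, hδ₀, hδ₀1, fun m hm hmδ U G β₁ β₂ hββ hloc φ hφ hφs m' hm' => ?_⟩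
  obtain ⟨L, hL, hfam⟩ := hdev' m hm hmδ
  refine Pool.Agent.Helper69.CD.dimH_le_of_local _ _ fun x hx => ?_
  obtain ⟨n₀, v, a, b, hxab, -, hF, hR, hD⟩ := hloc x hx.1 univ univ_mem L κ hκ
  refine ⟨Ioo a b, Ioo_mem_nhds hxab.1 hxab.2, ?_⟩
  refine le_trans (dimH_mono ?_) (hfam _ v a b β₁ β₂ hββ hF φ V _ hφ (sq_int_nonneg φ) hφs
    (hbv _ v a b β₁ β₂ hββ hF hR L hL hD φ _ hφ))
  rintro y ⟨⟨_, hfr⟩, hy⟩
  refine ⟨Ioo_subset_Icc_self hy, ?_⟩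
  rw [frequently_atTop] at hfr ⊢
  intro N₀
  obtain ⟨N₁, hN₁⟩ := exists_nat_gt (2 * n₀ / (m' - m))
  have hmm : 0 < m' - m := by linarith
  rw [div_lt_iff₀ hmm] at hN₁
  obtain ⟨N, hN, hSN⟩ := hfr (max (N₀ + n₀) (N₁ + n₀))
  obtain ⟨M, rfl⟩ : ∃ M, N = n₀ + M := ⟨N - n₀, by omega⟩
  have h1 : N₀ ≤ M := by omega
  have h2 : (N₁ : ℝ) ≤ M := by
    have : N₁ ≤ M := by omega
    exact_mod_cast this
  refine ⟨M, h1, ?_⟩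
  rw [S_shift] at hSN
  have h3 := (abs_le.1 (S_bd hφ.bd U n₀ y)).2
  push_cast at hSN
  have h4 : (0 : ℝ) ≤ n₀ := Nat.cast_nonneg _
  nlinarith

/-- lower bound for sequences of functions which are locally families -/
theorem loc_lower_aux {m m' : ℝ} (hmm : m' < m) (hm : 0 < m) {U : ℕ → ℝ → ℝ} {φ : ℝ → ℝ} (hφ : ∀ t, |φ t| ≤ 1) {n₀ : ℕ} {y : ℝ}
    (hy : ∀ᶠ N : ℕ in atTop, m * N ≤ S φ (fun n => U (n + n₀)) N y) : ∀ᶠ N : ℕ in atTop, m' * N ≤ S φ U N y := by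
  rw [eventually_atTop] at hy ⊢
  obtain ⟨N₀, hN₀⟩ := hy
  obtain ⟨N₁, hN₁⟩ := exists_nat_gt ((1 + m) * n₀ / (m - m'))
  have hmm' : 0 < m - m' := by linarith
  rw [div_lt_iff₀ hmm'] at hN₁
  refine ⟨max (N₀ + n₀) (N₁ + n₀), fun N hN => ?_⟩
  obtain ⟨M, rfl⟩ : ∃ M, N = n₀ + M := ⟨N - n₀, by omega⟩
  have h1 : N₀ ≤ M := by omega
  have h2 : (N₁ : ℝ) ≤ M := by
    have : N₁ ≤ M := by omega
    exact_mod_cast this
  have h3 := hN₀ M h1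
  have h4 := (abs_le.1 (S_bd hφ U n₀ y)).1
  rw [S_shift]
  push_cast
  have h5 : (0 : ℝ) ≤ n₀ := Nat.cast_nonneg _
  have h6 : m' * n₀ ≤ m * n₀ := by nlinarith
  nlinarith

theorem loc_lower {γ : ℕ → ℝ} (hγ : ∀ d, 1 ≤ d → Irrational (γ d)) {β V K₀ s ε : ℝ} (hβ : 1 < β) (hV : 0 ≤ V)
    (hK₀ : 1 ≤ K₀) (hs : 0 < s) (hs1 : s ≤ 1) (hε : 0 < ε) (hε1 : ε ≤ 1) :
    ∃ (D : ℕ) (τ δ₀ : ℝ), 0 < τ ∧ 0 < δ₀ ∧ δ₀ ≤ 1 ∧ ∀ m : ℝ, 0 < m → m ≤ δ₀ → ∀ (U : ℕ → ℝ → ℝ) (G : Set ℝ)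
      (β₁ β₂ : ℝ), β ≤ β₁ → LocFam U G γ D τ β₁ β₂ → ∀ φ : ℝ → ℝ, Cls φ V (K₀ / m) →
      (s ≤ ∫ t in (0 : ℝ)..1, φ t ^ 2) → ∀ m' : ℝ, m' < m → ∀ O : Set ℝ, IsOpen O → O.Nonempty → O ⊆ G →
      ENNReal.ofReal (1 - (1 + ε) * m ^ 2 / (2 * s * Real.log β₁)) ≤
      dimH {x | x ∈ O ∧ ∀ᶠ N : ℕ in atTop, m' * N ≤ S φ U N x} := by
  obtain ⟨ε', hε', hdev⟩ := dev_lower hβ hK₀ hs hs1 hε hε1
  obtain ⟨D, τ, κ, L₀, hτ, hκ, hbv⟩ := block_var hγ hβ hV hε'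
  obtain ⟨δ₀, hδ₀, hδ₀1, hdev'⟩ := hdev L₀
  refine ⟨D, τ, δ₀, hτ, hδ₀, hδ₀1, fun m hm hmδ U G β₁ β₂ hββ hloc φ hφ hφs m' hm' O hO hne hOG => ?_⟩
  obtain ⟨L, hL, hfam⟩ := hdev' m hm hmδ
  obtain ⟨x, hx⟩ := hne
  obtain ⟨n₀, v, a, b, hxab, hsub, hF, hR, hD⟩ := hloc x (hOG hx) O (hO.mem_nhds hx) L κ hκ
  refine (hfam _ v a b β₁ β₂ hββ hF φ V _ hφ hφs (sq_int_le hφ)
    (hbv _ v a b β₁ β₂ hββ hF hR L hL hD φ _ hφ)).trans (dimH_mono ?_)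
  rintro y ⟨hy, hev⟩
  exact ⟨hsub hy, loc_lower_aux hm' hm hφ.bd hev⟩

/-! ### limits superior and inferior -/

theorem freq_of_limsup {f : ℕ → ℝ} {C δ δ' : ℝ} (hf : ∀ N, |f N| ≤ C) (h : δ ≤ limsup f atTop) (hδ : δ' < δ) :
    ∃ᶠ N : ℕ in atTop, δ' < f N := by
  refine frequently_lt_of_lt_limsup ?_ (hδ.trans_le h)
  exact IsBoundedUnder.isCoboundedUnder_le
    ⟨-C, by rw [eventually_map]; exact Eventually.of_forall fun N => (abs_le.1 (hf N)).1⟩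

theorem liminf_of_event {f : ℕ → ℝ} {C δ : ℝ} (hf : ∀ N, |f N| ≤ C) (h : ∀ᶠ N : ℕ in atTop, δ ≤ f N) :
    δ ≤ liminf f atTop := by
  refine le_liminf_of_le ?_ h
  exact IsBoundedUnder.isCoboundedUnder_ge
    ⟨C, by rw [eventually_map]; exact Eventually.of_forall fun N => (abs_le.1 (hf N)).2⟩

/-- the discrepancy lies between zero and one -/
theorem disc_bdd (u : ℕ → ℝ) (N : ℕ) : |disc u N| ≤ 1 := by
  have key : ∀ r ∈ {r : ℝ | ∃ α β : ℝ, 0 ≤ α ∧ α < β ∧ β ≤ 1 ∧ r =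
    |(((Finset.range N).filter (fun n => α ≤ Int.fract (u n) ∧ Int.fract (u n) < β)).card : ℝ) / N - (β - α)|},
      0 ≤ r ∧ r ≤ 1 := by
    rintro r ⟨α, β, h0, hab, h1, rfl⟩
    refine ⟨abs_nonneg _, ?_⟩
    have h2 : ((((Finset.range N).filter (fun n => α ≤ Int.fract (u n) ∧ Int.fract (u n) < β)).card : ℝ)) ≤ N := by
      have := Finset.card_filter_le (Finset.range N) (fun n => α ≤ Int.fract (u n) ∧ Int.fract (u n) < β)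
      rw [Finset.card_range] at this
      exact_mod_cast this
    have h3 : (0 : ℝ) ≤ (((Finset.range N).filter (fun n => α ≤ Int.fract (u n) ∧ Int.fract (u n) < β)).card : ℝ) / N := by
      positivity
    have h4 : (((Finset.range N).filter (fun n => α ≤ Int.fract (u n) ∧ Int.fract (u n) < β)).card : ℝ) / N ≤ 1 := by
      rcases Nat.eq_zero_or_pos N with h | h
      · subst h; simp
      · rw [div_le_one (by exact_mod_cast h)]; exact h2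
    rw [abs_le]
    constructor <;> linarith
  have hne : {r : ℝ | ∃ α β : ℝ, 0 ≤ α ∧ α < β ∧ β ≤ 1 ∧ r =
    |(((Finset.range N).filter (fun n => α ≤ Int.fract (u n) ∧ Int.fract (u n) < β)).card : ℝ) / N - (β - α)|}.Nonempty :=
    ⟨_, 0, 1, le_rfl, zero_lt_one, le_rfl, rfl⟩
  rw [abs_le]
  constructor
  · have : 0 ≤ disc u N := Real.sSup_nonneg fun r hr => (key r hr).1
    linarith
  · exact csSup_le hne fun r hr => (key r hr).2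

/-- bases close to `x₀` -/
theorem choose_bases {x₀ η : ℝ} (hx₀ : 1 < x₀) (hη : 0 < η) (hη1 : η ≤ 1 / 2) : ∃ β₁ β₂ : ℝ, 1 < β₁ ∧ β₁ < x₀ ∧ x₀ < β₂ ∧
    (1 - η) * Real.log x₀ ≤ Real.log β₁ ∧ Real.log β₂ ≤ (1 + η) * Real.log x₀ := by
  have hl := Real.log_pos hx₀
  have h0 : Real.exp (Real.log x₀) = x₀ := Real.exp_log (by linarith)
  refine ⟨Real.exp ((1 - η) * Real.log x₀), Real.exp ((1 + η) * Real.log x₀), ?_, ?_, ?_, ?_, ?_⟩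
  · rw [Real.one_lt_exp_iff]
    nlinarith
  · conv_rhs => rw [← h0]
    apply Real.exp_lt_exp.2
    nlinarith
  · conv_lhs => rw [← h0]
    apply Real.exp_lt_exp.2
    nlinarith
  · rw [Real.log_exp]
  · rw [Real.log_exp]

end Pool.Agent.Helper78.KD
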