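import Mathlib

/-!
# Moderate deviations of lacunary families: definitions

Test functions, families of increasing functions with exponential growth, trees of intervals.
-/

set_option autoImplicit false

namespace Pool.Agent.Helper78.KD

open MeasureTheory Set Filter Topology

/-- a monotone function that increases by one over each unit interval -/
def IsLift (s : ℝ → ℝ) : Prop := Monotone s ∧ ∀ t, s (t + 1) = s t + 1

/-- test functions with mean zero: bounded by one, Lipschitz, of variation controlled by `V` -/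
structure Cls (φ : ℝ → ℝ) (V K : ℝ) : Prop where
  hV : 0 ≤ V
  hK : 1 ≤ K
  lift : ∃ s₁ s₂ : ℝ → ℝ, IsLift s₁ ∧ IsLift s₂ ∧ ∃ h : ℝ, ∀ t, φ t = V * (s₁ t - s₂ t) + h
  bd : ∀ t, |φ t| ≤ 1
  lip : ∀ s t, |φ s - φ t| ≤ K * |s - t|
  mean : ∫ t in (0 : ℝ)..1, φ t = 0

/-- increasing functions `u n` on `[a, b]` with increasing derivatives `v n` of exponential growth;
the first one increases by a number in `[1, 2]` -/
structure Fam (u v : ℕ → ℝ → ℝ) (a b β₁ β₂ : ℝ) : Prop where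
  hab : a < b
  hβ : 1 < β₁
  hβ' : β₁ ≤ β₂
  deriv : ∀ n, ∀ x ∈ Icc a b, HasDerivAt (u n) (v n x) x
  cont : ∀ n, ContinuousOn (v n) (Icc a b)
  pos : ∀ n, ∀ x ∈ Icc a b, 0 < v n x
  mono : ∀ n, MonotoneOn (v n) (Icc a b)
  growth : ∀ n, ∀ x ∈ Icc a b, β₁ * v n x ≤ v (n + 1) x ∧ v (n + 1) x ≤ β₂ * v n x
  root : 1 ≤ u 0 b - u 0 a ∧ u 0 b - u 0 a ≤ 2
  dist2 : ∀ n, ∀ x ∈ Icc a b, ∀ y ∈ Icc a b, x ≤ y → u n y - u n x ≤ 2 → v n y ≤ 2 * v n x

/-- distortion at most `1 + κ` for the next `W` functions -/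
def Dist (u v : ℕ → ℝ → ℝ) (a b κ : ℝ) (W : ℕ) : Prop :=
  ∀ n j, n ≤ j → j ≤ n + W → ∀ x ∈ Icc a b, ∀ y ∈ Icc a b, x ≤ y → u n y - u n x ≤ 2 →
    v j y ≤ (1 + κ) * v j x

/-- the ratios of the derivatives are close to `γ d` for the lags `1 ≤ d ≤ D` -/
def Ratio (v : ℕ → ℝ → ℝ) (a b τ : ℝ) (D : ℕ) (γ : ℕ → ℝ) : Prop :=
  ∀ d, 1 ≤ d → d ≤ D → ∀ j, ∀ x ∈ Icc a b, |v (j + d) x - γ d * v j x| ≤ τ * v j x

/-- nested partitions of an interval: `N k` cells of level `k` with endpoints `t k i`, `i ≤ N k`; the endpoint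
`t k i` is the endpoint of number `J k i` of level `k + 1` -/
structure Tr where
  N : ℕ → ℕ
  t : ℕ → ℕ → ℝ
  J : ℕ → ℕ → ℕ
  hN : N 0 = 1
  lt : ∀ k i, i < N k → t k i < t k (i + 1)
  J0 : ∀ k, J k 0 = 0
  JN : ∀ k, J k (N k) = N (k + 1)
  Jlt : ∀ k i, i < N k → J k i < J k (i + 1)
  ref : ∀ k i, i ≤ N k → t (k + 1) (J k i) = t k i

namespace Tr

variable (T : Tr)

/-- length of a cell -/
def len (k i : ℕ) : ℝ := T.t k (i + 1) - T.t k i

/-- closed cell -/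
def cell (k i : ℕ) : Set ℝ := Icc (T.t k i) (T.t k (i + 1))

/-- numbers of the children of a cell -/
def ch (k i : ℕ) : Finset ℕ := Finset.Ico (T.J k i) (T.J k (i + 1))

/-- upper bound for the exponential moment of the increments -/
def MGFle (M : ℕ → ℕ → ℝ) (θ Λ : ℝ) : Prop := ∀ k i, i < T.N k →
  ∑ j ∈ T.ch k i, T.len (k + 1) j * Real.exp (θ * (M (k + 1) j - M k i)) ≤ T.len k i * Real.exp Λ

/-- lower bound for the exponential moment of the increments -/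
def MGFge (M : ℕ → ℕ → ℝ) (θ Λ : ℝ) : Prop := ∀ k i, i < T.N k →
  T.len k i * Real.exp Λ ≤ ∑ j ∈ T.ch k i, T.len (k + 1) j * Real.exp (θ * (M (k + 1) j - M k i))

end Tr

/-- sum of the test function along the sequence -/
noncomputable def S (φ : ℝ → ℝ) (u : ℕ → ℝ → ℝ) (N : ℕ) (x : ℝ) : ℝ := ∑ n ∈ Finset.range N, φ (u n x)

/-- mean over an interval of the whole series -/
noncomputable def Mv (φ : ℝ → ℝ) (u : ℕ → ℝ → ℝ) (p q : ℝ) : ℝ := ∑' n : ℕ, (∫ x in p..q, φ (u n x)) / (q - p)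

/-- the second moment of the sum over the next `L` functions, on the intervals of level `n` -/
def BlockVar (φ : ℝ → ℝ) (u : ℕ → ℝ → ℝ) (a b Q ε : ℝ) (L : ℕ) : Prop :=
  ∀ (n : ℕ) (p q : ℝ), a ≤ p → p < q → q ≤ b → 1 ≤ u n q - u n p → u n q - u n p ≤ 2 →
    |(∫ x in p..q, (∑ j ∈ Finset.Ico n (n + L), φ (u j x)) ^ 2) - Q * L * (q - p)| ≤ ε * L * (q - p)

/-- around every point of `G` there are intervals on which the tails of the sequence `U` are families -/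
def LocFam (U : ℕ → ℝ → ℝ) (G : Set ℝ) (γ : ℕ → ℝ) (D : ℕ) (τ β₁ β₂ : ℝ) : Prop :=
  ∀ x ∈ G, ∀ O ∈ 𝓝 x, ∀ (W : ℕ) (κ : ℝ), 0 < κ → ∃ (n₀ : ℕ) (v : ℕ → ℝ → ℝ) (a b : ℝ), x ∈ Ioo a b ∧ Icc a b ⊆ O ∧
    Fam (fun n => U (n + n₀)) v a b β₁ β₂ ∧ Ratio v a b τ D γ ∧ Dist (fun n => U (n + n₀)) v a b κ W

/-- discrepancy of the first `N` terms modulo one -/
noncomputable def disc (u : ℕ → ℝ) (N : ℕ) : ℝ :=
  sSup {r : ℝ | ∃ α β : ℝ, 0 ≤ α ∧ α < β ∧ β ≤ 1 ∧ r =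
    |(((Finset.range N).filter (fun n => α ≤ Int.fract (u n) ∧ Int.fract (u n) < β)).card : ℝ) / N - (β - α)|}

/-- the trapezoidal lift with slope `1 / η` -/
noncomputable def tz (η t : ℝ) : ℝ := ⌊t⌋ + min 1 (Int.fract t / η)

/-- difference of trapezoidal lifts, centred -/
noncomputable def tr (η h y t : ℝ) : ℝ := tz η (t + y + h) - tz η (t + y) - h

end Pool.Agent.Helper78.KD
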