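import Pool.Agent.Helper78.KD.Defs

/-!
# Test functions: trapezoidal lifts
-/

set_option autoImplicit false

namespace Pool.Agent.Helper78.KD

open MeasureTheory Set Filter Topology

theorem tz_add_one (η t : ℝ) : tz η (t + 1) = tz η t + 1 := by
  unfold tz
  rw [Int.fract_add_one, Int.floor_add_one]
  push_cast
  ring

theorem tz_add_int (η t : ℝ) (n : ℤ) : tz η (t + n) = tz η t + n := by
  unfold tz
  rw [Int.fract_add_intCast, Int.floor_add_intCast]
  push_cast
  ring

/-- lower and upper bound by the floor -/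
theorem tz_bounds {η : ℝ} (h0 : 0 < η) (t : ℝ) : (⌊t⌋ : ℝ) ≤ tz η t ∧ tz η t ≤ ⌊t⌋ + 1 := by
  unfold tz
  refine ⟨?_, ?_⟩
  · have : 0 ≤ min 1 (Int.fract t / η) := le_min zero_le_one (div_nonneg (Int.fract_nonneg t) h0.le)
    linarith
  · have : min 1 (Int.fract t / η) ≤ 1 := min_le_left _ _
    linarith

theorem tz_mono {η : ℝ} (h0 : 0 < η) : Monotone (tz η) := by
  intro s t hst
  rcases (Int.floor_le_floor hst).eq_or_lt with h | h
  · have hf : Int.fract s ≤ Int.fract t := by
      rw [Int.fract, Int.fract, h]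
      linarith
    unfold tz
    rw [h]
    have : min 1 (Int.fract s / η) ≤ min 1 (Int.fract t / η) :=
      min_le_min_left _ (div_le_div_of_nonneg_right hf h0.le)
    linarith
  · have h1 := (tz_bounds h0 s).2
    have h2 := (tz_bounds h0 t).1
    have h3 : (⌊s⌋ : ℝ) + 1 ≤ ⌊t⌋ := by exact_mod_cast h
    linarith

theorem tz_lift {η : ℝ} (h0 : 0 < η) (h1 : η ≤ 1) : IsLift (tz η) :=
  ⟨tz_mono h0, tz_add_one η⟩

/-- one-sided Lipschitz bound -/
theorem tz_lip_le {η : ℝ} (h0 : 0 < η) (h1 : η ≤ 1) {s t : ℝ} (hst : s ≤ t) :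
    tz η t - tz η s ≤ (t - s) / η := by
  have hinv : 1 ≤ 1 / η := by rw [le_div_iff₀ h0]; linarith
  rcases (Int.floor_le_floor hst).eq_or_lt with h | h
  · have hf : Int.fract t = Int.fract s + (t - s) := by
      rw [Int.fract, Int.fract, h]
      ring
    unfold tz
    rw [h, hf, add_div]
    have hd : 0 ≤ (t - s) / η := div_nonneg (by linarith) h0.le
    have : min 1 (Int.fract s / η + (t - s) / η) ≤ min 1 (Int.fract s / η) + (t - s) / η := by
      rcases min_cases 1 (Int.fract s / η) with ⟨e, -⟩ | ⟨e, -⟩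
      · rw [e]
        exact (min_le_left _ _).trans (by linarith)
      · rw [e]
        exact min_le_right _ _
    linarith
  · have h3 : (⌊s⌋ : ℝ) + 1 ≤ ⌊t⌋ := by exact_mod_cast h
    -- lower bound at `s`
    have e1 : (⌊s⌋ : ℝ) + 1 - ((⌊s⌋ : ℝ) + 1 - s) / η ≤ tz η s := by
      unfold tz
      have hs : s = ⌊s⌋ + Int.fract s := (Int.floor_add_fract s).symm
      have hf1 := (Int.fract_lt_one s).le
      have e : ((⌊s⌋ : ℝ) + 1 - s) / η = (1 - Int.fract s) / η := by
        congr 1
        linarith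
      rw [e]
      rcases min_cases 1 (Int.fract s / η) with ⟨e', -⟩ | ⟨e', -⟩
      · rw [e']
        have : 0 ≤ (1 - Int.fract s) / η := div_nonneg (by linarith) h0.le
        linarith
      · rw [e']
        have : Int.fract s / η + (1 - Int.fract s) / η = 1 / η := by
          rw [← add_div]
          congr 1
          ring
        linarith
    -- upper bound at `t`
    have e2 : tz η t ≤ (⌊s⌋ : ℝ) + 1 + (t - ((⌊s⌋ : ℝ) + 1)) / η := by
      unfold tz
      have ht : t = ⌊t⌋ + Int.fract t := (Int.floor_add_fract t).symm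
      have e : (t - ((⌊s⌋ : ℝ) + 1)) / η = (⌊t⌋ - ((⌊s⌋ : ℝ) + 1)) * (1 / η) + Int.fract t / η := by
        have : t - ((⌊s⌋ : ℝ) + 1) = (⌊t⌋ - ((⌊s⌋ : ℝ) + 1)) + Int.fract t := by linarith
        rw [this, add_div]
        ring
      rw [e]
      have e3 : min 1 (Int.fract t / η) ≤ Int.fract t / η := min_le_right _ _
      have e4 : ((⌊t⌋ : ℝ) - ((⌊s⌋ : ℝ) + 1)) * 1 ≤ (⌊t⌋ - ((⌊s⌋ : ℝ) + 1)) * (1 / η) :=
        mul_le_mul_of_nonneg_left hinv (by linarith)
      linarith
    have e5 : (t - s) / η = (t - ((⌊s⌋ : ℝ) + 1)) / η + ((⌊s⌋ : ℝ) + 1 - s) / η := by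
      rw [← add_div]
      congr 1
      ring
    linarith

theorem tz_lip {η : ℝ} (h0 : 0 < η) (h1 : η ≤ 1) (s t : ℝ) : |tz η s - tz η t| ≤ 1 / η * |s - t| := by
  rcases le_total s t with h | h
  · have a := tz_mono h0 h
    have b := tz_lip_le h0 h1 h
    rw [abs_of_nonpos (by linarith), abs_of_nonpos (by linarith)]
    calc -(tz η s - tz η t) = tz η t - tz η s := by ring
      _ ≤ (t - s) / η := b
      _ = 1 / η * -(s - t) := by ring
  · have a := tz_mono h0 h
    have b := tz_lip_le h0 h1 h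
    rw [abs_of_nonneg (by linarith), abs_of_nonneg (by linarith)]
    calc tz η s - tz η t ≤ (s - t) / η := b
      _ = 1 / η * (s - t) := by ring

theorem tz_cont {η : ℝ} (h0 : 0 < η) (h1 : η ≤ 1) : Continuous (tz η) := by
  have : LipschitzWith (Real.toNNReal (1 / η)) (tz η) := by
    refine LipschitzWith.of_dist_le_mul fun s t => ?_
    rw [Real.dist_eq, Real.dist_eq, Real.coe_toNNReal _ (by positivity)]
    exact tz_lip h0 h1 s t
  exact this.continuous

theorem tr_cont {η : ℝ} (h0 : 0 < η) (h1 : η ≤ 1) (h y : ℝ) : Continuous (tr η h y) := by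
  unfold tr
  have hc := tz_cont h0 h1
  fun_prop

/-- the range of the centred difference -/
theorem tr_range {η : ℝ} (h0 : 0 < η) (h y t : ℝ) :
    (⌊h⌋ : ℝ) - h ≤ tr η h y t ∧ tr η h y t ≤ ⌊h⌋ - h + 1 := by
  unfold tr
  have a : (⌊h⌋ : ℝ) ≤ h := Int.floor_le h
  have b : h < ⌊h⌋ + 1 := Int.lt_floor_add_one h
  have e1 : tz η (t + y + (⌊h⌋ : ℤ)) ≤ tz η (t + y + h) := tz_mono h0 (by linarith)
  have e2 : tz η (t + y + h) ≤ tz η (t + y + ((⌊h⌋ + 1 : ℤ) : ℝ)) := tz_mono h0 (by push_cast; linarith)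
  rw [tz_add_int] at e1 e2
  push_cast at e2
  constructor <;> linarith

/-- the integral of `tz t - t` over every period is the same -/
theorem tz_period {η : ℝ} (c : ℝ) :
    ∫ t in (0 : ℝ)..1, (tz η (t + c) - (t + c)) = ∫ t in (0 : ℝ)..1, (tz η t - t) := by
  have hper : Function.Periodic (fun t : ℝ => tz η t - t) 1 := by
    intro t
    change tz η (t + 1) - (t + 1) = tz η t - t
    rw [tz_add_one]
    ring
  have h1 := intervalIntegral.integral_comp_add_right (a := (0 : ℝ)) (b := 1) (fun t : ℝ => tz η t - t) c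
  rw [h1]
  have h2 := hper.intervalIntegral_add_eq (0 + c) 0
  rw [zero_add] at h2 ⊢
  rw [zero_add] at h2
  rw [add_comm 1 c]
  exact h2

theorem tr_mean {η : ℝ} (h0 : 0 < η) (h1 : η ≤ 1) (h y : ℝ) : ∫ t in (0 : ℝ)..1, tr η h y t = 0 := by
  have hc := tz_cont h0 h1
  have e : ∀ t, tr η h y t = (tz η (t + (y + h)) - (t + (y + h))) - (tz η (t + y) - (t + y)) := by
    intro t
    unfold tr
    rw [← add_assoc]
    ring
  simp only [e]
  rw [intervalIntegral.integral_sub, tz_period, tz_period, sub_self]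
  · exact (by fun_prop : Continuous fun t => tz η (t + (y + h)) - (t + (y + h))).intervalIntegrable _ _
  · exact (by fun_prop : Continuous fun t => tz η (t + y) - (t + y)).intervalIntegrable _ _

theorem tr_cls {η : ℝ} (h0 : 0 < η) (h1 : η ≤ 1) (h y : ℝ) : Cls (tr η h y) 1 (2 / η) where
  hV := zero_le_one
  hK := by rw [le_div_iff₀ h0]; linarith
  lift := by
    refine ⟨fun t => tz η (t + y + h), fun t => tz η (t + y), ⟨?_, ?_⟩, ⟨?_, ?_⟩, -h, ?_⟩
    · intro s t hst
      exact tz_mono h0 (by linarith)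
    · intro t
      change tz η (t + 1 + y + h) = tz η (t + y + h) + 1
      rw [← tz_add_one]
      congr 1
      ring
    · intro s t hst
      exact tz_mono h0 (by linarith)
    · intro t
      change tz η (t + 1 + y) = tz η (t + y) + 1
      rw [← tz_add_one]
      congr 1
      ring
    · intro t
      unfold tr
      ring
  bd := by
    intro t
    obtain ⟨a, b⟩ := tr_range h0 h y t
    have c : (⌊h⌋ : ℝ) ≤ h := Int.floor_le h
    have d : h < ⌊h⌋ + 1 := Int.lt_floor_add_one h
    rw [abs_le]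
    constructor <;> linarith
  lip := by
    intro s t
    have a := tz_lip h0 h1 (s + y + h) (t + y + h)
    have b := tz_lip h0 h1 (s + y) (t + y)
    rw [show s + y + h - (t + y + h) = s - t by ring] at a
    rw [show s + y - (t + y) = s - t by ring] at b
    have e : tr η h y s - tr η h y t =
        (tz η (s + y + h) - tz η (t + y + h)) - (tz η (s + y) - tz η (t + y)) := by
      unfold tr
      ring
    rw [e]
    refine (abs_sub _ _).trans ?_
    calc |tz η (s + y + h) - tz η (t + y + h)| + |tz η (s + y) - tz η (t + y)|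
        ≤ 1 / η * |s - t| + 1 / η * |s - t| := add_le_add a b
      _ = 2 / η * |s - t| := by ring
  mean := tr_mean h0 h1 h y

theorem tr_var_le {η : ℝ} (h0 : 0 < η) (h1 : η ≤ 1) (h y : ℝ) : ∫ t in (0 : ℝ)..1, tr η h y t ^ 2 ≤ 1 / 4 := by
  set m : ℝ := ⌊h⌋ - h with hm
  have hc := tr_cont h0 h1 h y
  have key : ∀ t, tr η h y t ^ 2 ≤ (2 * m + 1) * tr η h y t + -(m * (m + 1)) := by
    intro t
    obtain ⟨a, b⟩ := tr_range h0 h y t
    have : 0 ≤ (tr η h y t - m) * (m + 1 - tr η h y t) := mul_nonneg (by linarith) (by linarith)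
    nlinarith
  calc ∫ t in (0 : ℝ)..1, tr η h y t ^ 2
      ≤ ∫ t in (0 : ℝ)..1, ((2 * m + 1) * tr η h y t + -(m * (m + 1))) := by
        refine intervalIntegral.integral_mono_on zero_le_one ?_ ?_ fun t _ => key t
        · exact (by fun_prop : Continuous fun t => tr η h y t ^ 2).intervalIntegrable _ _
        · exact (by fun_prop : Continuous fun t => (2 * m + 1) * tr η h y t + -(m * (m + 1))).intervalIntegrable _ _
    _ = -(m * (m + 1)) := by
        rw [intervalIntegral.integral_add, intervalIntegral.integral_const_mul, tr_mean h0 h1,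
          intervalIntegral.integral_const]
        · simp
        · exact (by fun_prop : Continuous fun t => (2 * m + 1) * tr η h y t).intervalIntegrable _ _
        · exact continuous_const.intervalIntegrable _ _
    _ ≤ 1 / 4 := by nlinarith [sq_nonneg (2 * m + 1)]

/-- values of the square away from two short arcs -/
theorem tr_half_sq {η x : ℝ} (h0 : 0 < η) (hx : (η ≤ x ∧ x < 1 / 2) ∨ (1 / 2 + η ≤ x ∧ x < 1)) :
    tr η (1 / 2) 0 x ^ 2 = 1 / 4 := by
  have one : ∀ z : ℝ, η ≤ z → z < 1 → tz η z = 1 := by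
    intro z hz hz1
    have hf : ⌊z⌋ = 0 := by
      rw [Int.floor_eq_iff]
      constructor
      · push_cast
        linarith
      · push_cast
        linarith
    have hfr : Int.fract z = z := by rw [Int.fract, hf]; simp
    unfold tz
    rw [hf, hfr, min_eq_left]
    · simp
    · rw [le_div_iff₀ h0]
      linarith
  unfold tr
  rcases hx with ⟨a, b⟩ | ⟨a, b⟩
  · rw [add_zero, one x a (by linarith), one (x + 1 / 2) (by linarith) (by linarith)]
    norm_num
  · have e : x + 0 + 1 / 2 = (x - 1 / 2) + 1 := by ring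
    rw [e, tz_add_one, add_zero, one x (by linarith) (by linarith), one (x - 1 / 2) (by linarith) (by linarith)]
    norm_num

theorem tr_var_ge {η : ℝ} (h0 : 0 < η) (h1 : η ≤ 1) (y : ℝ) :
    1 / 4 - η ≤ ∫ t in (0 : ℝ)..1, tr η (1 / 2) y t ^ 2 := by
  have hc := tr_cont h0 h1 (1 / 2) y
  rcases le_total (1 / 4) η with h | h
  · have : 0 ≤ ∫ t in (0 : ℝ)..1, tr η (1 / 2) y t ^ 2 :=
      intervalIntegral.integral_nonneg zero_le_one fun t _ => sq_nonneg _
    linarith
  · have hper : Function.Periodic (fun t : ℝ => tr η (1 / 2) 0 t ^ 2) 1 := by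
      intro t
      change tr η (1 / 2) 0 (t + 1) ^ 2 = tr η (1 / 2) 0 t ^ 2
      congr 1
      unfold tr
      rw [show t + 1 + 0 + 1 / 2 = (t + 0 + 1 / 2) + 1 by ring, show t + 1 + 0 = (t + 0) + 1 by ring,
        tz_add_one, tz_add_one]
      ring
    have e0 : ∀ t, tr η (1 / 2) y t = tr η (1 / 2) 0 (t + y) := by
      intro t
      unfold tr
      rw [add_zero]
    have e1 : ∫ t in (0 : ℝ)..1, tr η (1 / 2) y t ^ 2 = ∫ t in (0 : ℝ)..1, tr η (1 / 2) 0 t ^ 2 := by
      simp only [e0]
      have h1 := intervalIntegral.integral_comp_add_right (a := (0 : ℝ)) (b := 1)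
        (fun t : ℝ => tr η (1 / 2) 0 t ^ 2) y
      rw [h1]
      have h2 := hper.intervalIntegral_add_eq (0 + y) 0
      rw [zero_add] at h2 ⊢
      rw [zero_add] at h2
      rw [add_comm 1 y]
      exact h2
    rw [e1]
    have hc0 : Continuous fun t => tr η (1 / 2) 0 t ^ 2 := (tr_cont h0 h1 (1 / 2) 0).pow 2
    have hi : ∀ a b : ℝ, IntervalIntegrable (fun t => tr η (1 / 2) 0 t ^ 2) volume a b := fun a b =>
      hc0.intervalIntegrable _ _
    have s1 : ∫ t in (0 : ℝ)..1, tr η (1 / 2) 0 t ^ 2 =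
        (∫ t in (0 : ℝ)..η, tr η (1 / 2) 0 t ^ 2) + (∫ t in η..(1 / 2), tr η (1 / 2) 0 t ^ 2) +
          (∫ t in (1 / 2)..(1 / 2 + η), tr η (1 / 2) 0 t ^ 2) +
          ∫ t in (1 / 2 + η)..1, tr η (1 / 2) 0 t ^ 2 := by
      rw [intervalIntegral.integral_add_adjacent_intervals (hi _ _) (hi _ _),
        intervalIntegral.integral_add_adjacent_intervals (hi _ _) (hi _ _),
        intervalIntegral.integral_add_adjacent_intervals (hi _ _) (hi _ _)]
    have g1 : 0 ≤ ∫ t in (0 : ℝ)..η, tr η (1 / 2) 0 t ^ 2 :=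
      intervalIntegral.integral_nonneg h0.le fun t _ => sq_nonneg _
    have g2 : 0 ≤ ∫ t in (1 / 2)..(1 / 2 + η), tr η (1 / 2) 0 t ^ 2 :=
      intervalIntegral.integral_nonneg (by linarith) fun t _ => sq_nonneg _
    have g3 : ∫ t in η..(1 / 2), tr η (1 / 2) 0 t ^ 2 = (1 / 2 - η) * (1 / 4) := by
      have : ∫ t in η..(1 / 2), tr η (1 / 2) 0 t ^ 2 = ∫ t in η..(1 / 2), (1 / 4 : ℝ) := by
        refine intervalIntegral.integral_congr_ae ?_
        have : ∀ᵐ t : ℝ, t ≠ 1 / 2 := by
          rw [ae_iff]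
          simp
        filter_upwards [this] with t ht hmem
        rw [uIoc_of_le (by linarith)] at hmem
        exact tr_half_sq h0 (Or.inl ⟨hmem.1.le, lt_of_le_of_ne hmem.2 ht⟩)
      rw [this, intervalIntegral.integral_const]
      simp
    have g4 : ∫ t in (1 / 2 + η)..1, tr η (1 / 2) 0 t ^ 2 = (1 - (1 / 2 + η)) * (1 / 4) := by
      have : ∫ t in (1 / 2 + η)..1, tr η (1 / 2) 0 t ^ 2 = ∫ t in (1 / 2 + η)..1, (1 / 4 : ℝ) := by
        refine intervalIntegral.integral_congr_ae ?_
        have : ∀ᵐ t : ℝ, t ≠ 1 := by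
          rw [ae_iff]
          simp
        filter_upwards [this] with t ht hmem
        rw [uIoc_of_le (by linarith)] at hmem
        exact tr_half_sq h0 (Or.inr ⟨hmem.1.le, lt_of_le_of_ne hmem.2 ht⟩)
      rw [this, intervalIntegral.integral_const]
      simp
    rw [s1, g3, g4]
    nlinarith

theorem lip_cls {φ : ℝ → ℝ} {K : ℝ} (hK : 1 ≤ K) (hper : ∀ t, φ (t + 1) = φ t) (hbd : ∀ t, |φ t| ≤ 1)
    (hlip : ∀ s t, |φ s - φ t| ≤ K * |s - t|) (hmean : ∫ t in (0 : ℝ)..1, φ t = 0) : Cls φ K K where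
  hV := by linarith
  hK := hK
  lift := by
    have hK0 : 0 < K := by linarith
    refine ⟨fun t => t + φ t / K, fun t => t, ⟨?_, ?_⟩, ⟨?_, ?_⟩, 0, ?_⟩
    · intro s t hst
      change s + φ s / K ≤ t + φ t / K
      have h1 := hlip s t
      rw [abs_of_nonpos (by linarith : s - t ≤ 0)] at h1
      have h2 := (le_abs_self _).trans h1
      have h3 : (φ s - φ t) / K ≤ t - s := by
        rw [div_le_iff₀ hK0]
        linarith
      rw [sub_div] at h3
      linarith
    · intro t
      change t + 1 + φ (t + 1) / K = t + φ t / K + 1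
      rw [hper]
      ring
    · exact monotone_id
    · intro t
      rfl
    · intro t
      field_simp
      ring
  bd := hbd
  lip := hlip
  mean := hmean

end Pool.Agent.Helper78.KD
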