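import Pool.Agent.Helper78.KD.Fin

/-!
# The multiples of the powers of three
-/

set_option autoImplicit false

namespace Pool.Agent.Helper78.KD

open MeasureTheory Set Filter Topology
open Pool.Agent.Helper80.KD (inst_mul)
open Pool.Agent.Helper44.KD (block_three)

theorem three_lower {ε : ℝ} (hε : 0 < ε) (hε1 : ε ≤ 1) : ∃ δ₀ : ℝ, 0 < δ₀ ∧ ∀ δ : ℝ, 0 < δ → δ ≤ δ₀ →
    ∀ O : Set ℝ, IsOpen O → O.Nonempty → ENNReal.ofReal (1 - (1 + ε) / Real.log 3 * δ ^ 2) ≤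
      dimH {ξ | ξ ∈ O ∧ δ ≤ liminf (fun N => disc (fun n => ξ * 3 ^ (n + 1)) N) atTop} := by
  set e := ε / 32 with he
  have he0 : 0 < e := by positivity
  have he1 : e ≤ 1 / 32 := by rw [he]; linarith
  have h3 : (1 : ℝ) < 3 := by norm_num
  have hlx := Real.log_pos h3
  obtain ⟨β₁, β₂, hb1, hb2, hb3, hb4, hb5⟩ := choose_bases h3 he0 (by linarith)
  obtain ⟨ε', hε', hdev⟩ := dev_lower (β := β₁) (K₀ := 4 / e) (s := 1 / 2) (ε := e) hb1
    (by rw [le_div_iff₀ he0]; linarith) (by norm_num) (by norm_num) he0 (by linarith)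
  obtain ⟨L₀, η₀, hη₀, hη₀1, hblock⟩ := block_three hε'
  obtain ⟨δ₁, hδ₁, hδ₁1, hmain⟩ := hdev L₀
  refine ⟨min (δ₁ / 2) (η₀ / 4), by positivity, fun δ hδ hδδ O hO hne => ?_⟩
  have hδ2 : δ ≤ δ₁ / 2 := hδδ.trans (min_le_left _ _)
  have hδ3 : δ ≤ η₀ / 4 := hδδ.trans (min_le_right _ _)
  have hδ1 : δ ≤ 1 / 4 := by linarith
  set η := e * δ with hη
  have hη0 : 0 < η := by positivity
  have hηδ : η ≤ δ := by rw [hη]; nlinarith
  have hη1 : η ≤ 1 / 4 := by linarith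
  set m := (1 + 3 * e) * δ with hm
  have hm0 : 0 < m := by positivity
  have hm2 : m ≤ 2 * δ := by rw [hm]; nlinarith
  have hcls : Cls (tr η (1 / 2) (-(1 / 2))) 1 (4 / e / m) := by
    refine (tr_cls hη0 (by linarith) _ _).mono ?_
    rw [div_div, hη, div_le_div_iff₀ (by positivity) (by positivity)]
    nlinarith
  obtain ⟨L, hL, hfam⟩ := hmain m hm0 (by linarith)
  obtain ⟨x, hx⟩ := hne
  obtain ⟨n₀, v, a, b, hxab, hsub, hF, -, -⟩ := inst_mul h3 hb1 hb2 hb3 one_pos 0 (fun _ => 0) x (mem_univ x) O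
    (hO.mem_nhds hx) 0 1 one_pos
  have hU : (fun n => (fun (n : ℕ) (ξ : ℝ) => ξ * 3 ^ (n + 1) + (fun _ : ℕ => (0 : ℝ)) n) (n + n₀)) =
      fun (n : ℕ) (ξ : ℝ) => ξ * 3 ^ (n + n₀ + 1) := by
    funext n ξ
    simp
  have hF' : Fam (fun (n : ℕ) (ξ : ℝ) => ξ * 3 ^ (n + n₀ + 1)) v a b β₁ β₂ := by
    rw [← hU]; exact hF
  have hlow := hfam _ v a b β₁ β₂ le_rfl hF' _ 1 (1 / 2) hcls le_rfl (by norm_num)
    (hblock η hη0 (by linarith) L hL n₀ a b)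
  refine (ENNReal.ofReal_le_ofReal ?_).trans (hlow.trans (dimH_mono ?_))
  · have hlb : 0 < Real.log β₁ := Real.log_pos hb1
    have h1 : (1 + e) * m ^ 2 / (2 * (1 / 2) * Real.log β₁) ≤ (1 + ε) / Real.log 3 * δ ^ 2 := by
      have h2 : (1 + e) * m ^ 2 / (2 * (1 / 2) * Real.log β₁) = (1 + e) * (1 + 3 * e) ^ 2 / Real.log β₁ * δ ^ 2 := by
        rw [hm]; field_simp
      rw [h2]
      apply mul_le_mul_of_nonneg_right _ (sq_nonneg δ)
      rw [div_le_div_iff₀ hlb hlx]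
      have h3' : ε = 32 * e := by rw [he]; ring
      have h4 : (1 + ε) * ((1 - e) * Real.log 3) ≤ (1 + ε) * Real.log β₁ := by gcongr
      have h5 : (1 + e) * (1 + 3 * e) ^ 2 ≤ (1 + ε) * (1 - e) := by
        rw [h3']
        nlinarith [mul_pos he0 he0, mul_pos (mul_pos he0 he0) he0]
      calc (1 + e) * (1 + 3 * e) ^ 2 * Real.log 3 ≤ (1 + ε) * (1 - e) * Real.log 3 := by gcongr
        _ = (1 + ε) * ((1 - e) * Real.log 3) := by ring
        _ ≤ _ := h4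
    linarith
  · rintro y ⟨hy, hev⟩
    have hev' : ∀ᶠ N : ℕ in atTop, (1 + 2 * e) * δ * N ≤
        S (tr η (1 / 2) (-(1 / 2))) (fun (n : ℕ) (ξ : ℝ) => ξ * 3 ^ (n + 1)) N y :=
      loc_lower_aux (m := m) (m' := (1 + 2 * e) * δ) (n₀ := n₀) (U := fun (n : ℕ) (ξ : ℝ) => ξ * 3 ^ (n + 1))
        (by rw [hm]; nlinarith) hm0 hcls.bd hev
    refine ⟨hsub hy, liminf_of_event (fun N => disc_bdd (fun n => y * 3 ^ (n + 1)) N) ?_⟩
    filter_upwards [hev', eventually_ge_atTop 1] with N hN hN1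
    have h1 := disc_ge hη0 hη1 (fun n => y * 3 ^ (n + 1)) N hN1
    have hNpos : (0 : ℝ) < N := by exact_mod_cast hN1
    have h2 : (1 + 2 * e) * δ ≤ (∑ n ∈ Finset.range N, tr η (1 / 2) (-(1 / 2)) (y * 3 ^ (n + 1))) / N := by
      rw [le_div_iff₀ hNpos]
      exact hN
    have h4 : δ ≤ (1 + 2 * e) * δ - η := by rw [hη]; nlinarith
    linarith

end Pool.Agent.Helper78.KD
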