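import Pool.Agent.Helper78.KD.Weyl
import Pool.Agent.Helper78.KD.Sharp

/-!
# Draft of the final statement
-/

set_option autoImplicit false

namespace Pool.Agent.Helper78.KD

open MeasureTheory Set Filter Topology
open Pool.Agent.Helper80.KD (inst_mul inst_pow)
open Pool.Agent.Helper18.KD (irr_exp irr_pi)

/-- `1 - c₂ δ² ≤ dim {x ∈ O : δ ≤ liminf F x}` and `dim {x ∈ O : δ ≤ limsup F x} ≤ 1 - c₁ δ²` -/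
def DimBetween (O : Set ℝ) (F : ℝ → ℕ → ℝ) (δ c₁ c₂ : ℝ) : Prop :=
  ENNReal.ofReal (1 - c₂ * δ ^ 2) ≤ dimH {x | x ∈ O ∧ δ ≤ liminf (F x) atTop} ∧
  dimH {x | x ∈ O ∧ δ ≤ limsup (F x) atTop} ≤ ENNReal.ofReal (1 - c₁ * δ ^ 2)

/-- the functions `A x ^ n + c n` on an open set within `ρ` of `x₀`, or `x x₀ ^ n + c n` on an open set -/
def IsFam (x₀ ρ : ℝ) (O : Set ℝ) (u : ℕ → ℝ → ℝ) : Prop :=
  IsOpen O ∧ O.Nonempty ∧ ∃ c : ℕ → ℝ,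
    ((∃ A : ℝ, 0 < A ∧ O ⊆ Ioo (x₀ - ρ) (x₀ + ρ) ∧ u = fun n x => A * x ^ (n + 1) + c n) ∨
      u = fun n x => x * x₀ ^ (n + 1) + c n)

theorem IsFam.mono {x₀ ρ ρ' : ℝ} {O : Set ℝ} {u : ℕ → ℝ → ℝ} (h : IsFam x₀ ρ O u) (hρ : ρ ≤ ρ') : IsFam x₀ ρ' O u := by
  obtain ⟨h1, h2, c, h3⟩ := h
  refine ⟨h1, h2, c, ?_⟩
  rcases h3 with ⟨A, hA, hO, hu⟩ | hu
  · exact Or.inl ⟨A, hA, hO.trans (Ioo_subset_Ioo (by linarith) (by linarith)), hu⟩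
  · exact Or.inr hu

/-- the local families -/
theorem isFam_loc {x₀ β₁ β₂ τ : ℝ} (hx₀ : 1 < x₀) (hβ : 1 < β₁) (h₁ : β₁ < x₀) (h₂ : x₀ < β₂) (hτ : 0 < τ) (D : ℕ) :
    ∃ ρ₀ : ℝ, 0 < ρ₀ ∧ ∀ (O : Set ℝ) (u : ℕ → ℝ → ℝ), IsFam x₀ ρ₀ O u → ∃ G : Set ℝ, O ⊆ G ∧
      LocFam u G (fun d => x₀ ^ d) D τ β₁ β₂ := by
  obtain ⟨ρ₀, hρ₀, hpow⟩ := inst_pow hx₀ hβ h₁ h₂ hτ D
  refine ⟨ρ₀, hρ₀, ?_⟩
  rintro O u ⟨hO, hne, c, ⟨A, hA, hsub, rfl⟩ | rfl⟩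
  · exact ⟨_, hsub, hpow A hA c⟩
  · exact ⟨univ, subset_univ _, inst_mul hx₀ hβ h₁ h₂ hτ D c⟩

/-- the common form of the three statements -/
theorem assemble {x₀ : ℝ} (hx₀ : 1 < x₀) (F : (ℕ → ℝ) → ℕ → ℝ) (c : ℝ → ℝ × ℝ)
    (hup : ∀ ε : ℝ, 0 < ε → ε ≤ 1 → ∃ (D : ℕ) (τ β₁ β₂ δ₀ : ℝ), 0 < τ ∧ 1 < β₁ ∧ β₁ < x₀ ∧ x₀ < β₂ ∧ 0 < δ₀ ∧
      ∀ δ : ℝ, 0 < δ → δ ≤ δ₀ → ∀ (U : ℕ → ℝ → ℝ) (G : Set ℝ), LocFam U G (fun d => x₀ ^ d) D τ β₁ β₂ →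
      dimH {x | x ∈ G ∧ δ ≤ limsup (F (fun n => U n x)) atTop} ≤ ENNReal.ofReal (1 - (c ε).1 * δ ^ 2))
    (hlo : ∀ ε : ℝ, 0 < ε → ε ≤ 1 → ∃ (D : ℕ) (τ β₁ β₂ δ₀ : ℝ), 0 < τ ∧ 1 < β₁ ∧ β₁ < x₀ ∧ x₀ < β₂ ∧ 0 < δ₀ ∧
      ∀ δ : ℝ, 0 < δ → δ ≤ δ₀ → ∀ (U : ℕ → ℝ → ℝ) (G : Set ℝ), LocFam U G (fun d => x₀ ^ d) D τ β₁ β₂ →
      ∀ O : Set ℝ, IsOpen O → O.Nonempty → O ⊆ G →
      ENNReal.ofReal (1 - (c ε).2 * δ ^ 2) ≤ dimH {x | x ∈ O ∧ δ ≤ liminf (F (fun n => U n x)) atTop})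
    (hc : ∀ ε : ℝ, (c ε).1 ≤ (c (min ε 1)).1 ∧ (c (min ε 1)).2 ≤ (c ε).2) {ε : ℝ} (hε : 0 < ε) :
    ∃ δ₀ : ℝ, 0 < δ₀ ∧ ∃ ρ₀ : ℝ, 0 < ρ₀ ∧ ∀ (O : Set ℝ) (u : ℕ → ℝ → ℝ), IsFam x₀ ρ₀ O u → ∀ δ : ℝ, 0 < δ → δ ≤ δ₀ →
      DimBetween O (fun x => F (fun n => u n x)) δ (c ε).1 (c ε).2 := by
  obtain ⟨D, τ, β₁, β₂, δ₁, hτ, hb1, hb2, hb3, hδ₁, hup'⟩ := hup (min ε 1) (by positivity) (min_le_right _ _)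
  obtain ⟨D', τ', β₁', β₂', δ₂, hτ', hb1', hb2', hb3', hδ₂, hlo'⟩ := hlo (min ε 1) (by positivity) (min_le_right _ _)
  obtain ⟨ρ₁, hρ₁, hf1⟩ := isFam_loc hx₀ hb1 hb2 hb3 hτ D
  obtain ⟨ρ₂, hρ₂, hf2⟩ := isFam_loc hx₀ hb1' hb2' hb3' hτ' D'
  refine ⟨min δ₁ δ₂, by positivity, min ρ₁ ρ₂, by positivity, fun O u hu δ hδ hδδ => ⟨?_, ?_⟩⟩
  · obtain ⟨G, hOG, hloc⟩ := hf2 O u (hu.mono (min_le_right _ _))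
    refine (ENNReal.ofReal_le_ofReal ?_).trans (hlo' δ hδ (hδδ.trans (min_le_right _ _)) u G hloc O hu.1 hu.2.1 hOG)
    have := mul_le_mul_of_nonneg_right (hc ε).2 (sq_nonneg δ)
    linarith
  · obtain ⟨G, hOG, hloc⟩ := hf1 O u (hu.mono (min_le_left _ _))
    refine (dimH_mono ?_).trans ((hup' δ hδ (hδδ.trans (min_le_left _ _)) u G hloc).trans (ENNReal.ofReal_le_ofReal ?_))
    · rintro x ⟨hx, h⟩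
      exact ⟨hOG hx, h⟩
    · have := mul_le_mul_of_nonneg_right (hc ε).1 (sq_nonneg δ)
      linarith

theorem result :
    (∀ x₀ : ℝ, 1 < x₀ → (∀ k : ℕ, 1 ≤ k → Irrational (x₀ ^ k)) →
      -- (1) discrepancy
      (∀ ε : ℝ, 0 < ε → ∃ δ₀ : ℝ, 0 < δ₀ ∧ ∃ ρ₀ : ℝ, 0 < ρ₀ ∧ ∀ (O : Set ℝ) (u : ℕ → ℝ → ℝ), IsFam x₀ ρ₀ O u →
        ∀ δ : ℝ, 0 < δ → δ ≤ δ₀ → DimBetween O (fun x N => disc (fun n => u n x) N) δ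
          ((2 - ε) / Real.log x₀) ((2 + ε) / Real.log x₀)) ∧
      -- (2) Weyl sums
      (∀ ε : ℝ, 0 < ε → ∃ δ₀ : ℝ, 0 < δ₀ ∧ ∃ ρ₀ : ℝ, 0 < ρ₀ ∧ ∀ (O : Set ℝ) (u : ℕ → ℝ → ℝ), IsFam x₀ ρ₀ O u →
        ∀ δ : ℝ, 0 < δ → δ ≤ δ₀ →
          DimBetween O (fun x N => ‖∑ n ∈ Finset.range N, Complex.exp (2 * Real.pi * Complex.I * (u n x : ℝ))‖ / N) δ
          ((1 - ε) / Real.log x₀) ((1 + ε) / Real.log x₀)) ∧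
      -- (3) means of a Lipschitz function
      (∀ (φ : ℝ → ℝ) (K σ : ℝ), (∀ t, φ (t + 1) = φ t) → (∀ s t, |φ s - φ t| ≤ K * |s - t|) →
        (∫ t in (0 : ℝ)..1, φ t = 0) → (∫ t in (0 : ℝ)..1, φ t ^ 2 = σ) → 0 < σ →
        ∀ ε : ℝ, 0 < ε → ∃ δ₀ : ℝ, 0 < δ₀ ∧ ∃ ρ₀ : ℝ, 0 < ρ₀ ∧ ∀ (O : Set ℝ) (u : ℕ → ℝ → ℝ), IsFam x₀ ρ₀ O u →
        ∀ δ : ℝ, 0 < δ → δ ≤ δ₀ → DimBetween O (fun x N => (∑ n ∈ Finset.range N, φ (u n x)) / N) δ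
          ((1 - ε) / (2 * σ * Real.log x₀)) ((1 + ε) / (2 * σ * Real.log x₀)))) ∧
    -- (4) the bases `e` and `π`
    (∀ k : ℕ, 1 ≤ k → Irrational (Real.exp 1 ^ k)) ∧ (∀ k : ℕ, 1 ≤ k → Irrational (Real.pi ^ k)) ∧
    -- (5) the base three
    (∀ ε : ℝ, 0 < ε → ∃ δ₀ : ℝ, 0 < δ₀ ∧ ∀ δ : ℝ, 0 < δ → δ ≤ δ₀ → ∀ O : Set ℝ, IsOpen O → O.Nonempty →
      ENNReal.ofReal (1 - (1 + ε) / Real.log 3 * δ ^ 2) ≤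
      dimH {x | x ∈ O ∧ δ ≤ liminf (fun N => disc (fun n => x * 3 ^ (n + 1)) N) atTop}) := by
  refine ⟨fun x₀ hx₀ hirr => ⟨fun ε hε => ?_, fun ε hε => ?_, fun φ K σ hper hlip hmean hσ hσ0 ε hε => ?_⟩, irr_exp, irr_pi,
    fun ε hε => ?_⟩
  · have hlx := Real.log_pos hx₀
    refine assemble hx₀ (fun w => disc w) (fun ε => ((2 - ε) / Real.log x₀, (2 + ε) / Real.log x₀))
      (fun ε h0 h1 => disc_upper hx₀ hirr h0 h1) (fun ε h0 h1 => disc_lower hx₀ hirr h0 h1) (fun ε => ⟨?_, ?_⟩) hε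
    · apply div_le_div_of_nonneg_right _ hlx.le
      linarith [min_le_left ε 1]
    · apply div_le_div_of_nonneg_right _ hlx.le
      linarith [min_le_left ε 1]
  · have hlx := Real.log_pos hx₀
    refine assemble hx₀ (fun w N => ‖wsum w N‖ / N) (fun ε => ((1 - ε) / Real.log x₀, (1 + ε) / Real.log x₀))
      (fun ε h0 h1 => weyl_upper hx₀ hirr h0 h1) (fun ε h0 h1 => weyl_lower hx₀ hirr h0 h1) (fun ε => ⟨?_, ?_⟩) hε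
    · apply div_le_div_of_nonneg_right _ hlx.le
      linarith [min_le_left ε 1]
    · apply div_le_div_of_nonneg_right _ hlx.le
      linarith [min_le_left ε 1]
  · have hlx := Real.log_pos hx₀
    refine assemble hx₀ (fun w N => (∑ n ∈ Finset.range N, φ (w n)) / N)
      (fun ε => ((1 - ε) / (2 * σ * Real.log x₀), (1 + ε) / (2 * σ * Real.log x₀)))
      (fun ε h0 h1 => mean_upper hx₀ hirr hper hlip hmean hσ hσ0 h0 h1)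
      (fun ε h0 h1 => mean_lower hx₀ hirr hper hlip hmean hσ hσ0 h0 h1) (fun ε => ⟨?_, ?_⟩) hε
    · apply div_le_div_of_nonneg_right _ (by positivity)
      linarith [min_le_left ε 1]
    · apply div_le_div_of_nonneg_right _ (by positivity)
      linarith [min_le_left ε 1]
  · obtain ⟨δ₀, hδ₀, h⟩ := three_lower (ε := min ε 1) (by positivity) (min_le_right _ _)
    refine ⟨δ₀, hδ₀, fun δ hδ hδδ O hO hne => (ENNReal.ofReal_le_ofReal ?_).trans (h δ hδ hδδ O hO hne)⟩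
    have hl3 : 0 < Real.log 3 := Real.log_pos (by norm_num)
    have h1 : (1 + min ε 1) / Real.log 3 ≤ (1 + ε) / Real.log 3 := by
      apply div_le_div_of_nonneg_right _ hl3.le
      linarith [min_le_left ε 1]
    have := mul_le_mul_of_nonneg_right h1 (sq_nonneg δ)
    linarith

end Pool.Agent.Helper78.KD
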