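import Pool.Agent.Helper78.KD.Weyl
import Pool.Agent.Helper64.KD.Weyl
import Pool.Agent.Helper64.KD.InstI

/-!
# Weyl sums for every base
-/

set_option autoImplicit false

namespace Pool.Agent.Helper78.KD

open MeasureTheory Set Filter Topology
open Pool.Agent.Helper44.KW (LocFamI instI_pow instI_mul)
open Pool.Agent.Helper64.KD (weyl_block)

/-- upper bound for the Weyl sums, no condition on the base -/
theorem weylI_upper {x₀ : ℝ} (hx₀ : 1 < x₀) {ε : ℝ} (hε : 0 < ε) (hε1 : ε ≤ 1) :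
    ∃ (β₁ β₂ δ₀ : ℝ), 1 < β₁ ∧ β₁ < x₀ ∧ x₀ < β₂ ∧ 0 < δ₀ ∧ ∀ δ : ℝ, 0 < δ → δ ≤ δ₀ →
      ∀ (U : ℕ → ℝ → ℝ) (G : Set ℝ), LocFamI U G (fun d => x₀ ^ d) 0 1 β₁ β₂ →
      dimH {x | x ∈ G ∧ δ ≤ limsup (fun N : ℕ => ‖wsum (fun n => U n x) N‖ / N) atTop} ≤
        ENNReal.ofReal (1 - (1 - ε) / Real.log x₀ * δ ^ 2) := by
  set e := ε / 8 with he
  have he0 : 0 < e := by positivity
  have he1 : e ≤ 1 / 8 := by rw [he]; linarith
  have hlx := Real.log_pos hx₀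
  obtain ⟨β₁, β₂, hb1, hb2, hb3, hb4, hb5⟩ := choose_bases hx₀ he0 (by linarith)
  obtain ⟨ε', hε', hdev⟩ := dev_upper (β := β₁) (K₀ := 7) (s := 1 / 2) (ε := e) hb1
    (by norm_num) (by norm_num) (by norm_num) he0 (by linarith)
  obtain ⟨L₀, hL₀⟩ := weyl_block hb1 hε'
  obtain ⟨δ₁, hδ₁, hδ₁1, hmain⟩ := hdev L₀
  refine ⟨β₁, β₂, δ₁, hb1, hb2, hb3, hδ₁, fun δ hδ hδδ U G hloc => ?_⟩
  obtain ⟨F, hF⟩ := exists_dir he0
  set m := (1 - e) ^ 3 * δ with hm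
  have h1e : 0 < 1 - e := by linarith
  have hm0 : 0 < m := by positivity
  have h1e3 : (1 - e) ^ 3 ≤ 1 := pow_le_one₀ h1e.le (by linarith)
  have hmδ : m ≤ δ := by rw [hm]; nlinarith
  have hm1 : m ≤ 1 := hmδ.trans (hδδ.trans hδ₁1)
  obtain ⟨L, hL, hfam⟩ := hmain m hm0 (hmδ.trans hδδ)
  refine dimH_finset F (fun w => {x | x ∈ G ∧ ∃ᶠ N : ℕ in atTop, ((1 - e) ^ 2 * δ) * N ≤
    S (fun t => Real.cos (2 * Real.pi * (t - w))) U N x}) _ _ ?_ ?_
  · rintro x ⟨hxG, hx⟩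
    have hbdd : ∀ N : ℕ, |‖wsum (fun n => U n x) N‖ / N| ≤ 1 := by
      intro N
      rcases Nat.eq_zero_or_pos N with h | h
      · subst h; simp
      · rw [abs_div, Nat.abs_cast, div_le_one (by exact_mod_cast h), abs_norm]
        exact wsum_bd _ _
    have h1 := freq_of_limsup (δ' := (1 - e) * δ) hbdd hx (by nlinarith)
    have h2 : ∃ᶠ N : ℕ in atTop, ∃ w ∈ F, ((1 - e) ^ 2 * δ) * N ≤ S (fun t => Real.cos (2 * Real.pi * (t - w))) U N x := by
      refine (h1.and_eventually (eventually_ge_atTop 1)).mono ?_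
      rintro N ⟨hN, hN1⟩
      have hNpos : (0 : ℝ) < N := by exact_mod_cast hN1
      rw [lt_div_iff₀ hNpos] at hN
      obtain ⟨w, hw, hwz⟩ := hF (wsum (fun n => U n x) N)
      refine ⟨w, hw, ?_⟩
      have h3 := wsum_re (fun n => U n x) N w
      have h4 : S (fun t => Real.cos (2 * Real.pi * (t - w))) U N x =
          (wsum (fun n => U n x) N * Complex.exp (-(2 * Real.pi * w * Complex.I))).re := h3
      rw [h4]
      refine le_trans ?_ hwz
      calc (1 - e) ^ 2 * δ * N = (1 - e) * ((1 - e) * δ * N) := by ring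
        _ ≤ _ := by gcongr
    obtain ⟨w, hw, hfr⟩ := freq_finset _ _ h2
    exact ⟨w, hw, hxG, hfr⟩
  · intro w _
    have h7 : (7 : ℝ) ≤ 7 / m := by rw [le_div_iff₀ hm0]; linarith
    refine Pool.Agent.Helper69.CD.dimH_le_of_local _ _ fun x hx => ?_
    obtain ⟨n₀, v, a, b, hxab, -, hFam, -, hInc⟩ := hloc x hx.1 univ univ_mem
    refine ⟨Ioo a b, Ioo_mem_nhds hxab.1 hxab.2, ?_⟩
    refine (dimH_mono ?_).trans ((hfam _ v a b β₁ β₂ le_rfl hFam _ 7 (1 / 2) ((cos_cls w).mono h7) (by norm_num) le_rfl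
      (hL₀ _ v a b β₁ β₂ le_rfl hFam hInc.grow L hL w)).trans (ENNReal.ofReal_le_ofReal ?_))
    · rintro y ⟨⟨_, hfr⟩, hy⟩
      refine ⟨Ioo_subset_Icc_self hy, ?_⟩
      rw [frequently_atTop] at hfr ⊢
      intro N₀
      have hmm : 0 < (1 - e) ^ 2 * δ - m := by
        have h8 : 0 < (1 - e) ^ 2 * δ := by positivity
        have h9 : m = (1 - e) * ((1 - e) ^ 2 * δ) := by rw [hm]; ring
        rw [h9]
        nlinarith
      obtain ⟨N₁, hN₁⟩ := exists_nat_gt (2 * n₀ / ((1 - e) ^ 2 * δ - m))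
      rw [div_lt_iff₀ hmm] at hN₁
      obtain ⟨N, hN, hSN⟩ := hfr (max (N₀ + n₀) (N₁ + n₀))
      obtain ⟨k, rfl⟩ : ∃ k, N = n₀ + k := ⟨N - n₀, by omega⟩
      have h1 : N₀ ≤ k := by omega
      have h2 : (N₁ : ℝ) ≤ k := by
        have : N₁ ≤ k := by omega
        exact_mod_cast this
      refine ⟨k, h1, ?_⟩
      rw [S_shift] at hSN
      have h3 := (abs_le.1 (S_bd (cos_cls w).bd U n₀ y)).2
      push_cast at hSN
      have h5 : (0 : ℝ) ≤ n₀ := Nat.cast_nonneg _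
      have h8 : 0 ≤ (1 - e) ^ 2 * δ * n₀ := by positivity
      have h9 : ((1 - e) ^ 2 * δ - m) * N₁ ≤ ((1 - e) ^ 2 * δ - m) * k := by gcongr
      nlinarith
    · have hlb : 0 < Real.log β₂ := Real.log_pos (by linarith)
      have h1 : (1 - ε) / Real.log x₀ * δ ^ 2 ≤ (1 - e) * m ^ 2 / (2 * (1 / 2) * Real.log β₂) := by
        have h2 : (1 - e) * m ^ 2 / (2 * (1 / 2) * Real.log β₂) = (1 - e) ^ 7 / Real.log β₂ * δ ^ 2 := by
          rw [hm]; field_simp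
        rw [h2]
        apply mul_le_mul_of_nonneg_right _ (sq_nonneg δ)
        rw [div_le_div_iff₀ hlx hlb]
        have h3 : ε = 8 * e := by rw [he]; ring
        have h4 : (1 - ε) * Real.log β₂ ≤ (1 - ε) * ((1 + e) * Real.log x₀) := by
          apply mul_le_mul_of_nonneg_left hb5; linarith
        have h5 : (1 - ε) * (1 + e) ≤ (1 - e) ^ 7 := by
          have h6 := one_add_mul_le_pow (a := -e) (by linarith) 7
          have h8 : (1 + -e) ^ 7 = (1 - e) ^ 7 := by ring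
          rw [h8] at h6
          push_cast at h6
          rw [h3]
          nlinarith
        calc (1 - ε) * Real.log β₂ ≤ ((1 - ε) * (1 + e)) * Real.log x₀ := by linarith
          _ ≤ _ := by gcongr
      linarith

/-- lower bound for the Weyl sums, no condition on the base -/
theorem weylI_lower {x₀ : ℝ} (hx₀ : 1 < x₀) {ε : ℝ} (hε : 0 < ε) (hε1 : ε ≤ 1) :
    ∃ (β₁ β₂ δ₀ : ℝ), 1 < β₁ ∧ β₁ < x₀ ∧ x₀ < β₂ ∧ 0 < δ₀ ∧ ∀ δ : ℝ, 0 < δ → δ ≤ δ₀ →
      ∀ (U : ℕ → ℝ → ℝ) (G : Set ℝ), LocFamI U G (fun d => x₀ ^ d) 0 1 β₁ β₂ → ∀ O : Set ℝ, IsOpen O → O.Nonempty → O ⊆ G →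
      ENNReal.ofReal (1 - (1 + ε) / Real.log x₀ * δ ^ 2) ≤
      dimH {x | x ∈ O ∧ δ ≤ liminf (fun N : ℕ => ‖wsum (fun n => U n x) N‖ / N) atTop} := by
  set e := ε / 8 with he
  have he0 : 0 < e := by positivity
  have he1 : e ≤ 1 / 8 := by rw [he]; linarith
  have hlx := Real.log_pos hx₀
  obtain ⟨β₁, β₂, hb1, hb2, hb3, hb4, hb5⟩ := choose_bases hx₀ he0 (by linarith)
  obtain ⟨ε', hε', hdev⟩ := dev_lower (β := β₁) (K₀ := 7) (s := 1 / 2) (ε := e) hb1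
    (by norm_num) (by norm_num) (by norm_num) he0 (by linarith)
  obtain ⟨L₀, hL₀⟩ := weyl_block hb1 hε'
  obtain ⟨δ₁, hδ₁, hδ₁1, hmain⟩ := hdev L₀
  refine ⟨β₁, β₂, δ₁ / 2, hb1, hb2, hb3, by positivity, fun δ hδ hδδ U G hloc O hO hne hOG => ?_⟩
  set m := (1 + e) * δ with hm
  have hm0 : 0 < m := by positivity
  have hmδ : m ≤ δ₁ := by rw [hm]; nlinarith
  have hm1 : m ≤ 1 := hmδ.trans hδ₁1
  have h7 : (7 : ℝ) ≤ 7 / m := by rw [le_div_iff₀ hm0]; linarith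
  obtain ⟨L, hL, hfam⟩ := hmain m hm0 hmδ
  obtain ⟨x, hx⟩ := hne
  obtain ⟨n₀, v, a, b, hxab, hsub, hFam, -, hInc⟩ := hloc x (hOG hx) O (hO.mem_nhds hx)
  have hlow := hfam _ v a b β₁ β₂ le_rfl hFam _ 7 (1 / 2) ((cos_cls 0).mono h7) le_rfl (by norm_num)
    (hL₀ _ v a b β₁ β₂ le_rfl hFam hInc.grow L hL 0)
  refine (ENNReal.ofReal_le_ofReal ?_).trans (hlow.trans (dimH_mono ?_))
  · have hlb : 0 < Real.log β₁ := Real.log_pos hb1
    have h1 : (1 + e) * m ^ 2 / (2 * (1 / 2) * Real.log β₁) ≤ (1 + ε) / Real.log x₀ * δ ^ 2 := by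
      have h2 : (1 + e) * m ^ 2 / (2 * (1 / 2) * Real.log β₁) = (1 + e) * (1 + e) ^ 2 / Real.log β₁ * δ ^ 2 := by
        rw [hm]; field_simp
      rw [h2]
      apply mul_le_mul_of_nonneg_right _ (sq_nonneg δ)
      rw [div_le_div_iff₀ hlb hlx]
      have h3 : ε = 8 * e := by rw [he]; ring
      have h4 : (1 + ε) * ((1 - e) * Real.log x₀) ≤ (1 + ε) * Real.log β₁ := by gcongr
      have h5 : (1 + e) * (1 + e) ^ 2 ≤ (1 + ε) * (1 - e) := by
        rw [h3]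
        nlinarith [mul_pos he0 he0, mul_pos (mul_pos he0 he0) he0]
      calc (1 + e) * (1 + e) ^ 2 * Real.log x₀ ≤ ((1 + ε) * (1 - e)) * Real.log x₀ := by gcongr
        _ = (1 + ε) * ((1 - e) * Real.log x₀) := by ring
        _ ≤ _ := h4
    linarith
  · rintro y ⟨hy, hev⟩
    have hev' : ∀ᶠ N : ℕ in atTop, δ * N ≤ S (fun t => Real.cos (2 * Real.pi * (t - 0))) U N y :=
      loc_lower_aux (m := m) (m' := δ) (n₀ := n₀) (U := U) (by rw [hm]; nlinarith) hm0 (cos_cls 0).bd hev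
    have hbdd : ∀ N : ℕ, |‖wsum (fun n => U n y) N‖ / N| ≤ 1 := by
      intro N
      rcases Nat.eq_zero_or_pos N with h | h
      · subst h; simp
      · rw [abs_div, Nat.abs_cast, div_le_one (by exact_mod_cast h), abs_norm]
        exact wsum_bd _ _
    refine ⟨hsub hy, liminf_of_event hbdd ?_⟩
    filter_upwards [hev', eventually_ge_atTop 1] with N hN hN1
    have hNpos : (0 : ℝ) < N := by exact_mod_cast hN1
    rw [le_div_iff₀ hNpos]
    refine hN.trans ?_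
    have h3 := wsum_re (fun n => U n y) N 0
    have h4 : S (fun t => Real.cos (2 * Real.pi * (t - 0))) U N y =
        (wsum (fun n => U n y) N * Complex.exp (-(2 * Real.pi * (0 : ℝ) * Complex.I))).re := h3
    rw [h4]
    refine (le_abs_self _).trans ((Complex.abs_re_le_norm _).trans ?_)
    rw [norm_mul]
    simp

end Pool.Agent.Helper78.KD
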