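import Pool.Agent.Helper78.KD.Main
import Pool.Agent.Helper78.KD.WeylAll
import Pool.Agent.Helper44.KW.Main
import Pool.Agent.Helper80.KD.InstG
import Pool.Agent.Helper41.KD.Bounded2

/-!
# Families near a base
-/

set_option autoImplicit false

namespace Pool.Agent.Helper78.KD

open MeasureTheory Set Filter Topology
open Pool.Agent.Helper80.KD (inst_mul instG_pow)
open Pool.Agent.Helper44.KW (LocFamI instI_mul TrigP sig2 SW win_upper win_lower)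

/-- the functions `r x * x ^ (n + 1) + c n` on an open set within `ρ` of `x₀`, or `x * x₀ ^ (n + 1) + c n` on an open set -/
def IsFamR (x₀ ρ : ℝ) (O : Set ℝ) (u : ℕ → ℝ → ℝ) : Prop :=
  IsOpen O ∧ O.Nonempty ∧ ∃ c : ℕ → ℝ,
    ((∃ r : ℝ → ℝ, ContDiffOn ℝ 2 r O ∧ (∀ x ∈ O, 0 < r x) ∧ O ⊆ Ioo (x₀ - ρ) (x₀ + ρ) ∧
        u = fun n x => r x * x ^ (n + 1) + c n) ∨
      u = fun n x => x * x₀ ^ (n + 1) + c n)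

theorem IsFamR.mono {x₀ ρ ρ' : ℝ} {O : Set ℝ} {u : ℕ → ℝ → ℝ} (h : IsFamR x₀ ρ O u) (hρ : ρ ≤ ρ') :
    IsFamR x₀ ρ' O u := by
  obtain ⟨h1, h2, c, h3⟩ := h
  refine ⟨h1, h2, c, ?_⟩
  rcases h3 with ⟨r, hr, hr0, hO, hu⟩ | hu
  · exact Or.inl ⟨r, hr, hr0, hO.trans (Ioo_subset_Ioo (by linarith) (by linarith)), hu⟩
  · exact Or.inr hu

/-- the local families -/
theorem isFamR_loc {x₀ β₁ β₂ τ : ℝ} (hx₀ : 1 < x₀) (hβ : 1 < β₁) (h₁ : β₁ < x₀) (h₂ : x₀ < β₂) (hτ : 0 < τ) (D : ℕ) :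
    ∃ ρ₀ : ℝ, 0 < ρ₀ ∧ ∀ (O : Set ℝ) (u : ℕ → ℝ → ℝ), IsFamR x₀ ρ₀ O u →
      LocFam u O (fun d => x₀ ^ d) D τ β₁ β₂ ∧ LocFamI u O (fun d => x₀ ^ d) D τ β₁ β₂ := by
  obtain ⟨ρ₀, hρ₀, hpow⟩ := instG_pow hx₀ hβ h₁ h₂ hτ D
  refine ⟨ρ₀, hρ₀, ?_⟩
  rintro O u ⟨hO, hne, c, ⟨r, hr, hr0, hsub, rfl⟩ | rfl⟩
  · exact hpow O r hO hsub hr hr0 c
  · exact ⟨fun x _ => inst_mul hx₀ hβ h₁ h₂ hτ D c x (mem_univ x), fun x _ => instI_mul hx₀ hβ h₁ h₂ hτ D c x (mem_univ x)⟩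

/-- dimensions near the base `x₀`: for small `δ` the set where the lower limit of `F` is at least `δ` and the set where
the upper limit is at least `δ` have the codimension `κ δ ^ 2`, up to a factor close to one -/
def RateNear (x₀ κ : ℝ) (F : (ℕ → ℝ) → ℕ → ℝ) : Prop :=
  ∀ ε : ℝ, 0 < ε → ∃ δ₀ : ℝ, 0 < δ₀ ∧ ∃ ρ₀ : ℝ, 0 < ρ₀ ∧ ∀ (O : Set ℝ) (u : ℕ → ℝ → ℝ), IsFamR x₀ ρ₀ O u →
    ∀ δ : ℝ, 0 < δ → δ ≤ δ₀ → DimBetween O (fun x => F (fun n => u n x)) δ ((1 - ε) * κ) ((1 + ε) * κ)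

theorem assembleR {x₀ κ : ℝ} (hx₀ : 1 < x₀) (F : (ℕ → ℝ) → ℕ → ℝ) (c : ℝ → ℝ × ℝ)
    (P : (ℕ → ℝ → ℝ) → Set ℝ → ℕ → ℝ → ℝ → ℝ → Prop)
    (hP : ∀ (β₁ β₂ τ : ℝ) (D : ℕ), 1 < β₁ → β₁ < x₀ → x₀ < β₂ → 0 < τ →
      ∃ ρ₀ : ℝ, 0 < ρ₀ ∧ ∀ (O : Set ℝ) (u : ℕ → ℝ → ℝ), IsFamR x₀ ρ₀ O u → P u O D τ β₁ β₂)
    (hup : ∀ ε : ℝ, 0 < ε → ε ≤ 1 → ∃ (D : ℕ) (τ β₁ β₂ δ₀ : ℝ), 0 < τ ∧ 1 < β₁ ∧ β₁ < x₀ ∧ x₀ < β₂ ∧ 0 < δ₀ ∧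
      ∀ δ : ℝ, 0 < δ → δ ≤ δ₀ → ∀ (U : ℕ → ℝ → ℝ) (G : Set ℝ), P U G D τ β₁ β₂ →
      dimH {x | x ∈ G ∧ δ ≤ limsup (F (fun n => U n x)) atTop} ≤ ENNReal.ofReal (1 - (c ε).1 * δ ^ 2))
    (hlo : ∀ ε : ℝ, 0 < ε → ε ≤ 1 → ∃ (D : ℕ) (τ β₁ β₂ δ₀ : ℝ), 0 < τ ∧ 1 < β₁ ∧ β₁ < x₀ ∧ x₀ < β₂ ∧ 0 < δ₀ ∧
      ∀ δ : ℝ, 0 < δ → δ ≤ δ₀ → ∀ (U : ℕ → ℝ → ℝ) (G : Set ℝ), P U G D τ β₁ β₂ →
      ∀ O : Set ℝ, IsOpen O → O.Nonempty → O ⊆ G →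
      ENNReal.ofReal (1 - (c ε).2 * δ ^ 2) ≤ dimH {x | x ∈ O ∧ δ ≤ liminf (F (fun n => U n x)) atTop})
    (hc : ∀ ε : ℝ, 0 < ε → (1 - ε) * κ ≤ (c (min ε 1)).1 ∧ (c (min ε 1)).2 ≤ (1 + ε) * κ) : RateNear x₀ κ F := by
  intro ε hε
  obtain ⟨D, τ, β₁, β₂, δ₁, hτ, hb1, hb2, hb3, hδ₁, hup'⟩ := hup (min ε 1) (by positivity) (min_le_right _ _)
  obtain ⟨D', τ', β₁', β₂', δ₂, hτ', hb1', hb2', hb3', hδ₂, hlo'⟩ := hlo (min ε 1) (by positivity) (min_le_right _ _)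
  obtain ⟨ρ₁, hρ₁, hf1⟩ := hP β₁ β₂ τ D hb1 hb2 hb3 hτ
  obtain ⟨ρ₂, hρ₂, hf2⟩ := hP β₁' β₂' τ' D' hb1' hb2' hb3' hτ'
  refine ⟨min δ₁ δ₂, by positivity, min ρ₁ ρ₂, by positivity, fun O u hu δ hδ hδδ => ⟨?_, ?_⟩⟩
  · have hloc := hf2 O u (hu.mono (min_le_right _ _))
    refine (ENNReal.ofReal_le_ofReal ?_).trans
      (hlo' δ hδ (hδδ.trans (min_le_right _ _)) u O hloc O hu.1 hu.2.1 Subset.rfl)
    have := mul_le_mul_of_nonneg_right (hc ε hε).2 (sq_nonneg δ)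
    linarith
  · have hloc := hf1 O u (hu.mono (min_le_left _ _))
    refine (hup' δ hδ (hδδ.trans (min_le_left _ _)) u O hloc).trans (ENNReal.ofReal_le_ofReal ?_)
    have := mul_le_mul_of_nonneg_right (hc ε hε).1 (sq_nonneg δ)
    linarith

theorem hPL {x₀ : ℝ} (hx₀ : 1 < x₀) : ∀ (β₁ β₂ τ : ℝ) (D : ℕ), 1 < β₁ → β₁ < x₀ → x₀ < β₂ → 0 < τ →
    ∃ ρ₀ : ℝ, 0 < ρ₀ ∧ ∀ (O : Set ℝ) (u : ℕ → ℝ → ℝ), IsFamR x₀ ρ₀ O u → LocFam u O (fun d => x₀ ^ d) D τ β₁ β₂ := by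
  intro β₁ β₂ τ D h1 h2 h3 h4
  obtain ⟨ρ₀, hρ₀, h⟩ := isFamR_loc hx₀ h1 h2 h3 h4 D
  exact ⟨ρ₀, hρ₀, fun O u hu => (h O u hu).1⟩

theorem hPI {x₀ : ℝ} (hx₀ : 1 < x₀) : ∀ (β₁ β₂ τ : ℝ) (D : ℕ), 1 < β₁ → β₁ < x₀ → x₀ < β₂ → 0 < τ →
    ∃ ρ₀ : ℝ, 0 < ρ₀ ∧ ∀ (O : Set ℝ) (u : ℕ → ℝ → ℝ), IsFamR x₀ ρ₀ O u → LocFamI u O (fun d => x₀ ^ d) D τ β₁ β₂ := by
  intro β₁ β₂ τ D h1 h2 h3 h4
  obtain ⟨ρ₀, hρ₀, h⟩ := isFamR_loc hx₀ h1 h2 h3 h4 D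
  exact ⟨ρ₀, hρ₀, fun O u hu => (h O u hu).2⟩

/-- Weyl sums, every base -/
theorem near_weyl {x₀ : ℝ} (hx₀ : 1 < x₀) : RateNear x₀ (1 / Real.log x₀)
    (fun w N => ‖∑ n ∈ Finset.range N, Complex.exp (2 * Real.pi * Complex.I * (w n : ℝ))‖ / N) := by
  have hlx := Real.log_pos hx₀
  refine assembleR hx₀ _ (fun ε => ((1 - ε) / Real.log x₀, (1 + ε) / Real.log x₀))
    (fun u O D τ β₁ β₂ => LocFamI u O (fun d => x₀ ^ d) D τ β₁ β₂) (hPI hx₀) (fun ε h0 h1 => ?_) (fun ε h0 h1 => ?_)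
    (fun ε hε => ⟨?_, ?_⟩)
  · obtain ⟨β₁, β₂, δ₀, hb1, hb2, hb3, hδ₀, h⟩ := weylI_upper hx₀ h0 h1
    exact ⟨0, 1, β₁, β₂, δ₀, one_pos, hb1, hb2, hb3, hδ₀, fun δ hδ hδδ U G hloc => h δ hδ hδδ U G hloc⟩
  · obtain ⟨β₁, β₂, δ₀, hb1, hb2, hb3, hδ₀, h⟩ := weylI_lower hx₀ h0 h1
    exact ⟨0, 1, β₁, β₂, δ₀, one_pos, hb1, hb2, hb3, hδ₀, fun δ hδ hδδ U G hloc O h1 h2 h3 => h δ hδ hδδ U G hloc O h1 h2 h3⟩
  · show (1 - ε) * (1 / Real.log x₀) ≤ (1 - min ε 1) / Real.log x₀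
    rw [mul_one_div]
    apply div_le_div_of_nonneg_right _ hlx.le
    linarith [min_le_left ε 1]
  · show (1 + min ε 1) / Real.log x₀ ≤ (1 + ε) * (1 / Real.log x₀)
    rw [mul_one_div]
    apply div_le_div_of_nonneg_right _ hlx.le
    linarith [min_le_left ε 1]

/-- discrepancy, bases with irrational powers -/
theorem near_disc {x₀ : ℝ} (hx₀ : 1 < x₀) (hirr : ∀ k : ℕ, 1 ≤ k → Irrational (x₀ ^ k)) :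
    RateNear x₀ (2 / Real.log x₀) disc := by
  have hlx := Real.log_pos hx₀
  refine assembleR hx₀ _ (fun ε => ((2 - ε) / Real.log x₀, (2 + ε) / Real.log x₀))
    (fun u O D τ β₁ β₂ => LocFam u O (fun d => x₀ ^ d) D τ β₁ β₂) (hPL hx₀) (fun ε h0 h1 => disc_upper hx₀ hirr h0 h1)
    (fun ε h0 h1 => disc_lower hx₀ hirr h0 h1) (fun ε hε => ⟨?_, ?_⟩)
  · show (1 - ε) * (2 / Real.log x₀) ≤ (2 - min ε 1) / Real.log x₀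
    rw [mul_div_assoc']
    apply div_le_div_of_nonneg_right _ hlx.le
    nlinarith [min_le_left ε 1]
  · show (2 + min ε 1) / Real.log x₀ ≤ (1 + ε) * (2 / Real.log x₀)
    rw [mul_div_assoc']
    apply div_le_div_of_nonneg_right _ hlx.le
    nlinarith [min_le_left ε 1]

/-- means of a Lipschitz function, bases with irrational powers -/
theorem near_mean {x₀ : ℝ} (hx₀ : 1 < x₀) (hirr : ∀ k : ℕ, 1 ≤ k → Irrational (x₀ ^ k)) {φ : ℝ → ℝ} {K σ : ℝ}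
    (hper : ∀ t, φ (t + 1) = φ t) (hlip : ∀ s t, |φ s - φ t| ≤ K * |s - t|) (hmean : ∫ t in (0 : ℝ)..1, φ t = 0)
    (hσ : ∫ t in (0 : ℝ)..1, φ t ^ 2 = σ) (hσ0 : 0 < σ) :
    RateNear x₀ (1 / (2 * σ * Real.log x₀)) (fun w N => (∑ n ∈ Finset.range N, φ (w n)) / N) := by
  have hlx := Real.log_pos hx₀
  have hpos : 0 < 2 * σ * Real.log x₀ := by positivity
  refine assembleR hx₀ _ (fun ε => ((1 - ε) / (2 * σ * Real.log x₀), (1 + ε) / (2 * σ * Real.log x₀)))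
    (fun u O D τ β₁ β₂ => LocFam u O (fun d => x₀ ^ d) D τ β₁ β₂) (hPL hx₀)
    (fun ε h0 h1 => mean_upper hx₀ hirr hper hlip hmean hσ hσ0 h0 h1)
    (fun ε h0 h1 => mean_lower hx₀ hirr hper hlip hmean hσ hσ0 h0 h1) (fun ε hε => ⟨?_, ?_⟩)
  · show (1 - ε) * (1 / (2 * σ * Real.log x₀)) ≤ (1 - min ε 1) / (2 * σ * Real.log x₀)
    rw [mul_one_div]
    apply div_le_div_of_nonneg_right _ hpos.le
    linarith [min_le_left ε 1]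
  · show (1 + min ε 1) / (2 * σ * Real.log x₀) ≤ (1 + ε) * (1 / (2 * σ * Real.log x₀))
    rw [mul_one_div]
    apply div_le_div_of_nonneg_right _ hpos.le
    linarith [min_le_left ε 1]

/-- means of a trigonometric polynomial of several variables along windows, transcendental bases -/
theorem near_win {x₀ : ℝ} (hx₀ : 1 < x₀) (htr : Transcendental ℤ x₀) (k : ℕ) (Φ : (Fin k → ℝ) → ℝ)
    (S : Finset (Fin k → ℤ)) (z : (Fin k → ℤ) → ℂ) (hS : 0 ∉ S) (hΦ : TrigP k Φ S z)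
    {σ : ℝ} (hσ : sig2 k Φ = σ) (hσ0 : 0 < σ) :
    RateNear x₀ (1 / (2 * σ * Real.log x₀)) (fun w N => (∑ n ∈ Finset.range N, Φ (fun i : Fin k => w (n + i))) / N) := by
  have hlx := Real.log_pos hx₀
  have hpos : 0 < 2 * σ * Real.log x₀ := by positivity
  refine assembleR hx₀ _ (fun ε => ((1 - ε) / (2 * σ * Real.log x₀), (1 + ε) / (2 * σ * Real.log x₀)))
    (fun u O D τ β₁ β₂ => LocFamI u O (fun d => x₀ ^ d) D τ β₁ β₂) (hPI hx₀)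
    (fun ε h0 h1 => win_upper hx₀ htr k Φ S z hS hΦ hσ hσ0 h0 h1)
    (fun ε h0 h1 => win_lower hx₀ htr k Φ S z hS hΦ hσ hσ0 h0 h1) (fun ε hε => ⟨?_, ?_⟩)
  · show (1 - ε) * (1 / (2 * σ * Real.log x₀)) ≤ (1 - min ε 1) / (2 * σ * Real.log x₀)
    rw [mul_one_div]
    apply div_le_div_of_nonneg_right _ hpos.le
    linarith [min_le_left ε 1]
  · show (1 + min ε 1) / (2 * σ * Real.log x₀) ≤ (1 + ε) * (1 / (2 * σ * Real.log x₀))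
    rw [mul_one_div]
    apply div_le_div_of_nonneg_right _ hpos.le
    linarith [min_le_left ε 1]

end Pool.Agent.Helper78.KD
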