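import Pool.Agent.Helper78.KD.Upper
import Pool.Agent.Helper78.KD.K9a
import Pool.Agent.Helper41.KD.Osc
import Pool.Agent.Helper18.KD.Irr
import Pool.Agent.Helper18.KD.LowerTree
import Pool.Agent.Helper44.KD.BlockVar
import Pool.Agent.Helper44.KD.ExpMoment
import Pool.Agent.Helper44.KD.Three2
import Pool.Agent.Helper53.KD.K3
import Pool.Agent.Helper80.KD.Inst
import Pool.Agent.Helper67.KD.Disc

/-! The parts of the proof. -/
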