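import Pool.Agent.Helper78.KD.Blocks

/-!
# Exponential moments of the averages along the tree of a family
-/

set_option autoImplicit false

namespace Pool.Agent.Helper78.KD

open MeasureTheory Set Filter Topology
open Pool.Agent.Helper41.KD (Mv_add Mv_osc)
open Pool.Agent.Helper44.KD (exp_moment)

namespace Tr

variable (T : Tr)

theorem t_mono (k : ℕ) {i j : ℕ} (hij : i ≤ j) (hj : j ≤ T.N k) : T.t k i ≤ T.t k j := by
  induction j, hij using Nat.le_induction with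
  | base => exact le_rfl
  | succ n hn ih => exact (ih (by omega)).trans (T.lt k n (by omega)).le

theorem J_mono (k : ℕ) {i j : ℕ} (hij : i ≤ j) (hj : j ≤ T.N k) : T.J k i ≤ T.J k j := by
  induction j, hij using Nat.le_induction with
  | base => exact le_rfl
  | succ n hn ih => exact (ih (by omega)).trans (T.Jlt k n (by omega)).le

theorem J_le (k : ℕ) {i : ℕ} (hi : i ≤ T.N k) : T.J k i ≤ T.N (k + 1) := by
  rw [← T.JN k]
  exact T.J_mono k hi le_rfl

theorem ch_lt (k : ℕ) {i j : ℕ} (hi : i < T.N k) (hj : j ∈ T.ch k i) : j < T.N (k + 1) := by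
  rw [ch, Finset.mem_Ico] at hj
  exact lt_of_lt_of_le hj.2 (T.J_le k hi)

/-- endpoints of the children -/
theorem ch_mem (k : ℕ) {i j : ℕ} (hi : i < T.N k) (hj : j ∈ T.ch k i) :
    T.t k i ≤ T.t (k + 1) j ∧ T.t (k + 1) (j + 1) ≤ T.t k (i + 1) := by
  rw [ch, Finset.mem_Ico] at hj
  have h1 := T.J_le k (i := i + 1) hi
  constructor
  · rw [← T.ref k i hi.le]
    exact T.t_mono (k + 1) hj.1 (by omega)
  · rw [← T.ref k (i + 1) hi]
    exact T.t_mono (k + 1) (by omega) h1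

theorem ch_sum_len (k : ℕ) {i : ℕ} (hi : i < T.N k) : ∑ j ∈ T.ch k i, T.len (k + 1) j = T.len k i := by
  unfold ch len
  rw [Finset.sum_Ico_sub _ (T.Jlt k i hi).le, T.ref k i hi.le, T.ref k (i + 1) hi]

end Tr

/-- the tree of a family with the step `L` -/
structure FT (T : Tr) (u : ℕ → ℝ → ℝ) (a b : ℝ) (L : ℕ) : Prop where
  t0 : T.t 0 0 = a
  t1 : T.t 0 1 = b
  mem : ∀ k i, i ≤ T.N k → T.t k i ∈ Icc a b
  cov : ∀ x ∈ Icc a b, ∀ k, ∃ i < T.N k, x ∈ T.cell k i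
  inc : ∀ k i, i < T.N k → 1 ≤ u (k * L) (T.t k (i + 1)) - u (k * L) (T.t k i) ∧
        u (k * L) (T.t k (i + 1)) - u (k * L) (T.t k i) ≤ 2

theorem Fam.cont_u {u v : ℕ → ℝ → ℝ} {a b β₁ β₂ : ℝ} (hF : Fam u v a b β₁ β₂) (n : ℕ) : ContinuousOn (u n) (Icc a b) :=
  fun x hx => (hF.deriv n x hx).continuousAt.continuousWithinAt

theorem Cls.cont {φ : ℝ → ℝ} {V K : ℝ} (hφ : Cls φ V K) : Continuous φ := by
  have hK : 0 ≤ K := by linarith [hφ.hK]
  have h1 : LipschitzWith K.toNNReal φ := by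
    refine LipschitzWith.of_dist_le_mul fun s t => ?_
    rw [Real.dist_eq, Real.dist_eq, Real.coe_toNNReal K hK]
    exact hφ.lip s t
  exact h1.continuous

theorem cont_block {u v : ℕ → ℝ → ℝ} {a b β₁ β₂ : ℝ} (hF : Fam u v a b β₁ β₂) {φ : ℝ → ℝ} {V K : ℝ}
    (hφ : Cls φ V K) (s : Finset ℕ) : ContinuousOn (fun x => ∑ j ∈ s, φ (u j x)) (Icc a b) :=
  continuousOn_finsetSum _ fun j _ => hφ.cont.comp_continuousOn (hF.cont_u j)

theorem sq_diff {X B r lam O : ℝ} (hlam : 0 < lam) (h : X = B + r) (hr : |r| ≤ O) :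
    |X ^ 2 - B ^ 2| ≤ lam * B ^ 2 + (1 / lam + 1) * O ^ 2 := by
  have h1 : X ^ 2 - B ^ 2 = 2 * B * r + r ^ 2 := by rw [h]; ring
  have h2 : |2 * B * r| ≤ lam * B ^ 2 + 1 / lam * r ^ 2 := by
    have h3 : 0 ≤ (lam * |B| - |r|) ^ 2 := sq_nonneg _
    have h4 : lam * (lam * B ^ 2 + 1 / lam * r ^ 2) = lam ^ 2 * B ^ 2 + r ^ 2 := by
      field_simp
    have h5 : |2 * B * r| = 2 * |B| * |r| := by rw [abs_mul, abs_mul, abs_two]
    have h6 : |B| ^ 2 = B ^ 2 := sq_abs B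
    have h7 : |r| ^ 2 = r ^ 2 := sq_abs r
    rw [h5]
    have h8 : lam * (2 * |B| * |r|) ≤ lam * (lam * B ^ 2 + 1 / lam * r ^ 2) := by
      rw [h4, ← h6, ← h7]
      nlinarith
    exact le_of_mul_le_mul_left h8 hlam
  have h3 : r ^ 2 ≤ O ^ 2 := by
    rw [← sq_abs r]
    exact pow_le_pow_left₀ (abs_nonneg r) hr 2
  have hl : 0 < 1 / lam := by positivity
  rw [h1]
  calc |2 * B * r + r ^ 2| ≤ |2 * B * r| + |r ^ 2| := abs_add_le _ _
    _ ≤ (lam * B ^ 2 + 1 / lam * r ^ 2) + r ^ 2 := by rw [abs_of_nonneg (sq_nonneg r)]; gcongr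
    _ ≤ _ := by nlinarith

/-- partial sums of a sequence of functions -/
noncomputable def SX (X : ℕ → ℝ → ℝ) (N : ℕ) (x : ℝ) : ℝ := ∑ n ∈ Finset.range N, X n x

/-- the second moment of the sum over the next `L` functions, on the intervals of level `n` -/
def BlockVarG (X : ℕ → ℝ → ℝ) (u : ℕ → ℝ → ℝ) (a b Q ε : ℝ) (L : ℕ) : Prop :=
  ∀ (n : ℕ) (p q : ℝ), a ≤ p → p < q → q ≤ b → 1 ≤ u n q - u n p → u n q - u n p ≤ 2 →
    |(∫ x in p..q, (∑ j ∈ Finset.Ico n (n + L), X j x) ^ 2) - Q * L * (q - p)| ≤ ε * L * (q - p)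

/-- observables `X n`, bounded by one, with an additive interval function `M` (times length) which is close to the
partial sums -/
structure Obs (u : ℕ → ℝ → ℝ) (a b : ℝ) (X : ℕ → ℝ → ℝ) (M : ℝ → ℝ → ℝ) (O : ℝ) : Prop where
  bd : ∀ n, ∀ x ∈ Icc a b, |X n x| ≤ 1
  cont : ∀ n, ContinuousOn (X n) (Icc a b)
  add : ∀ (t : ℕ → ℝ) (m : ℕ), (∀ i < m, t i < t (i + 1)) → a ≤ t 0 → t m ≤ b → 1 ≤ m →
    ∑ i ∈ Finset.range m, (t (i + 1) - t i) * M (t i) (t (i + 1)) = (t m - t 0) * M (t 0) (t m)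
  osc : ∀ (n : ℕ) (p q : ℝ), a ≤ p → p < q → q ≤ b → 1 ≤ u n q - u n p → u n q - u n p ≤ 2 → ∀ x ∈ Icc p q,
    |SX X n x - M p q| ≤ O

section

variable {u : ℕ → ℝ → ℝ} {a b : ℝ} {T : Tr} {L : ℕ} {X : ℕ → ℝ → ℝ} {M : ℝ → ℝ → ℝ} {O : ℝ}

/-- the averages -/
noncomputable def MM (M : ℝ → ℝ → ℝ) (T : Tr) (k i : ℕ) : ℝ := M (T.t k i) (T.t k (i + 1))

theorem MM_mean (hT : FT T u a b L) (hX : Obs u a b X M O) (k i : ℕ) (hi : i < T.N k) :
    ∑ j ∈ T.ch k i, T.len (k + 1) j * (MM M T (k + 1) j - MM M T k i) = 0 := by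
  have h1 := T.Jlt k i hi
  have h2 := T.J_le k (i := i + 1) hi
  have hadd := hX.add (fun r => T.t (k + 1) (T.J k i + r)) (T.J k (i + 1) - T.J k i)
    (fun r hr => T.lt (k + 1) _ (by omega)) (hT.mem _ _ (by omega)).1 (hT.mem _ _ (by omega)).2 (by omega)
  have e1 : T.J k i + (T.J k (i + 1) - T.J k i) = T.J k (i + 1) := by omega
  simp only [e1, add_zero] at hadd
  rw [T.ref k i hi.le, T.ref k (i + 1) hi] at hadd
  have h3 : ∑ j ∈ T.ch k i, T.len (k + 1) j * MM M T (k + 1) j = T.len k i * MM M T k i := by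
    unfold Tr.ch
    rw [Finset.sum_Ico_eq_sum_range]
    exact hadd
  simp only [mul_sub, Finset.sum_sub_distrib]
  rw [h3, ← Finset.sum_mul, T.ch_sum_len k hi, sub_self]

/-- the second moment of the increments -/
theorem MM_moments (hT : FT T u a b L) (hX : Obs u a b X M O) {Q ε : ℝ} (hε : 0 < ε) (hε1 : ε ≤ 1)
    (hQ1 : Q ≤ 1) (hO : 1 ≤ O) (hOL : 384 * O ^ 2 ≤ ε ^ 2 * L)
    (hvar : BlockVarG X u a b Q ε L) (k i : ℕ) (hi : i < T.N k) :
    (∀ j ∈ T.ch k i, |MM M T (k + 1) j - MM M T k i| ≤ 3 * L) ∧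
    |∑ j ∈ T.ch k i, T.len (k + 1) j * (MM M T (k + 1) j - MM M T k i) ^ 2 - Q * L * T.len k i| ≤
      2 * ε * L * T.len k i := by
  set n := k * L with hn
  have hn1 : (k + 1) * L = n + L := by rw [hn]; ring
  set B : ℝ → ℝ := fun x => ∑ j ∈ Finset.Ico n (n + L), X j x with hBdef
  have hSB : ∀ x, SX X (n + L) x = SX X n x + B x := by
    intro x
    simp only [SX, hBdef]
    rw [Finset.sum_range_add_sum_Ico _ (by omega)]
  have hBbd : ∀ x ∈ Icc a b, |B x| ≤ L := by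
    intro x hx
    refine (Finset.abs_sum_le_sum_abs _ _).trans ?_
    refine (Finset.sum_le_sum fun j _ => hX.bd j x hx).trans ?_
    simp
  have hmemi := hT.mem k i hi.le
  have hmemi1 := hT.mem k (i + 1) hi
  have hinc := hT.inc k i hi
  -- decomposition
  have hdec : ∀ j ∈ T.ch k i, ∀ x ∈ Icc (T.t (k + 1) j) (T.t (k + 1) (j + 1)),
      |(MM M T (k + 1) j - MM M T k i) - B x| ≤ 2 * O := by
    intro j hj x hx
    have hjN := T.ch_lt k hi hj
    have hcm := T.ch_mem k hi hj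
    have h1 := hX.osc ((k + 1) * L) (T.t (k + 1) j) (T.t (k + 1) (j + 1)) (hT.mem _ _ hjN.le).1 (T.lt _ _ hjN)
      (hT.mem _ _ hjN).2 (hT.inc _ _ hjN).1 (hT.inc _ _ hjN).2 x hx
    have h2 := hX.osc (k * L) (T.t k i) (T.t k (i + 1)) hmemi.1 (T.lt _ _ hi) hmemi1.2 hinc.1 hinc.2 x
      ⟨hcm.1.trans hx.1, hx.2.trans hcm.2⟩
    rw [hn1] at h1
    rw [hSB x] at h1
    have h3 : (MM M T (k + 1) j - MM M T k i) - B x =
        -((SX X n x + B x) - M (T.t (k + 1) j) (T.t (k + 1) (j + 1))) +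
          (SX X n x - M (T.t k i) (T.t k (i + 1))) := by
      unfold MM; ring
    rw [h3]
    refine (abs_add_le _ _).trans ?_
    rw [abs_neg]
    linarith
  have hLpos : (0 : ℝ) < L := by
    have h1 : 0 < ε ^ 2 * L := lt_of_lt_of_le (by positivity) hOL
    by_contra h
    push Not at h
    have : ε ^ 2 * (L : ℝ) ≤ 0 := mul_nonpos_of_nonneg_of_nonpos (by positivity) h
    linarith
  have hOL' : O ≤ L := by
    have h1 : ε ^ 2 ≤ 1 := by nlinarith
    nlinarith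
  constructor
  · intro j hj
    have hjN := T.ch_lt k hi hj
    have h1 := hdec j hj (T.t (k + 1) j) ⟨le_rfl, (T.lt _ _ hjN).le⟩
    have h2 := hBbd (T.t (k + 1) j) (hT.mem _ _ hjN.le)
    rw [abs_le] at h1 h2 ⊢
    constructor <;> linarith [h1.1, h1.2, h2.1, h2.2]
  -- second moment
  have hBc : ContinuousOn B (Icc a b) := continuousOn_finsetSum _ fun j _ => hX.cont j
  have hsub : ∀ j ∈ T.ch k i, Icc (T.t (k + 1) j) (T.t (k + 1) (j + 1)) ⊆ Icc a b := by
    intro j hj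
    have hjN := T.ch_lt k hi hj
    exact Icc_subset_Icc (hT.mem _ _ hjN.le).1 (hT.mem _ _ hjN).2
  have hint : ∀ j ∈ T.ch k i, IntervalIntegrable (fun x => B x ^ 2) volume (T.t (k + 1) j) (T.t (k + 1) (j + 1)) := by
    intro j hj
    have hjN := T.ch_lt k hi hj
    refine ContinuousOn.intervalIntegrable ?_
    rw [uIcc_of_le (T.lt _ _ hjN).le]
    exact (hBc.mono (hsub j hj)).pow 2
  have hsplit : ∑ j ∈ T.ch k i, ∫ x in T.t (k + 1) j..T.t (k + 1) (j + 1), B x ^ 2 =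
      ∫ x in T.t k i..T.t k (i + 1), B x ^ 2 := by
    unfold Tr.ch
    rw [intervalIntegral.sum_integral_adjacent_intervals_Ico (T.Jlt k i hi).le
      (fun j hj => hint j (by rw [Tr.ch, Finset.mem_Ico]; exact hj)), T.ref k i hi.le, T.ref k (i + 1) hi]
  have hlen0 := T.len_pos k i hi
  set lam := ε / 4 with hlam
  have hlam0 : 0 < lam := by positivity
  have hj : ∀ j ∈ T.ch k i, |T.len (k + 1) j * (MM M T (k + 1) j - MM M T k i) ^ 2 -
      ∫ x in T.t (k + 1) j..T.t (k + 1) (j + 1), B x ^ 2| ≤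
      lam * (∫ x in T.t (k + 1) j..T.t (k + 1) (j + 1), B x ^ 2) +
        (1 / lam + 1) * (2 * O) ^ 2 * T.len (k + 1) j := by
    intro j hj
    have hjN := T.ch_lt k hi hj
    set X := MM M T (k + 1) j - MM M T k i with hX
    have hle := (T.lt _ _ hjN).le
    have h1 : T.len (k + 1) j * X ^ 2 = ∫ x in T.t (k + 1) j..T.t (k + 1) (j + 1), X ^ 2 := by
      rw [intervalIntegral.integral_const, smul_eq_mul]; rfl
    have h2 : T.len (k + 1) j * X ^ 2 - ∫ x in T.t (k + 1) j..T.t (k + 1) (j + 1), B x ^ 2 =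
        ∫ x in T.t (k + 1) j..T.t (k + 1) (j + 1), (X ^ 2 - B x ^ 2) := by
      rw [h1, intervalIntegral.integral_sub intervalIntegrable_const (hint j hj)]
    have h3 : lam * (∫ x in T.t (k + 1) j..T.t (k + 1) (j + 1), B x ^ 2) +
        (1 / lam + 1) * (2 * O) ^ 2 * T.len (k + 1) j =
        ∫ x in T.t (k + 1) j..T.t (k + 1) (j + 1), (lam * B x ^ 2 + (1 / lam + 1) * (2 * O) ^ 2) := by
      rw [intervalIntegral.integral_add ((hint j hj).const_mul lam) intervalIntegrable_const,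
        intervalIntegral.integral_const_mul, intervalIntegral.integral_const, smul_eq_mul]
      unfold Tr.len
      ring
    rw [h2, h3]
    refine (intervalIntegral.abs_integral_le_integral_abs hle).trans ?_
    refine intervalIntegral.integral_mono_on hle ?_ ?_ fun x hx => ?_
    · exact (intervalIntegrable_const.sub (hint j hj)).abs
    · exact ((hint j hj).const_mul lam).add intervalIntegrable_const
    · refine sq_diff hlam0 (r := X - B x) (by ring) (hdec j hj x hx)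
  have hvarn := hvar n (T.t k i) (T.t k (i + 1)) hmemi.1 (T.lt _ _ hi) hmemi1.2 hinc.1 hinc.2
  have hlen : T.t k (i + 1) - T.t k i = T.len k i := rfl
  rw [hlen] at hvarn
  have hsumlen := T.ch_sum_len k hi
  have htot : |∑ j ∈ T.ch k i, T.len (k + 1) j * (MM M T (k + 1) j - MM M T k i) ^ 2 -
      ∫ x in T.t k i..T.t k (i + 1), B x ^ 2| ≤ lam * (∫ x in T.t k i..T.t k (i + 1), B x ^ 2) +
        (1 / lam + 1) * (2 * O) ^ 2 * T.len k i := by
    rw [← hsplit, ← Finset.sum_sub_distrib]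
    refine (Finset.abs_sum_le_sum_abs _ _).trans ((Finset.sum_le_sum hj).trans (le_of_eq ?_))
    rw [Finset.sum_add_distrib, ← Finset.mul_sum, ← Finset.mul_sum, hsumlen]
  set I2 := ∫ x in T.t k i..T.t k (i + 1), B x ^ 2 with hI2
  have hI2le : I2 ≤ 2 * L * T.len k i := by
    have h1 := (abs_le.1 hvarn).2
    have h2 : Q * L * T.len k i ≤ 1 * L * T.len k i := by gcongr
    have h3 : ε * L * T.len k i ≤ 1 * L * T.len k i := by gcongr
    linarith
  have hfin1 : lam * I2 ≤ ε / 2 * L * T.len k i := by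
    calc lam * I2 ≤ lam * (2 * L * T.len k i) := by gcongr
      _ = _ := by rw [hlam]; ring
  have hfin2 : (1 / lam + 1) * (2 * O) ^ 2 * T.len k i ≤ ε / 2 * L * T.len k i := by
    have h1 : 1 / lam + 1 ≤ 5 / ε := by
      rw [hlam]
      have h2 : 1 / (ε / 4) = 4 / ε := by field_simp
      rw [h2]
      have h3 : 1 ≤ 1 / ε := by rw [le_div_iff₀ hε]; linarith
      have h4 : 5 / ε = 4 / ε + 1 / ε := by ring
      linarith
    have h2 : (1 / lam + 1) * (2 * O) ^ 2 ≤ 5 / ε * (2 * O) ^ 2 := by gcongr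
    have h3 : 5 / ε * (2 * O) ^ 2 ≤ ε / 2 * L := by
      rw [div_mul_eq_mul_div, div_le_iff₀ hε]
      nlinarith
    exact mul_le_mul_of_nonneg_right (h2.trans h3) hlen0.le
  have hA := htot.trans (add_le_add hfin1 hfin2)
  calc _ = |(∑ j ∈ T.ch k i, T.len (k + 1) j * (MM M T (k + 1) j - MM M T k i) ^ 2 - I2) +
      (I2 - Q * L * T.len k i)| := by congr 1; ring
    _ ≤ (ε / 2 * L * T.len k i + ε / 2 * L * T.len k i) + ε * L * T.len k i :=
        (abs_add_le _ _).trans (add_le_add hA hvarn)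
    _ = _ := by ring

/-- exponential moments -/
theorem MM_mgf (hT : FT T u a b L) (hX : Obs u a b X M O) {Q ε θ : ℝ} (hε : 0 < ε) (hε1 : ε ≤ 1 / 2)
    (hQ0 : 0 ≤ Q) (hQ1 : Q ≤ 1) (hO : 1 ≤ O) (hOL : 384 * O ^ 2 ≤ ε ^ 2 * L)
    (hvar : BlockVarG X u a b Q ε L) (hθ : |θ| * (12 * L) ≤ ε) :
    T.MGFge (MM M T) θ ((Q - 4 * ε) * θ ^ 2 * L / 2) ∧ T.MGFle (MM M T) θ ((Q + 4 * ε) * θ ^ 2 * L / 2) := by
  have hL1 : (1 : ℝ) ≤ L := by
    have h1 : ε ^ 2 ≤ 1 := by nlinarith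
    nlinarith
  have key : ∀ k i, i < T.N k → T.len k i * Real.exp ((Q - 4 * ε) * θ ^ 2 * L / 2) ≤
      ∑ j ∈ T.ch k i, T.len (k + 1) j * Real.exp (θ * (MM M T (k + 1) j - MM M T k i)) ∧
      ∑ j ∈ T.ch k i, T.len (k + 1) j * Real.exp (θ * (MM M T (k + 1) j - MM M T k i)) ≤
      T.len k i * Real.exp ((Q + 4 * ε) * θ ^ 2 * L / 2) := by
    intro k i hi
    obtain ⟨h1, h2⟩ := MM_moments hT hX hε (by linarith) hQ1 hO hOL hvar k i hi
    have h3 := exp_moment (s := T.ch k i) (w := T.len (k + 1)) (X := fun j => MM M T (k + 1) j - MM M T k i)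
      (W := T.len k i) (B := 3 * L) (Q := Q) (ε := 2 * ε) (L := L) (θ := θ)
      (fun j hj => (T.len_pos _ _ (T.ch_lt k hi hj)).le) (T.ch_sum_len k hi) (T.len_pos k i hi)
      (MM_mean hT hX k i hi) h1 hQ0 hQ1 (by positivity) (by linarith) hL1 h2 (by linarith) (by linarith)
    have e1 : (Q - 2 * (2 * ε)) = Q - 4 * ε := by ring
    have e2 : (Q + 2 * (2 * ε)) = Q + 4 * ε := by ring
    rw [e1, e2] at h3
    exact h3
  exact ⟨fun k i hi => (key k i hi).1, fun k i hi => (key k i hi).2⟩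

end

end Pool.Agent.Helper78.KD
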