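import Pool.Agent.Helper78.KD.DevU

/-!
# Scaling
-/

set_option autoImplicit false

namespace Pool.Agent.Helper78.KD

open MeasureTheory Set Filter Topology

theorem Obs.mono {u : ℕ → ℝ → ℝ} {a b : ℝ} {X : ℕ → ℝ → ℝ} {M : ℝ → ℝ → ℝ} {O O' : ℝ} (h : Obs u a b X M O) (hO : O ≤ O') :
    Obs u a b X M O' :=
  ⟨h.bd, h.cont, h.add, fun n p q h1 h2 h3 h4 h5 x hx => (h.osc n p q h1 h2 h3 h4 h5 x hx).trans hO⟩

theorem SX_div (X : ℕ → ℝ → ℝ) (B : ℝ) (N : ℕ) (x : ℝ) : SX (fun n x => X n x / B) N x = SX X N x / B := by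
  unfold SX
  rw [Finset.sum_div]

theorem Obs.scale {u : ℕ → ℝ → ℝ} {a b : ℝ} {X : ℕ → ℝ → ℝ} {M : ℝ → ℝ → ℝ} {O B : ℝ} (h : Obs u a b X M O) (hB : 1 ≤ B)
    (hO : 0 ≤ O) : Obs u a b (fun n x => X n x / B) (fun p q => M p q / B) O := by
  have hB0 : 0 < B := by linarith
  refine ⟨fun n x hx => ?_, fun n => (h.cont n).div_const B, fun t m ht h0 hm hm1 => ?_, fun n p q h1 h2 h3 h4 h5 x hx => ?_⟩
  · rw [abs_div, abs_of_pos hB0, div_le_one hB0]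
    exact (h.bd n x hx).trans hB
  · have := h.add t m ht h0 hm hm1
    simp only [mul_div_assoc']
    rw [← Finset.sum_div, this]
  · rw [SX_div, ← sub_div, abs_div, abs_of_pos hB0, div_le_iff₀ hB0]
    refine (h.osc n p q h1 h2 h3 h4 h5 x hx).trans ?_
    exact le_mul_of_one_le_right hO hB

theorem BlockVarG.scale {X : ℕ → ℝ → ℝ} {u : ℕ → ℝ → ℝ} {a b Q ε B : ℝ} {L : ℕ} (h : BlockVarG X u a b Q ε L) (hB : 1 ≤ B)
    (hε : 0 ≤ ε) : BlockVarG (fun n x => X n x / B) u a b (Q / B ^ 2) ε L := by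
  have hB0 : 0 < B := by linarith
  intro n p q h1 h2 h3 h4 h5
  have h6 := h n p q h1 h2 h3 h4 h5
  have e1 : ∀ x, (∑ j ∈ Finset.Ico n (n + L), X j x / B) ^ 2 = (∑ j ∈ Finset.Ico n (n + L), X j x) ^ 2 / B ^ 2 := by
    intro x
    rw [← Finset.sum_div, div_pow]
  have e2 : (∫ x in p..q, (∑ j ∈ Finset.Ico n (n + L), X j x / B) ^ 2) =
      (∫ x in p..q, (∑ j ∈ Finset.Ico n (n + L), X j x) ^ 2) / B ^ 2 := by
    rw [← intervalIntegral.integral_div]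
    exact intervalIntegral.integral_congr fun x _ => e1 x
  rw [e2]
  have e3 : (∫ x in p..q, (∑ j ∈ Finset.Ico n (n + L), X j x) ^ 2) / B ^ 2 - Q / B ^ 2 * L * (q - p) =
      ((∫ x in p..q, (∑ j ∈ Finset.Ico n (n + L), X j x) ^ 2) - Q * L * (q - p)) / B ^ 2 := by
    field_simp
  have hB2 : (1 : ℝ) ≤ B ^ 2 := one_le_pow₀ hB
  rw [e3, abs_div, abs_of_pos (by positivity : (0 : ℝ) < B ^ 2), div_le_iff₀ (by positivity)]
  refine h6.trans ?_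
  have h7 : 0 ≤ ε * L * (q - p) := by
    have : 0 ≤ q - p := by linarith
    positivity
  exact le_mul_of_one_le_right h7 hB2

theorem log_mono_K {C K₀ m B : ℝ} (hC : 1 ≤ C) (hK₀ : 1 ≤ K₀) (hm : 0 < m) (hB : 1 ≤ B) :
    C * (1 + Real.log (K₀ / m)) ≤ C * (1 + Real.log (K₀ / (m / B))) := by
  have h1 : K₀ / m ≤ K₀ / (m / B) := by
    apply div_le_div_of_nonneg_left (by linarith) (by positivity)
    rw [div_le_iff₀ (by linarith)]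
    nlinarith
  have h2 : Real.log (K₀ / m) ≤ Real.log (K₀ / (m / B)) := Real.log_le_log (by positivity) h1
  gcongr

theorem dev_upper_s {β K₀ s ε C : ℝ} (hC1 : 1 ≤ C) (hβ : 1 < β) (hK₀ : 1 ≤ K₀) (hs : 0 < s) (hε : 0 < ε) (hε1 : ε ≤ 1) :
    ∃ ε' : ℝ, 0 < ε' ∧ ∀ L₀ : ℕ, ∃ δ₀ : ℝ, 0 < δ₀ ∧ δ₀ ≤ 1 ∧ ∀ m : ℝ, 0 < m → m ≤ δ₀ → ∃ L : ℕ, L₀ ≤ L ∧
      ∀ (u v : ℕ → ℝ → ℝ) (a b β₁ β₂ : ℝ), β ≤ β₁ → Fam u v a b β₁ β₂ → ∀ (X : ℕ → ℝ → ℝ)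
      (M : ℝ → ℝ → ℝ) (Q : ℝ), Obs u a b X M (C * (1 + Real.log (K₀ / m))) →
      0 ≤ Q → Q ≤ s → BlockVarG X u a b Q ε' L →
      dimH {x | x ∈ Icc a b ∧ ∃ᶠ N : ℕ in atTop, m * N ≤ SX X N x} ≤
        ENNReal.ofReal (1 - (1 - ε) * m ^ 2 / (2 * s * Real.log β₂)) := by
  set B := 1 + s with hB
  have hB1 : 1 ≤ B := by linarith
  have hB0 : 0 < B := by linarith
  have hsB : s / B ^ 2 ≤ 1 := by
    rw [div_le_one (by positivity), hB]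
    nlinarith
  obtain ⟨ε', hε', h⟩ := dev_upper_gen (s := s / B ^ 2) hC1 hβ hK₀ (by positivity) hsB hε hε1
  refine ⟨ε', hε', fun L₀ => ?_⟩
  obtain ⟨δ₀, h0, h1, h2⟩ := h L₀
  refine ⟨min 1 (δ₀ * B), by positivity, min_le_left _ _, fun m hm hmδ => ?_⟩
  have hmB : m / B ≤ δ₀ := by
    rw [div_le_iff₀ hB0]
    exact hmδ.trans (min_le_right _ _)
  have hm1 : m ≤ 1 := hmδ.trans (min_le_left _ _)
  obtain ⟨L, hL, h3⟩ := h2 (m / B) (by positivity) hmB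
  refine ⟨L, hL, fun u v a b β₁ β₂ hββ hF X M Q hX hQ0 hQs hvar => ?_⟩
  have hlog : 0 ≤ Real.log (K₀ / m) := Real.log_nonneg (by rw [le_div_iff₀ hm]; linarith)
  have hO : 0 ≤ C * (1 + Real.log (K₀ / m)) := by positivity
  have h4 := h3 u v a b β₁ β₂ hββ hF _ _ (Q / B ^ 2) ((hX.scale hB1 hO).mono (log_mono_K hC1 hK₀ hm hB1)) (by positivity)
    (by gcongr) (hvar.scale hB1 hε'.le)
  have h5 : (1 - ε) * (m / B) ^ 2 / (2 * (s / B ^ 2) * Real.log β₂) = (1 - ε) * m ^ 2 / (2 * s * Real.log β₂) := by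
    field_simp
  rw [h5] at h4
  refine le_trans (dimH_mono ?_) h4
  rintro x ⟨hx, hfr⟩
  refine ⟨hx, hfr.mono fun N hN => ?_⟩
  rw [SX_div, div_mul_eq_mul_div]
  exact div_le_div_of_nonneg_right hN hB0.le

theorem dev_lower_s {K₀ s S₀ ε C : ℝ} (hC1 : 1 ≤ C) (hK₀ : 1 ≤ K₀) (hs : 0 < s) (hsS : s ≤ S₀) (hε : 0 < ε) (hε1 : ε ≤ 1) :
    ∃ ε' : ℝ, 0 < ε' ∧ ∀ L₀ : ℕ, ∃ δ₀ : ℝ, 0 < δ₀ ∧ δ₀ ≤ 1 ∧ ∀ m : ℝ, 0 < m → m ≤ δ₀ → ∃ L : ℕ, L₀ ≤ L ∧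
      ∀ (u v : ℕ → ℝ → ℝ) (a b β₁ β₂ : ℝ), Fam u v a b β₁ β₂ → ∀ (X : ℕ → ℝ → ℝ)
      (M : ℝ → ℝ → ℝ) (Q : ℝ), Obs u a b X M (C * (1 + Real.log (K₀ / m))) →
      s ≤ Q → Q ≤ S₀ → BlockVarG X u a b Q ε' L →
      ENNReal.ofReal (1 - (1 + ε) * m ^ 2 / (2 * s * Real.log β₁)) ≤
        dimH {x | x ∈ Icc a b ∧ ∀ᶠ N : ℕ in atTop, m * N ≤ SX X N x} := by
  set B := 1 + S₀ with hB
  have hS0 : 0 < S₀ := hs.trans_le hsS
  have hB1 : 1 ≤ B := by linarith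
  have hB0 : 0 < B := by linarith
  have hSB : S₀ / B ^ 2 ≤ 1 := by
    rw [div_le_one (by positivity), hB]
    nlinarith
  have hsB : s / B ^ 2 ≤ 1 := (div_le_div_of_nonneg_right hsS (by positivity)).trans hSB
  obtain ⟨ε', hε', h⟩ := dev_lower_gen (s := s / B ^ 2) hC1 hK₀ (by positivity) hsB hε hε1
  refine ⟨ε', hε', fun L₀ => ?_⟩
  obtain ⟨δ₀, h0, h1, h2⟩ := h L₀
  refine ⟨min 1 (δ₀ * B), by positivity, min_le_left _ _, fun m hm hmδ => ?_⟩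
  have hmB : m / B ≤ δ₀ := by
    rw [div_le_iff₀ hB0]
    exact hmδ.trans (min_le_right _ _)
  have hm1 : m ≤ 1 := hmδ.trans (min_le_left _ _)
  obtain ⟨L, hL, h3⟩ := h2 (m / B) (by positivity) hmB
  refine ⟨L, hL, fun u v a b β₁ β₂ hF X M Q hX hsQ hQS hvar => ?_⟩
  have hlog : 0 ≤ Real.log (K₀ / m) := Real.log_nonneg (by rw [le_div_iff₀ hm]; linarith)
  have hO : 0 ≤ C * (1 + Real.log (K₀ / m)) := by positivity
  have h4 := h3 u v a b β₁ β₂ hF _ _ (Q / B ^ 2) ((hX.scale hB1 hO).mono (log_mono_K hC1 hK₀ hm hB1)) (by gcongr)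
    ((div_le_div_of_nonneg_right hQS (by positivity)).trans hSB) (hvar.scale hB1 hε'.le)
  have h5 : (1 + ε) * (m / B) ^ 2 / (2 * (s / B ^ 2) * Real.log β₁) = (1 + ε) * m ^ 2 / (2 * s * Real.log β₁) := by
    field_simp
  rw [h5] at h4
  refine h4.trans (dimH_mono ?_)
  rintro x ⟨hx, hev⟩
  refine ⟨hx, hev.mono fun N hN => ?_⟩
  rw [SX_div, div_mul_eq_mul_div] at hN
  exact (div_le_div_iff_of_pos_right hB0).1 hN

end Pool.Agent.Helper78.KD
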