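import Pool.Agent.Helper44.TX.Cov
import Pool.Agent.Helper78.KD.K9a

/-!
# The variance constant of a geometric progression
-/

set_option autoImplicit false

namespace Pool.Agent.Helper78.KD

open MeasureTheory Set Filter Topology

/-- centred indicator of the arc `[α, β)` -/
noncomputable def chi (α β t : ℝ) : ℝ := (if α ≤ Int.fract t ∧ Int.fract t < β then 1 else 0) - (β - α)

open Classical in
/-- the limit covariance of `φ (x)` and `φ (θ ^ d x)` for large `x`: zero if `θ ^ d` is irrational, and the mean of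
`φ (p t) φ (q t)` if `θ ^ d = p / q` in lowest terms -/
noncomputable def rho (θ : ℝ) (φ : ℝ → ℝ) (d : ℕ) : ℝ :=
  if h : ∃ r : ℚ, (r : ℝ) = θ ^ d then
    ∫ t in (0 : ℝ)..1, φ ((h.choose.num : ℝ) * t) * φ ((h.choose.den : ℝ) * t)
  else 0

/-- the limit variance of the sums of `φ (θ ^ n x)` -/
noncomputable def sig (θ : ℝ) (φ : ℝ → ℝ) : ℝ := rho θ φ 0 + 2 * ∑' d : ℕ, rho θ φ (d + 1)

/-- the largest limit variance of an arc -/
noncomputable def SigSq (θ : ℝ) : ℝ := sSup {r : ℝ | ∃ α β : ℝ, 0 ≤ α ∧ α < β ∧ β ≤ 1 ∧ r = sig θ (chi α β)}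

theorem rho_of_eq {θ : ℝ} (φ : ℝ → ℝ) {d : ℕ} {r : ℚ} (h : (r : ℝ) = θ ^ d) :
    rho θ φ d = ∫ t in (0 : ℝ)..1, φ ((r.num : ℝ) * t) * φ ((r.den : ℝ) * t) := by
  have h1 : ∃ r : ℚ, (r : ℝ) = θ ^ d := ⟨r, h⟩
  have h2 : h1.choose = r := by
    have h3 : (h1.choose : ℝ) = (r : ℝ) := by rw [h1.choose_spec, h]
    exact_mod_cast h3
  unfold rho
  rw [dif_pos h1, h2]

theorem rho_of_irr {θ : ℝ} (φ : ℝ → ℝ) {d : ℕ} (h : Irrational (θ ^ d)) : rho θ φ d = 0 := by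
  unfold rho
  rw [dif_neg]
  rintro ⟨r, hr⟩
  exact h ⟨r, hr⟩

theorem rho_zero (θ : ℝ) (φ : ℝ → ℝ) : rho θ φ 0 = ∫ t in (0 : ℝ)..1, φ t ^ 2 := by
  rw [rho_of_eq φ (r := 1) (by simp)]
  refine intervalIntegral.integral_congr fun t _ => ?_
  simp [sq]

end Pool.Agent.Helper78.KD
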