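import Pool.Agent.Helper78.KD.Near

/-!
# Bounded deviations
-/

set_option autoImplicit false

namespace Pool.Agent.Helper78.KD

open MeasureTheory Set Filter Topology
open Pool.Agent.Helper41.KD (bdd_lip dimH_le_one bounded_mul)
open Pool.Agent.Helper80.KD (instG_pow)

/-- the sequences `r x * x ^ n + c n`, in every interval -/
theorem bdd_powR {ι : Type} [Finite ι] (φ : ι → ℝ → ℝ) (hper : ∀ i t, φ i (t + 1) = φ i t)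
    (hlip : ∀ i, ∃ K : ℝ, ∀ s t, |φ i s - φ i t| ≤ K * |s - t|) (hmean : ∀ i, ∫ t in (0 : ℝ)..1, φ i t = 0)
    {O : Set ℝ} (hO : IsOpen O) (hne : O.Nonempty) (hO1 : O ⊆ Ioi 1) {r : ℝ → ℝ} (hr : ContDiffOn ℝ 2 r O)
    (hr0 : ∀ x ∈ O, 0 < r x) (c : ℕ → ℝ) :
    dimH {x | x ∈ O ∧ ∀ i, ∃ B : ℝ, ∀ N : ℕ, |∑ n ∈ Finset.range N, φ i (r x * x ^ (n + 1) + c n)| ≤ B} = 1 := by
  refine le_antisymm (dimH_le_one _) ?_
  obtain ⟨x₀, hx₀O, hx₀t⟩ := (Algebraic.countable ℚ ℝ).dense_compl ℝ |>.inter_open_nonempty _ hO hne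
  have hx₀ : 1 < x₀ := hO1 hx₀O
  have hirr : ∀ d, 1 ≤ d → Irrational (x₀ ^ d) := fun d hd => Pool.Agent.Helper18.KD.irr_of_transcendental hx₀t d hd
  obtain ⟨β₁, β₂, hb1, hb2, hb3, _, _⟩ := choose_bases hx₀ (η := 1 / 2) (by norm_num) (by norm_num)
  obtain ⟨D, τ, hτ, h⟩ := bdd_lip hirr hb1 φ hper hlip hmean
  obtain ⟨ρ₀, hρ₀, hinst⟩ := instG_pow hx₀ hb1 hb2 hb3 hτ D
  have hO' : IsOpen (O ∩ Ioo (x₀ - ρ₀) (x₀ + ρ₀)) := hO.inter isOpen_Ioo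
  have h1 := h _ _ β₁ β₂ le_rfl
    (hinst (O ∩ Ioo (x₀ - ρ₀) (x₀ + ρ₀)) r hO' inter_subset_right (hr.mono inter_subset_left) (fun x hx => hr0 x hx.1) c).1
    (O ∩ Ioo (x₀ - ρ₀) (x₀ + ρ₀)) hO' ⟨x₀, hx₀O, by constructor <;> linarith⟩ Subset.rfl
  refine h1.trans (dimH_mono ?_)
  rintro x ⟨hx, hB⟩
  exact ⟨hx.1, hB⟩

end Pool.Agent.Helper78.KD
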