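import Pool.Agent.Helper78.KD.DevS
import Pool.Agent.Helper78.KD.Glue
import Pool.Agent.Helper78.KD.Fin
import Pool.Agent.Helper4.KDF.F2
import Pool.Agent.Helper67.KD.F4
import Pool.Agent.Helper31.KD.F3
import Pool.Agent.Helper23.KD.F1

/-!
# The multiples of an arbitrary geometric progression
-/

set_option autoImplicit false

namespace Pool.Agent.Helper78.KD

open MeasureTheory Set Filter Topology H44TX
open Pool.Agent.Helper80.KD (inst_mul)
open Pool.Agent.Helper4.KDF (sig_close sig_le)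
open Pool.Agent.Helper67.KD (SigSq_ge SigSq_irr SigSq_three)
open Pool.Agent.Helper31.KD (chi_bv tr_bv tr_arc tr_below)
open Pool.Agent.Helper23.KD (block_all)

/-- around every point there are families -/
theorem theta_fam {θ β₁ β₂ : ℝ} (hθ : 1 < θ) (hb1 : 1 < β₁) (hb2 : β₁ < θ) (hb3 : θ < β₂) (x : ℝ) (O : Set ℝ)
    (hO : O ∈ 𝓝 x) : ∃ (n₀ : ℕ) (v : ℕ → ℝ → ℝ) (a b : ℝ), x ∈ Ioo a b ∧ Icc a b ⊆ O ∧
      Fam (fun (n : ℕ) (ξ : ℝ) => ξ * θ ^ (n + n₀ + 1)) v a b β₁ β₂ := by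
  obtain ⟨n₀, v, a, b, hxab, hsub, hF, -, -⟩ := inst_mul hθ hb1 hb2 hb3 one_pos 0 (fun _ => 0) x (mem_univ x) O hO 0 1 one_pos
  refine ⟨n₀, v, a, b, hxab, hsub, ?_⟩
  have hU : (fun n => (fun (n : ℕ) (ξ : ℝ) => ξ * θ ^ (n + 1) + (fun _ : ℕ => (0 : ℝ)) n) (n + n₀)) =
      fun (n : ℕ) (ξ : ℝ) => ξ * θ ^ (n + n₀ + 1) := by
    funext n ξ
    simp
  rw [← hU]
  exact hF

theorem sig_nonneg {θ : ℝ} (hθ : 1 < θ) {φ : ℝ → ℝ} (h : IsBV φ) : 0 ≤ sig θ φ := by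
  by_contra hcon
  push Not at hcon
  obtain ⟨L₀, hL₀⟩ := block_all hθ (show (0 : ℝ) < -sig θ φ / 2 by linarith)
  obtain ⟨β₁, β₂, hb1, hb2, hb3, -, -⟩ := choose_bases hθ (show (0 : ℝ) < 1 / 2 by norm_num) le_rfl
  obtain ⟨n₀, v, a, b, hab, -, hF⟩ := theta_fam hθ hb1 hb2 hb3 0 univ univ_mem
  have h1 := hL₀ φ h (max L₀ 1) (le_max_left _ _) n₀ a b 0 a b le_rfl hF.hab le_rfl hF.root.1 hF.root.2
  have h2 : 0 ≤ ∫ x in a..b, (∑ j ∈ Finset.Ico 0 (0 + max L₀ 1), φ ((fun (n : ℕ) (ξ : ℝ) => ξ * θ ^ (n + n₀ + 1)) j x)) ^ 2 :=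
    intervalIntegral.integral_nonneg hF.hab.le fun x _ => sq_nonneg _
  have h3 := (abs_le.1 h1).2
  have h4 : (1 : ℝ) ≤ (max L₀ 1 : ℕ) := by exact_mod_cast le_max_right L₀ 1
  have h5 : 0 < b - a := sub_pos.2 hF.hab
  have h6 : 0 < ((max L₀ 1 : ℕ) : ℝ) * (b - a) := by positivity
  nlinarith

theorem sig_neg (θ : ℝ) (φ : ℝ → ℝ) : sig θ (fun t => -φ t) = sig θ φ := by
  unfold sig rho
  simp only [neg_mul_neg]

theorem SigSq_bdd {θ : ℝ} (hθ : 1 < θ) : BddAbove {r : ℝ | ∃ α β : ℝ, 0 ≤ α ∧ α < β ∧ β ≤ 1 ∧ r = sig θ (chi α β)} := by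
  refine ⟨10 * θ / (θ - 1), ?_⟩
  rintro r ⟨α, β, h0, h1, h2, rfl⟩
  exact (abs_le.1 (sig_le hθ (chi_bv h0 h1 h2))).2

theorem sig_le_SigSq {θ : ℝ} (hθ : 1 < θ) {α β : ℝ} (h0 : 0 ≤ α) (h1 : α < β) (h2 : β ≤ 1) : sig θ (chi α β) ≤ SigSq θ :=
  le_csSup (SigSq_bdd hθ) ⟨α, β, h0, h1, h2, rfl⟩

/-- the variance of every trapezoid is at most the constant, up to an error -/
theorem sig_tr_le {θ ε : ℝ} (hθ : 1 < θ) (hε : 0 < ε) : ∃ η₀ : ℝ, 0 < η₀ ∧ η₀ ≤ 1 ∧ ∀ η : ℝ, 0 < η → η ≤ η₀ → ∀ h y : ℝ,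
    sig θ (tr η h y) ≤ SigSq θ + ε := by
  obtain ⟨η₁, hη₁, hcl⟩ := sig_close hθ hε
  refine ⟨min 1 (η₁ / 2), by positivity, min_le_left _ _, fun η h0 hη h y => ?_⟩
  have h1 : η ≤ 1 := hη.trans (min_le_left _ _)
  have h2 : 2 * η ≤ η₁ := by
    have := hη.trans (min_le_right _ _)
    linarith
  have hbv := tr_bv h0 h1 h y
  obtain ⟨α, β, ha, hab, hb, hc | hc⟩ := tr_arc h0 h1 h y
  · have h3 := hcl _ _ hbv (chi_bv ha hab hb) (hc.trans h2)
    have h4 := sig_le_SigSq hθ ha hab hb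
    have h5 := (abs_le.1 h3).2
    linarith
  · have hbv' : IsBV (fun t => -tr η h y t) := by
      obtain ⟨s₁, s₂, l1, l2, c, hc'⟩ := hbv.ex
      refine ⟨⟨s₂, s₁, l2, l1, -c, fun t => by rw [hc' t]; ring⟩, fun t => by rw [abs_neg]; exact hbv.bdd t, ?_⟩
      rw [intervalIntegral.integral_neg, hbv.mean, neg_zero]
    have h3 := hcl _ _ hbv' (chi_bv ha hab hb) (hc.trans h2)
    have h4 := sig_le_SigSq hθ ha hab hb
    have h5 := (abs_le.1 h3).2
    rw [sig_neg] at h5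
    linarith

/-- some trapezoid has almost the largest variance -/
theorem sig_tr_ge {θ ε : ℝ} (hθ : 1 < θ) (hε : 0 < ε) : ∃ (α β η₀ : ℝ), 0 ≤ α ∧ α < β ∧ β ≤ 1 ∧ 0 < η₀ ∧ η₀ ≤ 1 ∧
    ∀ η : ℝ, 0 < η → η ≤ η₀ → SigSq θ - ε ≤ sig θ (tr η (β - α - η) (-β + η)) := by
  have hne : {r : ℝ | ∃ α β : ℝ, 0 ≤ α ∧ α < β ∧ β ≤ 1 ∧ r = sig θ (chi α β)}.Nonempty :=
    ⟨_, 0, 1, le_rfl, zero_lt_one, le_rfl, rfl⟩
  obtain ⟨r, ⟨α, β, ha, hab, hb, rfl⟩, hr⟩ := exists_lt_of_lt_csSup hne (show SigSq θ - ε / 2 < sSup _ by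
    unfold SigSq; linarith)
  obtain ⟨η₁, hη₁, hcl⟩ := sig_close hθ (show 0 < ε / 2 by positivity)
  refine ⟨α, β, min 1 (η₁ / 3), ha, hab, hb, by positivity, min_le_left _ _, fun η h0 hη => ?_⟩
  have h1 : η ≤ 1 := hη.trans (min_le_left _ _)
  have h2 : 3 * η ≤ η₁ := by
    have := hη.trans (min_le_right _ _)
    linarith
  have h3 := hcl _ _ (tr_bv h0 h1 _ _) (chi_bv ha hab hb) ((tr_below h0 h1 ha hab hb).1.trans h2)
  have h4 := (abs_le.1 h3).1
  linarith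

theorem theta_upper {θ : ℝ} (hθ : 1 < θ) {ε : ℝ} (hε : 0 < ε) (hε1 : ε ≤ 1) : ∃ δ₀ : ℝ, 0 < δ₀ ∧ ∀ δ : ℝ, 0 < δ → δ ≤ δ₀ →
    dimH {ξ | δ ≤ limsup (fun N => disc (fun n => ξ * θ ^ (n + 1)) N) atTop} ≤
      ENNReal.ofReal (1 - (1 - ε) / (2 * SigSq θ * Real.log θ) * δ ^ 2) := by
  set σ := SigSq θ with hσ
  have hσ4 : 1 / 4 ≤ σ := SigSq_ge hθ
  have hσ0 : 0 < σ := by linarith
  set e := ε / 32 with he
  have he0 : 0 < e := by positivity
  have he1 : e ≤ 1 / 32 := by rw [he]; linarith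
  have hlx := Real.log_pos hθ
  obtain ⟨β₁, β₂, hb1, hb2, hb3, hb4, hb5⟩ := choose_bases hθ he0 (by linarith)
  obtain ⟨C, hC1, hobs⟩ := obs_of_cls hb1
  obtain ⟨ε', hε', hdev⟩ := dev_upper_s (β := β₁) (K₀ := 2 / e) (s := σ * (1 + e)) (ε := e) hC1 hb1
    (by rw [le_div_iff₀ he0]; linarith) (by positivity) he0 (by linarith)
  obtain ⟨L₀, hL₀⟩ := block_all hθ hε'
  obtain ⟨δ₁, hδ₁, hδ₁1, hmain⟩ := hdev L₀
  obtain ⟨η₀, hη₀, hη₀1, hsig⟩ := sig_tr_le hθ (show 0 < σ * e by positivity)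
  refine ⟨min δ₁ η₀, by positivity, fun δ hδ hδδ => ?_⟩
  have hδ2 : δ ≤ δ₁ := hδδ.trans (min_le_left _ _)
  have hδ3 : δ ≤ η₀ := hδδ.trans (min_le_right _ _)
  have hδ1 : δ ≤ 1 := hδ2.trans hδ₁1
  set η := e * δ with hη
  have hη0 : 0 < η := by positivity
  have hηδ : η ≤ δ := by rw [hη]; nlinarith
  have hη1 : η ≤ 1 := by linarith
  obtain ⟨F, hF⟩ := disc_grid hη0 hη1
  set m := (1 - 6 * e) * δ with hm
  have h16 : 0 < 1 - 6 * e := by linarith
  have hm0 : 0 < m := by positivity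
  have hmδ : m ≤ δ := by rw [hm]; nlinarith
  obtain ⟨L, hL, hfam⟩ := hmain m hm0 (hmδ.trans hδ2)
  set U : ℕ → ℝ → ℝ := fun n ξ => ξ * θ ^ (n + 1) with hU
  set Φ : (ℝ × ℝ) × Bool → ℝ → ℝ := fun w t => if w.2 then tr η w.1.1 w.1.2 t else - tr η w.1.1 w.1.2 t with hΦ
  have hcls : ∀ w, Cls (Φ w) 1 (2 / e / m) := by
    intro w
    have h1 : 2 / η ≤ 2 / e / m := by
      rw [div_div, hη]
      apply div_le_div_of_nonneg_left (by norm_num) (by positivity)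
      gcongr
    rcases w with ⟨z, b⟩
    cases b
    · have := ((tr_cls hη0 hη1 z.1 z.2).mono h1).neg
      simpa [hΦ] using this
    · have := (tr_cls hη0 hη1 z.1 z.2).mono h1
      simpa [hΦ] using this
  have hbv : ∀ w, IsBV (Φ w) := by
    intro w
    have hb := tr_bv hη0 hη1 w.1.1 w.1.2
    rcases w with ⟨z, b⟩
    cases b
    · have : Φ (z, false) = fun t => -tr η z.1 z.2 t := by funext t; simp [hΦ]
      rw [this]
      obtain ⟨s₁, s₂, l1, l2, c, hc'⟩ := hb.ex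
      refine ⟨⟨s₂, s₁, l2, l1, -c, fun t => by rw [hc' t]; ring⟩, fun t => by rw [abs_neg]; exact hb.bdd t, ?_⟩
      rw [intervalIntegral.integral_neg, hb.mean, neg_zero]
    · have : Φ (z, true) = tr η z.1 z.2 := by funext t; simp [hΦ]
      rw [this]
      exact hb
  have hvar : ∀ w, sig θ (Φ w) ≤ σ * (1 + e) := by
    intro w
    have h1 := hsig η hη0 (hηδ.trans hδ3) w.1.1 w.1.2
    rcases w with ⟨z, b⟩
    cases b
    · have : Φ (z, false) = fun t => -tr η z.1 z.2 t := by funext t; simp [hΦ]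
      rw [this, sig_neg]
      linarith
    · have : Φ (z, true) = tr η z.1 z.2 := by funext t; simp [hΦ]
      rw [this]
      linarith
  refine dimH_finset (F ×ˢ Finset.univ) (fun w => {x | ∃ᶠ N : ℕ in atTop, ((1 - 5 * e) * δ) * N ≤ S (Φ w) U N x})
    _ _ ?_ ?_
  · rintro x hx
    have h1 := freq_of_limsup (δ' := (1 - e) * δ) (fun N => disc_bdd (fun n => U n x) N) hx (by nlinarith)
    have h2 : ∃ᶠ N : ℕ in atTop, ∃ w ∈ F ×ˢ (Finset.univ : Finset Bool), ((1 - 5 * e) * δ) * N ≤ S (Φ w) U N x := by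
      refine (h1.and_eventually (eventually_ge_atTop 1)).mono ?_
      rintro N ⟨hN, hN1⟩
      obtain ⟨z, hz, hzz⟩ := hF (fun n => U n x) N ((1 - e) * δ) hN1 hN
      have h3 : (1 - e) * δ - 4 * η = (1 - 5 * e) * δ := by rw [hη]; ring
      rw [h3] at hzz
      rcases hzz with hzz | hzz
      · exact ⟨(z, true), by simp [hz], by simpa [hΦ, S] using hzz⟩
      · exact ⟨(z, false), by simp [hz], by simpa [hΦ, S] using hzz⟩
    exact freq_finset _ _ h2
  · intro w _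
    refine Pool.Agent.Helper69.CD.dimH_le_of_local _ _ fun x hx => ?_
    obtain ⟨n₀, v, a, b, hxab, -, hFam⟩ := theta_fam hθ hb1 hb2 hb3 x univ univ_mem
    refine ⟨Ioo a b, Ioo_mem_nhds hxab.1 hxab.2, ?_⟩
    have hlb : 0 < Real.log β₂ := Real.log_pos (by linarith)
    refine (dimH_mono ?_).trans ((hfam _ v a b β₁ β₂ le_rfl hFam _ _ (sig θ (Φ w))
      (hobs _ v a b β₁ β₂ le_rfl hFam (Φ w) 1 _ (hcls w)) (sig_nonneg hθ (hbv w)) (hvar w)
      (hL₀ (Φ w) (hbv w) L hL n₀ a b)).trans (ENNReal.ofReal_le_ofReal ?_))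
    · rintro y ⟨hfr, hy⟩
      refine ⟨Ioo_subset_Icc_self hy, ?_⟩
      have hfr' : ∃ᶠ N : ℕ in atTop, ((1 - 5 * e) * δ) * N ≤ S (Φ w) U N y := hfr
      rw [frequently_atTop] at hfr' ⊢
      intro N₀
      have hmm : 0 < (1 - 5 * e) * δ - m := by rw [hm]; nlinarith
      obtain ⟨N₁, hN₁⟩ := exists_nat_gt (2 * n₀ / ((1 - 5 * e) * δ - m))
      rw [div_lt_iff₀ hmm] at hN₁
      obtain ⟨N, hN, hSN⟩ := hfr' (max (N₀ + n₀) (N₁ + n₀))
      obtain ⟨k, rfl⟩ : ∃ k, N = n₀ + k := ⟨N - n₀, by omega⟩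
      have h1 : N₀ ≤ k := by omega
      have h2 : (N₁ : ℝ) ≤ k := by
        have : N₁ ≤ k := by omega
        exact_mod_cast this
      refine ⟨k, h1, ?_⟩
      rw [S_shift] at hSN
      have h3 := (abs_le.1 (S_bd (hcls w).bd U n₀ y)).2
      have h4 : SX (fun (n : ℕ) (x : ℝ) => Φ w ((fun (n : ℕ) (ξ : ℝ) => ξ * θ ^ (n + n₀ + 1)) n x)) k y =
          S (Φ w) (fun n => U (n + n₀)) k y := by
        unfold SX S
        rfl
      rw [h4]
      push_cast at hSN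
      have h5 : (0 : ℝ) ≤ n₀ := Nat.cast_nonneg _
      have h6 : (1 - 5 * e) * δ ≤ 1 := by nlinarith
      have h7 : 0 ≤ (1 - 5 * e) * δ := by
        have : 0 ≤ 1 - 5 * e := by linarith
        positivity
      have h8 : 0 ≤ (1 - 5 * e) * δ * n₀ := by positivity
      have h9 : ((1 - 5 * e) * δ - m) * N₁ ≤ ((1 - 5 * e) * δ - m) * k := by gcongr
      nlinarith
    · have h1 : (1 - ε) / (2 * σ * Real.log θ) * δ ^ 2 ≤ (1 - e) * m ^ 2 / (2 * (σ * (1 + e)) * Real.log β₂) := by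
        have h2 : (1 - e) * m ^ 2 / (2 * (σ * (1 + e)) * Real.log β₂) =
            (1 - e) * (1 - 6 * e) ^ 2 / (2 * σ * ((1 + e) * Real.log β₂)) * δ ^ 2 := by
          rw [hm]; field_simp
        rw [h2]
        apply mul_le_mul_of_nonneg_right _ (sq_nonneg δ)
        rw [div_le_div_iff₀ (by positivity) (by positivity)]
        have h3 : ε = 32 * e := by rw [he]; ring
        have h4 : (1 + e) * Real.log β₂ ≤ (1 + e) * ((1 + e) * Real.log θ) := by gcongr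
        have h5 : (1 - ε) * ((1 + e) * (1 + e)) ≤ (1 - e) * (1 - 6 * e) ^ 2 := by
          rw [h3]
          nlinarith [mul_pos he0 he0, mul_pos (mul_pos he0 he0) he0]
        have h6 : (1 - ε) * (2 * σ * ((1 + e) * Real.log β₂)) ≤ (1 - ε) * (2 * σ * ((1 + e) * ((1 + e) * Real.log θ))) := by
          apply mul_le_mul_of_nonneg_left _ (by linarith)
          gcongr
        have h7 : (1 - ε) * (2 * σ * ((1 + e) * ((1 + e) * Real.log θ))) =
            ((1 - ε) * ((1 + e) * (1 + e))) * (2 * σ * Real.log θ) := by ring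
        rw [h7] at h6
        refine h6.trans ?_
        gcongr
      linarith

theorem theta_lower {θ : ℝ} (hθ : 1 < θ) {ε : ℝ} (hε : 0 < ε) (hε1 : ε ≤ 1) : ∃ δ₀ : ℝ, 0 < δ₀ ∧ ∀ δ : ℝ, 0 < δ → δ ≤ δ₀ →
    ∀ O : Set ℝ, IsOpen O → O.Nonempty → ENNReal.ofReal (1 - (1 + ε) / (2 * SigSq θ * Real.log θ) * δ ^ 2) ≤
    dimH {ξ | ξ ∈ O ∧ δ ≤ liminf (fun N => disc (fun n => ξ * θ ^ (n + 1)) N) atTop} := by
  set σ := SigSq θ with hσ
  have hσ4 : 1 / 4 ≤ σ := SigSq_ge hθ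
  have hσ0 : 0 < σ := by linarith
  set e := ε / 64 with he
  have he0 : 0 < e := by positivity
  have he1 : e ≤ 1 / 64 := by rw [he]; linarith
  have hlx := Real.log_pos hθ
  obtain ⟨β₁, β₂, hb1, hb2, hb3, hb4, hb5⟩ := choose_bases hθ he0 (by linarith)
  obtain ⟨C, hC1, hobs⟩ := obs_of_cls hb1
  have h1e : 0 < 1 - e := by linarith
  obtain ⟨ε', hε', hdev⟩ := dev_lower_s (K₀ := 4 / e) (s := σ * (1 - e)) (S₀ := σ + 10 * θ / (θ - 1)) (ε := e) hC1
    (by rw [le_div_iff₀ he0]; linarith) (by positivity) (by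
      have : 0 < 10 * θ / (θ - 1) := div_pos (by linarith) (by linarith)
      nlinarith) he0 (by linarith)
  obtain ⟨L₀, hL₀⟩ := block_all hθ hε'
  obtain ⟨δ₁, hδ₁, hδ₁1, hmain⟩ := hdev L₀
  obtain ⟨α, β, η₀, hα, hαβ, hβ, hη₀, hη₀1, hsig⟩ := sig_tr_ge hθ (show 0 < σ * e by positivity)
  refine ⟨min (δ₁ / 2) η₀, by positivity, fun δ hδ hδδ O hO hne => ?_⟩
  have hδ2 : δ ≤ δ₁ / 2 := hδδ.trans (min_le_left _ _)
  have hδ3 : δ ≤ η₀ := hδδ.trans (min_le_right _ _)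
  have hδ1 : δ ≤ 1 := by linarith
  set η := e * δ with hη
  have hη0 : 0 < η := by positivity
  have hηδ : η ≤ δ := by rw [hη]; nlinarith
  have hη1 : η ≤ 1 := by linarith
  set φ := tr η (β - α - η) (-β + η) with hφ
  set m := (1 + 3 * e) * δ with hm
  have hm0 : 0 < m := by positivity
  have hm2 : m ≤ 2 * δ := by rw [hm]; nlinarith
  have hcls : Cls φ 1 (4 / e / m) := by
    refine (tr_cls hη0 hη1 _ _).mono ?_
    rw [div_div, hη, div_le_div_iff₀ (by positivity) (by positivity)]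
    nlinarith
  have hbv : IsBV φ := tr_bv hη0 hη1 _ _
  obtain ⟨L, hL, hfam⟩ := hmain m hm0 (by linarith)
  obtain ⟨x, hx⟩ := hne
  obtain ⟨n₀, v, a, b, hxab, hsub, hFam⟩ := theta_fam hθ hb1 hb2 hb3 x O (hO.mem_nhds hx)
  set U : ℕ → ℝ → ℝ := fun n ξ => ξ * θ ^ (n + 1) with hU
  have hsge := hsig η hη0 (hηδ.trans hδ3)
  have hlow := hfam _ v a b β₁ β₂ hFam _ _ (sig θ φ) (hobs _ v a b β₁ β₂ le_rfl hFam φ 1 _ hcls)
    (by rw [hφ]; linarith) (by
      have h1 := (abs_le.1 (sig_le hθ hbv)).2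
      linarith) (hL₀ φ hbv L hL n₀ a b)
  refine (ENNReal.ofReal_le_ofReal ?_).trans (hlow.trans (dimH_mono ?_))
  · have hlb : 0 < Real.log β₁ := Real.log_pos hb1
    have h1 : (1 + e) * m ^ 2 / (2 * (σ * (1 - e)) * Real.log β₁) ≤ (1 + ε) / (2 * σ * Real.log θ) * δ ^ 2 := by
      have h2 : (1 + e) * m ^ 2 / (2 * (σ * (1 - e)) * Real.log β₁) =
          (1 + e) * (1 + 3 * e) ^ 2 / (2 * σ * ((1 - e) * Real.log β₁)) * δ ^ 2 := by
        rw [hm]; field_simp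
      rw [h2]
      apply mul_le_mul_of_nonneg_right _ (sq_nonneg δ)
      rw [div_le_div_iff₀ (by positivity) (by positivity)]
      have h3' : ε = 64 * e := by rw [he]; ring
      have h4 : (1 - e) * ((1 - e) * Real.log θ) ≤ (1 - e) * Real.log β₁ := by gcongr
      have h5 : (1 + e) * (1 + 3 * e) ^ 2 ≤ (1 + ε) * ((1 - e) * (1 - e)) := by
        rw [h3']
        nlinarith [mul_pos he0 he0, mul_pos (mul_pos he0 he0) he0]
      have h6 : (1 + ε) * (2 * σ * ((1 - e) * ((1 - e) * Real.log θ))) ≤ (1 + ε) * (2 * σ * ((1 - e) * Real.log β₁)) := by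
        gcongr
      refine le_trans ?_ h6
      have h7 : (1 + ε) * (2 * σ * ((1 - e) * ((1 - e) * Real.log θ))) =
          ((1 + ε) * ((1 - e) * (1 - e))) * (2 * σ * Real.log θ) := by ring
      rw [h7]
      gcongr
    linarith
  · rintro y ⟨hy, hev⟩
    have hev' : ∀ᶠ N : ℕ in atTop, (1 + 2 * e) * δ * N ≤ S φ U N y :=
      loc_lower_aux (m := m) (m' := (1 + 2 * e) * δ) (n₀ := n₀) (U := U) (by rw [hm]; nlinarith) hm0 hcls.bd hev
    refine ⟨hsub hy, liminf_of_event (fun N => disc_bdd (fun n => y * θ ^ (n + 1)) N) ?_⟩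
    filter_upwards [hev', eventually_ge_atTop 1] with N hN hN1
    have hNpos : (0 : ℝ) < N := by exact_mod_cast hN1
    -- the discrepancy is at least the mean of the arc
    have h1 : (∑ n ∈ Finset.range N, chi α β (U n y)) ≤ N * disc (fun n => y * θ ^ (n + 1)) N := by
      have h2 : |(((Finset.range N).filter (fun n => α ≤ Int.fract (U n y) ∧ Int.fract (U n y) < β)).card : ℝ) / N -
          (β - α)| ≤ disc (fun n => y * θ ^ (n + 1)) N := by
        refine le_csSup ?_ ⟨α, β, hα, hαβ, hβ, rfl⟩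
        refine ⟨1, ?_⟩
        rintro r ⟨α', β', h0', hab', h1', rfl⟩
        have h2 : ((((Finset.range N).filter (fun n => α' ≤ Int.fract (y * θ ^ (n + 1)) ∧
            Int.fract (y * θ ^ (n + 1)) < β')).card : ℝ)) ≤ N := by
          have := Finset.card_filter_le (Finset.range N) (fun n => α' ≤ Int.fract (y * θ ^ (n + 1)) ∧
            Int.fract (y * θ ^ (n + 1)) < β')
          rw [Finset.card_range] at this
          exact_mod_cast this
        have h3 : (0 : ℝ) ≤ (((Finset.range N).filter (fun n => α' ≤ Int.fract (y * θ ^ (n + 1)) ∧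
            Int.fract (y * θ ^ (n + 1)) < β')).card : ℝ) / N := by positivity
        have h4 : (((Finset.range N).filter (fun n => α' ≤ Int.fract (y * θ ^ (n + 1)) ∧
            Int.fract (y * θ ^ (n + 1)) < β')).card : ℝ) / N ≤ 1 := by
          rw [div_le_one hNpos]; exact h2
        rw [abs_le]
        constructor <;> linarith
      have h3 : (∑ n ∈ Finset.range N, chi α β (U n y)) =
          (((Finset.range N).filter (fun n => α ≤ Int.fract (U n y) ∧ Int.fract (U n y) < β)).card : ℝ) - N * (β - α) := by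
        unfold chi
        rw [Finset.sum_sub_distrib, Finset.sum_const, Finset.card_range, nsmul_eq_mul, Finset.sum_boole]
      rw [h3]
      have h4 := (abs_le.1 h2).2
      have h5 : (((Finset.range N).filter (fun n => α ≤ Int.fract (U n y) ∧ Int.fract (U n y) < β)).card : ℝ) / N ≤
          disc (fun n => y * θ ^ (n + 1)) N + (β - α) := by
        have := le_abs_self ((((Finset.range N).filter (fun n => α ≤ Int.fract (U n y) ∧
          Int.fract (U n y) < β)).card : ℝ) / N - (β - α))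
        linarith
      rw [div_le_iff₀ hNpos] at h5
      linarith
    have h2 : S φ U N y ≤ (∑ n ∈ Finset.range N, chi α β (U n y)) + N * η := by
      unfold S
      have h3 : ∀ n ∈ Finset.range N, φ (U n y) ≤ chi α β (U n y) + η := fun n _ => (tr_below hη0 hη1 hα hαβ hβ).2 _
      refine (Finset.sum_le_sum h3).trans (le_of_eq ?_)
      rw [Finset.sum_add_distrib, Finset.sum_const, Finset.card_range, nsmul_eq_mul]
    have h3 : (1 + 2 * e) * δ * N ≤ N * disc (fun n => y * θ ^ (n + 1)) N + N * η := by linarith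
    have h4 : (1 + 2 * e) * δ - η ≤ disc (fun n => y * θ ^ (n + 1)) N := by
      have h5 : ((1 + 2 * e) * δ - η) * N ≤ disc (fun n => y * θ ^ (n + 1)) N * N := by nlinarith
      exact le_of_mul_le_mul_right h5 hNpos
    have h5 : δ ≤ (1 + 2 * e) * δ - η := by rw [hη]; nlinarith
    linarith

end Pool.Agent.Helper78.KD
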