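import Pool.Agent.Helper78.KD.Defs

/-!
# Upper bound for the dimension from exponential moments
-/

set_option autoImplicit false

namespace Pool.Agent.Helper78.KD

open MeasureTheory Set Filter Topology
open scoped ENNReal NNReal

namespace Tr

variable (T : Tr)

/-- sum over the cells of the next level -/
theorem sum_ch_aux (f : ℕ → ℝ) (k : ℕ) : ∀ n ≤ T.N k,
    ∑ i ∈ Finset.range n, ∑ j ∈ T.ch k i, f j = ∑ j ∈ Finset.range (T.J k n), f j := by
  intro n
  induction n with
  | zero => intro _; simp [T.J0]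
  | succ n ih =>
    intro hn
    rw [Finset.sum_range_succ, ih (by omega)]
    have h1 := T.Jlt k n (by omega)
    unfold ch
    rw [Finset.sum_range_add_sum_Ico f h1.le]

theorem sum_ch (f : ℕ → ℝ) (k : ℕ) :
    ∑ j ∈ Finset.range (T.N (k + 1)), f j = ∑ i ∈ Finset.range (T.N k), ∑ j ∈ T.ch k i, f j := by
  rw [T.sum_ch_aux f k _ le_rfl, T.JN]

theorem len_pos (k i : ℕ) (h : i < T.N k) : 0 < T.len k i := sub_pos.2 (T.lt k i h)

theorem mgf_total (M : ℕ → ℕ → ℝ) {θ Λ : ℝ} (hM : T.MGFle M θ Λ) (k : ℕ) :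
    ∑ i ∈ Finset.range (T.N k), T.len k i * Real.exp (θ * M k i) ≤
      T.len 0 0 * Real.exp (θ * M 0 0) * Real.exp (k * Λ) := by
  induction k with
  | zero => rw [T.hN]; simp
  | succ k ih =>
    rw [T.sum_ch]
    have h1 : ∀ i ∈ Finset.range (T.N k), ∑ j ∈ T.ch k i, T.len (k + 1) j * Real.exp (θ * M (k + 1) j) ≤
        T.len k i * Real.exp (θ * M k i) * Real.exp Λ := by
      intro i hi
      have h2 := hM k i (Finset.mem_range.1 hi)
      have h3 : ∑ j ∈ T.ch k i, T.len (k + 1) j * Real.exp (θ * M (k + 1) j) =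
          Real.exp (θ * M k i) * ∑ j ∈ T.ch k i, T.len (k + 1) j * Real.exp (θ * (M (k + 1) j - M k i)) := by
        rw [Finset.mul_sum]
        refine Finset.sum_congr rfl fun j _ => ?_
        rw [mul_left_comm, ← Real.exp_add]
        congr 2
        ring
      rw [h3]
      calc _ ≤ Real.exp (θ * M k i) * (T.len k i * Real.exp Λ) := by gcongr
        _ = _ := by ring
    calc _ ≤ ∑ i ∈ Finset.range (T.N k), T.len k i * Real.exp (θ * M k i) * Real.exp Λ := Finset.sum_le_sum h1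
      _ = (∑ i ∈ Finset.range (T.N k), T.len k i * Real.exp (θ * M k i)) * Real.exp Λ := by rw [Finset.sum_mul]
      _ ≤ T.len 0 0 * Real.exp (θ * M 0 0) * Real.exp (k * Λ) * Real.exp Λ := by gcongr
      _ = _ := by
        rw [mul_assoc, ← Real.exp_add]
        congr 2
        push_cast
        ring

end Tr

theorem upper_tree (T : Tr) (M : ℕ → ℕ → ℝ) {θ Λ h s ℓ₁ ℓ₂ c C : ℝ} (hθ : 0 < θ) (hs : 0 ≤ s) (hs1 : s ≤ 1)
    (hℓ₁ : 0 < ℓ₁) (hc : 0 < c) (hC : 0 < C)
    (hlo : ∀ k i, i < T.N k → c * Real.exp (-(k * ℓ₂)) ≤ T.len k i)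
    (hhi : ∀ k i, i < T.N k → T.len k i ≤ C * Real.exp (-(k * ℓ₁)))
    (hM : T.MGFle M θ Λ) (hlt : Λ - θ * h + (1 - s) * ℓ₂ < 0) :
    dimH {x : ℝ | ∃ᶠ k : ℕ in atTop, ∃ i < T.N k, x ∈ T.cell k i ∧ h * k ≤ M k i} ≤ ENNReal.ofReal s := by
  classical
  set Bad : ℕ → Finset ℕ := fun k => (Finset.range (T.N k)).filter (fun i => h * k ≤ M k i) with hBad
  have hmem : ∀ k i, i ∈ Bad k ↔ i < T.N k ∧ h * k ≤ M k i := by
    intro k i
    rw [hBad, Finset.mem_filter, Finset.mem_range]
  set κ := Λ - θ * h + (1 - s) * ℓ₂ with hκ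
  set A := T.len 0 0 * Real.exp (θ * M 0 0) * c ^ (s - 1) with hA
  have hlen0 := T.len_pos 0 0 (by rw [T.hN]; exact one_pos)
  have hA0 : 0 < A := by positivity
  -- real estimate
  have hreal : ∀ k, ∑ i ∈ Bad k, T.len k i ^ s ≤ A * Real.exp (k * κ) := by
    intro k
    have h1 : ∀ i ∈ Bad k, T.len k i ^ s ≤ (c * Real.exp (-(k * ℓ₂))) ^ (s - 1) * Real.exp (-(θ * (h * k))) *
        (T.len k i * Real.exp (θ * M k i)) := by
      intro i hi
      rw [hmem] at hi
      have h2 := T.len_pos k i hi.1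
      have h3 : T.len k i ^ s = T.len k i ^ (s - 1) * T.len k i := by
        conv_rhs => rw [← Real.rpow_one (T.len k i), ← Real.rpow_mul h2.le, ← Real.rpow_add h2]
        congr 1
        ring
      have h4 : T.len k i ^ (s - 1) ≤ (c * Real.exp (-(k * ℓ₂))) ^ (s - 1) :=
        Real.rpow_le_rpow_of_nonpos (by positivity) (hlo k i hi.1) (by linarith)
      have h5 : 1 ≤ Real.exp (-(θ * (h * k))) * Real.exp (θ * M k i) := by
        rw [← Real.exp_add]
        apply Real.one_le_exp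
        nlinarith [hi.2]
      rw [h3]
      calc T.len k i ^ (s - 1) * T.len k i ≤ (c * Real.exp (-(k * ℓ₂))) ^ (s - 1) * T.len k i * 1 := by
            rw [mul_one]; gcongr
        _ ≤ (c * Real.exp (-(k * ℓ₂))) ^ (s - 1) * T.len k i *
            (Real.exp (-(θ * (h * k))) * Real.exp (θ * M k i)) := by gcongr
        _ = _ := by ring
    calc _ ≤ ∑ i ∈ Bad k, (c * Real.exp (-(k * ℓ₂))) ^ (s - 1) * Real.exp (-(θ * (h * k))) *
        (T.len k i * Real.exp (θ * M k i)) := Finset.sum_le_sum h1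
      _ = (c * Real.exp (-(k * ℓ₂))) ^ (s - 1) * Real.exp (-(θ * (h * k))) *
          ∑ i ∈ Bad k, (T.len k i * Real.exp (θ * M k i)) := by rw [Finset.mul_sum]
      _ ≤ (c * Real.exp (-(k * ℓ₂))) ^ (s - 1) * Real.exp (-(θ * (h * k))) *
          ∑ i ∈ Finset.range (T.N k), (T.len k i * Real.exp (θ * M k i)) := by
          refine mul_le_mul_of_nonneg_left ?_ (by positivity)
          refine Finset.sum_le_sum_of_subset_of_nonneg (fun i hi => Finset.mem_range.2 ((hmem k i).1 hi).1)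
            fun i hi _ => ?_
          have := T.len_pos k i (Finset.mem_range.1 hi)
          positivity
      _ ≤ (c * Real.exp (-(k * ℓ₂))) ^ (s - 1) * Real.exp (-(θ * (h * k))) *
          (T.len 0 0 * Real.exp (θ * M 0 0) * Real.exp (k * Λ)) := by
          gcongr
          exact T.mgf_total M hM k
      _ = A * Real.exp (k * κ) := by
          rw [Real.mul_rpow hc.le (Real.exp_pos _).le, ← Real.exp_mul, hA]
          have h6 : Real.exp (k * κ) = Real.exp (-(k * ℓ₂) * (s - 1)) * Real.exp (-(θ * (h * k))) * Real.exp (k * Λ) := by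
            rw [← Real.exp_add, ← Real.exp_add]
            congr 1
            rw [hκ]
            ring
          rw [h6]
          ring
  have hκ0 : κ < 0 := hlt
  have hsumm : Summable fun k : ℕ => A * Real.exp (k * κ) := by
    refine Summable.mul_left A ?_
    have h1 : (fun k : ℕ => Real.exp (k * κ)) = fun k : ℕ => (Real.exp κ) ^ k := by
      funext k; rw [← Real.exp_nat_mul]
    rw [h1]
    exact summable_geometric_of_lt_one (Real.exp_pos _).le (Real.exp_lt_one_iff.2 hκ0)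
  -- covers
  let ι : ℕ → Type := fun n => {z : ℕ × ℕ // n ≤ z.1 ∧ z.2 ∈ Bad z.1}
  have hcount : ∀ n, Countable (ι n) := fun n => inferInstance
  set f : ℕ × ℕ → ℝ≥0∞ := fun z => if z.2 ∈ Bad z.1 then ENNReal.ofReal (T.len z.1 z.2 ^ s) else 0 with hf
  have htot : ∑' z, f z ≠ ⊤ := by
    rw [ENNReal.tsum_prod']
    have h1 : ∀ k, ∑' i, f (k, i) ≤ ENNReal.ofReal (A * Real.exp (k * κ)) := by
      intro k
      rw [tsum_eq_sum (s := Bad k) (fun i hi => by simp [hf, hi])]
      calc ∑ i ∈ Bad k, f (k, i) = ∑ i ∈ Bad k, ENNReal.ofReal (T.len k i ^ s) :=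
            Finset.sum_congr rfl fun i hi => by simp [hf, hi]
        _ = ENNReal.ofReal (∑ i ∈ Bad k, T.len k i ^ s) := by
            rw [ENNReal.ofReal_sum_of_nonneg]
            intro i hi
            rw [hmem] at hi
            exact Real.rpow_nonneg (T.len_pos k i hi.1).le _
        _ ≤ _ := ENNReal.ofReal_le_ofReal (hreal k)
    refine ne_top_of_le_ne_top ?_ (ENNReal.tsum_le_tsum h1)
    exact hsumm.tsum_ofReal_ne_top
  have hmeas : Measure.hausdorffMeasure s
      {x : ℝ | ∃ᶠ k : ℕ in atTop, ∃ i < T.N k, x ∈ T.cell k i ∧ h * k ≤ M k i} ≤ ∑' z, f z := by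
    have h0 := Measure.hausdorffMeasure_le_liminf_tsum (ι := ι) s
      {x : ℝ | ∃ᶠ k : ℕ in atTop, ∃ i < T.N k, x ∈ T.cell k i ∧ h * k ≤ M k i} (l := atTop)
      (fun n : ℕ => ENNReal.ofReal (C * Real.exp (-(n * ℓ₁)))) ?_ (fun n z => T.cell z.1.1 z.1.2) ?_ ?_
    · refine h0.trans ?_
      have h1 : ∀ n : ℕ, ∑' z : ι n, Metric.ediam (T.cell z.1.1 z.1.2) ^ s ≤ ∑' z, f z := by
        intro n
        have h2 : ∀ z : ι n, Metric.ediam (T.cell z.1.1 z.1.2) ^ s = f z.1 := by
          intro z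
          have hz := z.2.2
          have hz' := (hmem _ _).1 hz
          have hl := T.len_pos z.1.1 z.1.2 hz'.1
          have h3 : f z.1 = ENNReal.ofReal (T.len z.1.1 z.1.2 ^ s) := by
            simp only [hf]; rw [if_pos hz]
          rw [h3]
          have h4 : Metric.ediam (T.cell z.1.1 z.1.2) = ENNReal.ofReal (T.len z.1.1 z.1.2) := Real.ediam_Icc _ _
          rw [h4, ENNReal.ofReal_rpow_of_pos hl]
        rw [tsum_congr h2]
        exact ENNReal.tsum_comp_le_tsum_of_injective Subtype.val_injective f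
      refine (liminf_le_liminf (Eventually.of_forall h1)).trans ?_
      rw [liminf_const]
    · have h1 : Tendsto (fun n : ℕ => C * Real.exp (-(n * ℓ₁))) atTop (𝓝 0) := by
        have h2 : (fun n : ℕ => C * Real.exp (-(n * ℓ₁))) = fun n : ℕ => C * (Real.exp (-ℓ₁)) ^ n := by
          funext n; rw [← Real.exp_nat_mul]; congr 2; ring
        rw [h2]
        have h3 := (tendsto_pow_atTop_nhds_zero_of_lt_one (Real.exp_pos (-ℓ₁)).le
          (Real.exp_lt_one_iff.2 (by linarith))).const_mul C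
        rwa [mul_zero] at h3
      have h2 := (ENNReal.continuous_ofReal.tendsto 0).comp h1
      rwa [ENNReal.ofReal_zero] at h2
    · refine Eventually.of_forall fun n z => ?_
      have hz := (hmem _ _).1 z.2.2
      unfold Tr.cell
      rw [Real.ediam_Icc]
      apply ENNReal.ofReal_le_ofReal
      refine (hhi z.1.1 z.1.2 hz.1).trans ?_
      have h1 : (n : ℝ) ≤ z.1.1 := by exact_mod_cast z.2.1
      have h2 : Real.exp (-(z.1.1 * ℓ₁)) ≤ Real.exp (-(n * ℓ₁)) := Real.exp_le_exp.2 (by nlinarith)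
      gcongr
    · refine Eventually.of_forall fun n x hx => ?_
      obtain ⟨k, hk, i, hi, hxi, hM'⟩ := (frequently_atTop.1 hx) n
      rw [mem_iUnion]
      refine ⟨⟨(k, i), hk, ?_⟩, hxi⟩
      exact (hmem _ _).2 ⟨hi, hM'⟩
  have hfin : dimH {x : ℝ | ∃ᶠ k : ℕ in atTop, ∃ i < T.N k, x ∈ T.cell k i ∧ h * k ≤ M k i} ≤
      ((s.toNNReal : ℝ≥0) : ℝ≥0∞) := by
    apply dimH_le_of_hausdorffMeasure_ne_top
    rw [Real.coe_toNNReal _ hs]
    exact ne_top_of_le_ne_top htot hmeas
  exact hfin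

end Pool.Agent.Helper78.KD
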