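import Pool.Agent.Helper78.KD.Theta

/-!
# The limit variance
-/

set_option autoImplicit false

namespace Pool.Agent.Helper78.KD

open MeasureTheory Set Filter Topology H44TX
open Pool.Agent.Helper23.KD (block_all)

/-- `σ` is the limit variance of the sums of `φ (ξ θ ^ n)`, `ξ` uniform on `[0,1]` -/
def VarLim (θ : ℝ) (φ : ℝ → ℝ) (σ : ℝ) : Prop :=
  Tendsto (fun N : ℕ => (∫ ξ in (0 : ℝ)..1, (∑ n ∈ Finset.range N, φ (ξ * θ ^ (n + 1))) ^ 2) / N) atTop (𝓝 σ)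

theorem bv_intble {θ : ℝ} {φ : ℝ → ℝ} (h : IsBV φ) (N : ℕ) (p q : ℝ) :
    IntervalIntegrable (fun ξ => (∑ n ∈ Finset.range N, φ (ξ * θ ^ (n + 1))) ^ 2) volume p q := by
  have hm : Measurable (fun ξ : ℝ => (∑ n ∈ Finset.range N, φ (ξ * θ ^ (n + 1))) ^ 2) :=
    (Finset.measurable_sum _ fun n _ => h.meas.comp (measurable_id.mul_const _)).pow_const 2
  have hb : ∀ ξ : ℝ, ‖(∑ n ∈ Finset.range N, φ (ξ * θ ^ (n + 1))) ^ 2‖ ≤ (N : ℝ) ^ 2 := by
    intro ξ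
    rw [norm_pow, Real.norm_eq_abs]
    refine pow_le_pow_left₀ (abs_nonneg _) ?_ 2
    refine (Finset.abs_sum_le_sum_abs _ _).trans ((Finset.sum_le_sum fun n _ => h.bdd _).trans ?_)
    simp
  rw [intervalIntegrable_iff]
  refine Measure.integrableOn_of_bounded (M := (N : ℝ) ^ 2) ?_ hm.aestronglyMeasurable (Eventually.of_forall hb)
  rw [uIoc, Real.volume_Ioc]
  exact ENNReal.ofReal_ne_top

theorem var_tendsto {θ : ℝ} (hθ : 1 < θ) {φ : ℝ → ℝ} (h : IsBV φ) : VarLim θ φ (sig θ φ) := by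
  unfold VarLim
  rw [Metric.tendsto_atTop]
  intro ε hε
  obtain ⟨L₀, hL₀⟩ := block_all hθ (show (0 : ℝ) < ε / 2 by positivity)
  refine ⟨max L₀ 1, fun L hL => ?_⟩
  have hL1 : 1 ≤ L := (le_max_right _ _).trans hL
  have hLr : (0 : ℝ) < L := by exact_mod_cast hL1
  set m : ℕ := ⌊θ⌋₊ with hm
  have hm1 : 1 ≤ m := Nat.le_floor (by simpa using hθ.le)
  have hmr : (1 : ℝ) ≤ m := by exact_mod_cast hm1
  have hm2 : (m : ℝ) ≤ θ := Nat.floor_le (by linarith)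
  have hm3 : θ < m + 1 := Nat.lt_floor_add_one θ
  have hblock := hL₀ φ h L ((le_max_left _ _).trans hL) 0 0 1
  set X : ℝ → ℝ := fun ξ => (∑ n ∈ Finset.range L, φ (ξ * θ ^ (n + 1))) ^ 2 with hX
  have hpiece : ∀ i < m, |(∫ ξ in ((i : ℝ) / m)..((i + 1 : ℕ) : ℝ) / m, X ξ) - sig θ φ * L * (1 / m)| ≤
      ε / 2 * L * (1 / m) := by
    intro i hi
    have hi' : ((i : ℝ) + 1) ≤ m := by exact_mod_cast hi
    have hlen : (((i + 1 : ℕ) : ℝ) / m) - (i : ℝ) / m = 1 / m := by push_cast; ring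
    have h1 := hblock 0 ((i : ℝ) / m) (((i + 1 : ℕ) : ℝ) / m) (by positivity) (by
      have : (0 : ℝ) < 1 / m := by positivity
      linarith) (by
        rw [div_le_one (by positivity)]
        push_cast
        exact hi') (by
        have e1 : ((i + 1 : ℕ) : ℝ) / m * θ ^ (0 + 0 + 1) - (i : ℝ) / m * θ ^ (0 + 0 + 1) = θ / m := by
          rw [← sub_mul, hlen]; simp; ring
        show 1 ≤ ((i + 1 : ℕ) : ℝ) / m * θ ^ (0 + 0 + 1) - (i : ℝ) / m * θ ^ (0 + 0 + 1)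
        rw [e1, le_div_iff₀ (by positivity)]
        linarith) (by
        have e1 : ((i + 1 : ℕ) : ℝ) / m * θ ^ (0 + 0 + 1) - (i : ℝ) / m * θ ^ (0 + 0 + 1) = θ / m := by
          rw [← sub_mul, hlen]; simp; ring
        show ((i + 1 : ℕ) : ℝ) / m * θ ^ (0 + 0 + 1) - (i : ℝ) / m * θ ^ (0 + 0 + 1) ≤ 2
        rw [e1, div_le_iff₀ (by positivity)]
        linarith)
    rw [hlen] at h1
    have e2 : (fun x : ℝ => (∑ j ∈ Finset.Ico 0 (0 + L), φ ((fun (n : ℕ) (ξ : ℝ) => ξ * θ ^ (n + 0 + 1)) j x)) ^ 2) = X := by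
      funext x
      simp only [hX, zero_add, add_zero, Nat.Ico_zero_eq_range]
    rw [e2] at h1
    exact h1
  have hsum : ∑ i ∈ Finset.range m, (∫ ξ in ((i : ℝ) / m)..((i + 1 : ℕ) : ℝ) / m, X ξ) = ∫ ξ in (0 : ℝ)..1, X ξ := by
    have := intervalIntegral.sum_integral_adjacent_intervals (f := X) (μ := volume) (n := m)
      (a := fun i : ℕ => (i : ℝ) / m) (fun k _ => bv_intble h L _ _)
    rw [this]
    congr 1
    · simp
    · rw [div_self (by positivity)]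
  have htot : |(∫ ξ in (0 : ℝ)..1, X ξ) - sig θ φ * L| ≤ ε / 2 * L := by
    have e1 : (∫ ξ in (0 : ℝ)..1, X ξ) - sig θ φ * L =
        ∑ i ∈ Finset.range m, ((∫ ξ in ((i : ℝ) / m)..((i + 1 : ℕ) : ℝ) / m, X ξ) - sig θ φ * L * (1 / m)) := by
      rw [Finset.sum_sub_distrib, hsum, Finset.sum_const, Finset.card_range, nsmul_eq_mul]
      field_simp
    rw [e1]
    refine (Finset.abs_sum_le_sum_abs _ _).trans ((Finset.sum_le_sum fun i hi => hpiece i (Finset.mem_range.1 hi)).trans ?_)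
    rw [Finset.sum_const, Finset.card_range, nsmul_eq_mul]
    apply le_of_eq
    field_simp
  rw [Real.dist_eq]
  have e3 : (∫ ξ in (0 : ℝ)..1, X ξ) / L - sig θ φ = ((∫ ξ in (0 : ℝ)..1, X ξ) - sig θ φ * L) / L := by
    field_simp
  rw [e3, abs_div, abs_of_pos hLr, div_lt_iff₀ hLr]
  refine lt_of_le_of_lt htot ?_
  have : 0 < ε * L := by positivity
  linarith

end Pool.Agent.Helper78.KD
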