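import Pool.Agent.Helper78.KD.Fin

/-!
# Weyl sums
-/

set_option autoImplicit false

namespace Pool.Agent.Helper78.KD

open MeasureTheory Set Filter Topology

/-- the exponential sum -/
noncomputable def wsum (u : ℕ → ℝ) (N : ℕ) : ℂ := ∑ n ∈ Finset.range N, Complex.exp (2 * Real.pi * Complex.I * (u n : ℝ))

theorem cos_cls (ω : ℝ) : Cls (fun t => Real.cos (2 * Real.pi * (t - ω))) 7 7 := by
  refine lip_cls (by norm_num) (fun t => ?_) (fun t => Real.abs_cos_le_one _) (fun s t => ?_) ?_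
  · rw [show 2 * Real.pi * (t + 1 - ω) = 2 * Real.pi * (t - ω) + 2 * Real.pi by ring, Real.cos_add_two_pi]
  · have h1 := Real.abs_cos_sub_cos_le (2 * Real.pi * (s - ω)) (2 * Real.pi * (t - ω))
    have h2 : 2 * Real.pi * (s - ω) - 2 * Real.pi * (t - ω) = 2 * Real.pi * (s - t) := by ring
    rw [h2, abs_mul, abs_of_pos (by positivity : (0 : ℝ) < 2 * Real.pi)] at h1
    have h3 : 2 * Real.pi ≤ 7 := by
      have := Real.pi_lt_d2
      linarith
    exact h1.trans (mul_le_mul_of_nonneg_right h3 (abs_nonneg _))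
  · have h1 : ∀ t : ℝ, HasDerivAt (fun t => Real.sin (2 * Real.pi * (t - ω)) / (2 * Real.pi))
        (Real.cos (2 * Real.pi * (t - ω))) t := by
      intro t
      have h2 : HasDerivAt (fun t => 2 * Real.pi * (t - ω)) (2 * Real.pi) t := by
        simpa using ((hasDerivAt_id t).sub_const ω).const_mul (2 * Real.pi)
      have h3 := h2.sin.div_const (2 * Real.pi)
      rwa [mul_div_cancel_right₀ _ (by positivity)] at h3
    have hc : Continuous fun t => Real.cos (2 * Real.pi * (t - ω)) := by fun_prop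
    rw [intervalIntegral.integral_eq_sub_of_hasDerivAt (fun t _ => h1 t) (hc.intervalIntegrable _ _)]
    rw [show 2 * Real.pi * (1 - ω) = 2 * Real.pi * (0 - ω) + 2 * Real.pi by ring, Real.sin_add_two_pi, sub_self]

theorem cos_sq_int (ω : ℝ) : ∫ t in (0 : ℝ)..1, Real.cos (2 * Real.pi * (t - ω)) ^ 2 = 1 / 2 := by
  have h1 : ∀ t : ℝ, HasDerivAt (fun t => t / 2 + Real.sin (2 * (2 * Real.pi * (t - ω))) / (8 * Real.pi))
      (Real.cos (2 * Real.pi * (t - ω)) ^ 2) t := by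
    intro t
    have h2 : HasDerivAt (fun t => 2 * (2 * Real.pi * (t - ω))) (2 * (2 * Real.pi)) t := by
      simpa using (((hasDerivAt_id t).sub_const ω).const_mul (2 * Real.pi)).const_mul 2
    have h3 := (h2.sin.div_const (8 * Real.pi))
    have h4 := ((hasDerivAt_id' t).div_const 2).fun_add h3
    refine h4.congr_deriv ?_
    rw [Real.cos_sq]
    have : Real.pi ≠ 0 := Real.pi_ne_zero
    field_simp
    ring
  have hc : Continuous fun t => Real.cos (2 * Real.pi * (t - ω)) ^ 2 := by fun_prop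
  rw [intervalIntegral.integral_eq_sub_of_hasDerivAt (fun t _ => h1 t) (hc.intervalIntegrable _ _)]
  rw [show 2 * (2 * Real.pi * (1 - ω)) = 2 * (2 * Real.pi * (0 - ω)) + (2 : ℕ) * (2 * Real.pi) by push_cast; ring,
    Real.sin_add_nat_mul_two_pi]
  ring

/-- the sum of the cosines is a real part of the rotated Weyl sum -/
theorem wsum_re (u : ℕ → ℝ) (N : ℕ) (ω : ℝ) : ∑ n ∈ Finset.range N, Real.cos (2 * Real.pi * (u n - ω)) =
    (wsum u N * Complex.exp (-(2 * Real.pi * ω * Complex.I))).re := by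
  unfold wsum
  rw [Finset.sum_mul, Complex.re_sum]
  refine Finset.sum_congr rfl fun n _ => ?_
  rw [← Complex.exp_add]
  have h1 : 2 * Real.pi * Complex.I * (u n : ℝ) + -(2 * Real.pi * ω * Complex.I) =
      ((2 * Real.pi * (u n - ω) : ℝ) : ℂ) * Complex.I := by push_cast; ring
  rw [h1, Complex.exp_ofReal_mul_I_re]

theorem wsum_bd (u : ℕ → ℝ) (N : ℕ) : ‖wsum u N‖ ≤ N := by
  unfold wsum
  refine (norm_sum_le _ _).trans ?_
  have h1 : ∀ n ∈ Finset.range N, ‖Complex.exp (2 * Real.pi * Complex.I * (u n : ℝ))‖ ≤ 1 := by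
    intro n _
    have h2 : 2 * Real.pi * Complex.I * (u n : ℝ) = ((2 * Real.pi * u n : ℝ) : ℂ) * Complex.I := by push_cast; ring
    rw [h2, Complex.norm_exp_ofReal_mul_I]
  refine (Finset.sum_le_sum h1).trans ?_
  simp

/-- some direction out of finitely many -/
theorem exists_dir {e : ℝ} (he : 0 < e) : ∃ F : Finset ℝ, ∀ z : ℂ, ∃ ω ∈ F,
    (1 - e) * ‖z‖ ≤ (z * Complex.exp (-(2 * Real.pi * ω * Complex.I))).re := by
  obtain ⟨J, hJ⟩ := exists_nat_gt (20 / e + 1)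
  have hJ1 : (1 : ℝ) < J := by
    have : 0 < 20 / e := by positivity
    linarith
  have hJ0 : (0 : ℝ) < J := by linarith
  refine ⟨(Finset.Icc (-(J : ℤ)) J).image (fun j : ℤ => (j : ℝ) / J), fun z => ?_⟩
  set a := Complex.arg z / (2 * Real.pi) with ha
  have hpi := Real.pi_pos
  have ha1 : |a| ≤ 1 / 2 := by
    rw [ha, abs_div, abs_of_pos (by positivity : (0 : ℝ) < 2 * Real.pi), div_le_iff₀ (by positivity)]
    have := Complex.abs_arg_le_pi z
    linarith
  set j := ⌊a * J⌋ with hj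
  have hj1 : (j : ℝ) ≤ a * J := Int.floor_le _
  have hj2 : a * J < j + 1 := Int.lt_floor_add_one _
  have ha2 := abs_le.1 ha1
  refine ⟨(j : ℝ) / J, ?_, ?_⟩
  · rw [Finset.mem_image]
    refine ⟨j, ?_, rfl⟩
    rw [Finset.mem_Icc]
    constructor
    · rw [hj, Int.le_floor]
      push_cast
      nlinarith [ha2.1]
    · have h1 : (j : ℝ) ≤ J := by nlinarith [ha2.2]
      exact_mod_cast h1
  · have hz : z * Complex.exp (-(2 * Real.pi * ((j : ℝ) / J : ℝ) * Complex.I)) =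
        (‖z‖ : ℂ) * Complex.exp (((2 * Real.pi * (a - (j : ℝ) / J) : ℝ) : ℂ) * Complex.I) := by
      conv_lhs => rw [← Complex.norm_mul_exp_arg_mul_I z]
      rw [mul_assoc, ← Complex.exp_add]
      congr 2
      have h1 : Complex.arg z = 2 * Real.pi * a := by rw [ha]; field_simp
      rw [h1]
      push_cast
      ring
    rw [hz, Complex.re_ofReal_mul, Complex.exp_ofReal_mul_I_re]
    have h2 : |a - (j : ℝ) / J| ≤ 1 / J := by
      rw [abs_le]
      have h3 : a - (j : ℝ) / J = (a * J - j) / J := by field_simp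
      rw [h3]
      constructor
      · rw [le_div_iff₀ hJ0]
        have : -(1 / (J : ℝ)) * J = -1 := by field_simp
        rw [this]
        linarith
      · apply div_le_div_of_nonneg_right _ hJ0.le
        linarith
    have h4 := Real.one_sub_sq_div_two_le_cos (x := 2 * Real.pi * (a - (j : ℝ) / J))
    have h5 : (2 * Real.pi * (a - (j : ℝ) / J)) ^ 2 / 2 ≤ e := by
      have h6 : (2 * Real.pi * (a - (j : ℝ) / J)) ^ 2 / 2 = 2 * Real.pi ^ 2 * |a - (j : ℝ) / J| ^ 2 := by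
        rw [sq_abs]; ring
      rw [h6]
      have h7 : Real.pi ^ 2 ≤ 10 := by
        have := Real.pi_lt_d2
        nlinarith
      have h8 : |a - (j : ℝ) / J| ^ 2 ≤ (1 / J) ^ 2 := pow_le_pow_left₀ (abs_nonneg _) h2 2
      have h9 : (1 / (J : ℝ)) ^ 2 ≤ 1 / J := by
        rw [sq]
        apply mul_le_of_le_one_left (by positivity)
        rw [div_le_one hJ0]
        exact hJ1.le
      have h10 : 20 * (1 / (J : ℝ)) ≤ e := by
        rw [mul_one_div, div_le_iff₀ hJ0]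
        have h11 : 20 / e < J := by linarith
        rw [div_lt_iff₀ he] at h11
        linarith
      calc 2 * Real.pi ^ 2 * |a - (j : ℝ) / J| ^ 2 ≤ 2 * 10 * (1 / J) := by gcongr; linarith
        _ ≤ e := by linarith
    have h6 : 1 - e ≤ Real.cos (2 * Real.pi * (a - (j : ℝ) / J)) := by linarith
    calc (1 - e) * ‖z‖ ≤ Real.cos (2 * Real.pi * (a - (j : ℝ) / J)) * ‖z‖ := by gcongr
      _ = _ := mul_comm _ _

/-- upper bound for the Weyl sums -/
theorem weyl_upper {x₀ : ℝ} (hx₀ : 1 < x₀) (hirr : ∀ d : ℕ, 1 ≤ d → Irrational (x₀ ^ d)) {ε : ℝ} (hε : 0 < ε) (hε1 : ε ≤ 1) :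
    ∃ (D : ℕ) (τ β₁ β₂ δ₀ : ℝ), 0 < τ ∧ 1 < β₁ ∧ β₁ < x₀ ∧ x₀ < β₂ ∧ 0 < δ₀ ∧ ∀ δ : ℝ, 0 < δ → δ ≤ δ₀ →
      ∀ (U : ℕ → ℝ → ℝ) (G : Set ℝ), LocFam U G (fun d => x₀ ^ d) D τ β₁ β₂ →
      dimH {x | x ∈ G ∧ δ ≤ limsup (fun N : ℕ => ‖wsum (fun n => U n x) N‖ / N) atTop} ≤
        ENNReal.ofReal (1 - (1 - ε) / Real.log x₀ * δ ^ 2) := by
  set e := ε / 8 with he
  have he0 : 0 < e := by positivity
  have he1 : e ≤ 1 / 8 := by rw [he]; linarith
  have hlx := Real.log_pos hx₀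
  obtain ⟨β₁, β₂, hb1, hb2, hb3, hb4, hb5⟩ := choose_bases hx₀ he0 (by linarith)
  obtain ⟨D, τ, δ₁, hτ, hδ₁, hδ₁1, hmain⟩ := loc_upper hirr (β := β₁) (V := 7) (K₀ := 7) (s := 1 / 2) (ε := e) hb1
    (by norm_num) (by norm_num) (by norm_num) (by norm_num) he0 (by linarith)
  refine ⟨D, τ, β₁, β₂, δ₁, hτ, hb1, hb2, hb3, hδ₁, fun δ hδ hδδ U G hloc => ?_⟩
  obtain ⟨F, hF⟩ := exists_dir he0
  set m := (1 - e) ^ 3 * δ with hm
  have h1e : 0 < 1 - e := by linarith
  have hm0 : 0 < m := by positivity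
  have h1e3 : (1 - e) ^ 3 ≤ 1 := pow_le_one₀ h1e.le (by linarith)
  have hmδ : m ≤ δ := by rw [hm]; nlinarith
  have hm1 : m ≤ 1 := hmδ.trans (hδδ.trans hδ₁1)
  refine dimH_finset F (fun w => {x | x ∈ G ∧ ∃ᶠ N : ℕ in atTop, ((1 - e) ^ 2 * δ) * N ≤
    S (fun t => Real.cos (2 * Real.pi * (t - w))) U N x}) _ _ ?_ ?_
  · rintro x ⟨hxG, hx⟩
    have hbdd : ∀ N : ℕ, |‖wsum (fun n => U n x) N‖ / N| ≤ 1 := by
      intro N
      rcases Nat.eq_zero_or_pos N with h | h
      · subst h; simp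
      · rw [abs_div, Nat.abs_cast, div_le_one (by exact_mod_cast h), abs_norm]
        exact wsum_bd _ _
    have h1 := freq_of_limsup (δ' := (1 - e) * δ) hbdd hx (by nlinarith)
    have h2 : ∃ᶠ N : ℕ in atTop, ∃ w ∈ F, ((1 - e) ^ 2 * δ) * N ≤ S (fun t => Real.cos (2 * Real.pi * (t - w))) U N x := by
      refine (h1.and_eventually (eventually_ge_atTop 1)).mono ?_
      rintro N ⟨hN, hN1⟩
      have hNpos : (0 : ℝ) < N := by exact_mod_cast hN1
      rw [lt_div_iff₀ hNpos] at hN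
      obtain ⟨w, hw, hwz⟩ := hF (wsum (fun n => U n x) N)
      refine ⟨w, hw, ?_⟩
      have h3 := wsum_re (fun n => U n x) N w
      have h4 : S (fun t => Real.cos (2 * Real.pi * (t - w))) U N x =
          (wsum (fun n => U n x) N * Complex.exp (-(2 * Real.pi * w * Complex.I))).re := h3
      rw [h4]
      refine le_trans ?_ hwz
      calc (1 - e) ^ 2 * δ * N = (1 - e) * ((1 - e) * δ * N) := by ring
        _ ≤ _ := by gcongr
    obtain ⟨w, hw, hfr⟩ := freq_finset _ _ h2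
    exact ⟨w, hw, hxG, hfr⟩
  · intro w _
    have h7 : (7 : ℝ) ≤ 7 / m := by rw [le_div_iff₀ hm0]; linarith
    refine (hmain m hm0 (hmδ.trans hδδ) U G β₁ β₂ le_rfl hloc _ ((cos_cls w).mono h7) (cos_sq_int w).le ((1 - e) ^ 2 * δ)
      ?_).trans (ENNReal.ofReal_le_ofReal ?_)
    · rw [hm]
      have h8 : 0 < (1 - e) ^ 2 * δ := by positivity
      calc (1 - e) ^ 3 * δ = (1 - e) * ((1 - e) ^ 2 * δ) := by ring
        _ < _ := by nlinarith
    have hlb : 0 < Real.log β₂ := Real.log_pos (by linarith)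
    have h1 : (1 - ε) / Real.log x₀ * δ ^ 2 ≤ (1 - e) * m ^ 2 / (2 * (1 / 2) * Real.log β₂) := by
      have h2 : (1 - e) * m ^ 2 / (2 * (1 / 2) * Real.log β₂) = (1 - e) ^ 7 / Real.log β₂ * δ ^ 2 := by
        rw [hm]; field_simp
      rw [h2]
      apply mul_le_mul_of_nonneg_right _ (sq_nonneg δ)
      rw [div_le_div_iff₀ hlx hlb]
      have h3 : ε = 8 * e := by rw [he]; ring
      have h4 : (1 - ε) * Real.log β₂ ≤ (1 - ε) * ((1 + e) * Real.log x₀) := by
        apply mul_le_mul_of_nonneg_left hb5; linarith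
      have h5 : (1 - ε) * (1 + e) ≤ (1 - e) ^ 7 := by
        have h6 := one_add_mul_le_pow (a := -e) (by linarith) 7
        have h8 : (1 + -e) ^ 7 = (1 - e) ^ 7 := by ring
        rw [h8] at h6
        push_cast at h6
        rw [h3]
        nlinarith
      calc (1 - ε) * Real.log β₂ ≤ ((1 - ε) * (1 + e)) * Real.log x₀ := by linarith
        _ ≤ _ := by gcongr
    linarith

/-- lower bound for the Weyl sums -/
theorem weyl_lower {x₀ : ℝ} (hx₀ : 1 < x₀) (hirr : ∀ d : ℕ, 1 ≤ d → Irrational (x₀ ^ d)) {ε : ℝ} (hε : 0 < ε) (hε1 : ε ≤ 1) :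
    ∃ (D : ℕ) (τ β₁ β₂ δ₀ : ℝ), 0 < τ ∧ 1 < β₁ ∧ β₁ < x₀ ∧ x₀ < β₂ ∧ 0 < δ₀ ∧ ∀ δ : ℝ, 0 < δ → δ ≤ δ₀ →
      ∀ (U : ℕ → ℝ → ℝ) (G : Set ℝ), LocFam U G (fun d => x₀ ^ d) D τ β₁ β₂ → ∀ O : Set ℝ, IsOpen O → O.Nonempty → O ⊆ G →
      ENNReal.ofReal (1 - (1 + ε) / Real.log x₀ * δ ^ 2) ≤
      dimH {x | x ∈ O ∧ δ ≤ liminf (fun N : ℕ => ‖wsum (fun n => U n x) N‖ / N) atTop} := by
  have hlx := Real.log_pos hx₀
  obtain ⟨D, τ, β₁, β₂, δ₀, hτ, hb1, hb2, hb3, hδ₀, hmain⟩ := mean_lower hx₀ hirr (φ := fun t => Real.cos (2 * Real.pi * (t - 0)))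
    (K := 7) (fun t => by
      rw [show 2 * Real.pi * (t + 1 - 0) = 2 * Real.pi * (t - 0) + 2 * Real.pi by ring, Real.cos_add_two_pi])
    (cos_cls 0).lip (cos_cls 0).mean (σ := 1 / 2) (cos_sq_int 0) (by norm_num) hε hε1
  refine ⟨D, τ, β₁, β₂, δ₀, hτ, hb1, hb2, hb3, hδ₀, fun δ hδ hδδ U G hloc O hO hne hOG => ?_⟩
  have h1 := hmain δ hδ hδδ U G hloc O hO hne hOG
  have h2 : (1 + ε) / (2 * (1 / 2) * Real.log x₀) = (1 + ε) / Real.log x₀ := by norm_num
  rw [h2] at h1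
  refine h1.trans (dimH_mono ?_)
  rintro x ⟨hxO, hx⟩
  refine ⟨hxO, hx.trans ?_⟩
  have hb1 : ∀ N : ℕ, |‖wsum (fun n => U n x) N‖ / N| ≤ 1 := by
    intro N
    rcases Nat.eq_zero_or_pos N with h | h
    · subst h; simp
    · rw [abs_div, Nat.abs_cast, div_le_one (by exact_mod_cast h), abs_norm]
      exact wsum_bd _ _
  have hcos : ∀ N : ℕ, |(∑ n ∈ Finset.range N, Real.cos (2 * Real.pi * (U n x - 0)))| ≤ ‖wsum (fun n => U n x) N‖ := by
    intro N
    have h3 := wsum_re (fun n => U n x) N 0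
    rw [h3]
    refine (Complex.abs_re_le_norm _).trans ?_
    rw [norm_mul]
    simp
  refine liminf_le_liminf (Eventually.of_forall fun N => ?_) ?_ ?_
  · rcases Nat.eq_zero_or_pos N with h | h
    · subst h; simp
    · have hNpos : (0 : ℝ) < N := by exact_mod_cast h
      have h4 := (abs_le.1 (hcos N)).2
      show (∑ n ∈ Finset.range N, Real.cos (2 * Real.pi * (U n x - 0))) / N ≤ _
      gcongr
  · refine ⟨-1, ?_⟩
    rw [eventually_map]
    refine Eventually.of_forall fun N => ?_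
    rcases Nat.eq_zero_or_pos N with h | h
    · subst h; simp
    · have hNpos : (0 : ℝ) < N := by exact_mod_cast h
      have h4 := (abs_le.1 (hcos N)).1
      have h5 := wsum_bd (fun n => U n x) N
      show -1 ≤ (∑ n ∈ Finset.range N, Real.cos (2 * Real.pi * (U n x - 0))) / N
      rw [le_div_iff₀ hNpos]
      linarith
  · exact IsBoundedUnder.isCoboundedUnder_ge
      ⟨1, by rw [eventually_map]; exact Eventually.of_forall fun N => (abs_le.1 (hb1 N)).2⟩

end Pool.Agent.Helper78.KD
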